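import Mathlib
import Pool.Agent.Rey.Defs

/-!
# MP_59bbdb_co, all dimensions, version 2: definitions

See the text MP_59bbdb_co_alldim2_helper82.md in the team store. The notions `cnt`, `mis`, `wt`,
`dm`, `PM`, `Win`, `VAL`, `hd`, `gb`, `usd` are those of `Pool.Agent.Rey.Defs`.
-/

set_option autoImplicit false

namespace Pool.Agent.Rez

open Finset
open Pool.Agent.Rey

/-- The design: every cell `(k, j)` has a type, samples, and a mark. -/
abbrev Om (D T h R M : ℕ) := Fin D → Fin D → Fin T × (Fin h → Fin R) × Fin M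

/-- The levels of the design. -/
def lv2 {D T h R M : ℕ} (ω : Om D T h R M) (k j : Fin D) (a : Fin M) : ℕ :=
  if ((ω k j).1 : ℕ) = 0 then (if a = (ω k j).2.2 then 1 else 0)
  else if ∃ p, ((ω k j).2.1 p : ℕ) = (a : ℕ) % R then 1 + (a : ℕ) / R else 0

/-- The virtual column `v` is valid at row `j` for `I0`. -/
def VAL2 {D M m : ℕ} (E1 : ℕ) (lev : Fin D → Fin D → Fin M → ℕ) (c : Fin D → Fin M → Fin m)
    (b : Fin D → Fin m) (a0 : Fin M) (I0 : Finset (Fin m)) (v : Fin D × (Fin m → Fin M))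
    (j : Fin D) : Prop :=
  (∀ A ∈ I0, ∃ a, c v.1 a = A) ∧
  ((mis (c v.1)).card ≤ E1 → v.2 = (fun _ => a0) ∧
    ∀ a, c v.1 a ∈ I0 → cnt (c v.1) (c v.1 a) = 1 →
      ∃ a', c v.1 a' = b j ∧ lev v.1 j a ≤ lev v.1 j a') ∧
  (E1 < (mis (c v.1)).card → VAL lev c b a0 I0 v j)

/-- The points of the column `v` which must not be marked at a cell of type `0` in a row of the
colour `β`. -/
noncomputable def Qs {D M m : ℕ} (E1 : ℕ) (c : Fin D → Fin M → Fin m) (I : Finset (Fin m))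
    (β : Fin m) (v : Fin D × (Fin m → Fin M)) : Finset (Fin M) :=
  if (mis (c v.1)).card ≤ E1 then
    univ.filter (fun a => c v.1 a ∈ I.erase β ∧ cnt (c v.1) (c v.1 a) = 1)
  else (I.erase β).image v.2

/-- The hub `k` is available for `I` and not light. -/
def NL {D M m : ℕ} (R E0 : ℕ) (c : Fin D → Fin M → Fin m) (k : Fin D) (I : Finset (Fin m)) :
    Prop :=
  (∀ A ∈ mis (c k), A ∉ I) ∧ (E0 < (mis (c k)).card ∨ 2 * (gb R (c k) I).card < R)

open scoped Classical in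
/-- Number of nonlight virtual columns. -/
noncomputable def vs2 {D M m : ℕ} (R E0 E1 : ℕ) (c : Fin D → Fin M → Fin m)
    (I : Finset (Fin m)) : ℕ :=
  (univ.filter (fun k : Fin D => (mis (c k)).card ≤ E1 ∧ NL R E0 c k I)).card +
    ∑ k ∈ univ.filter (fun k : Fin D => E1 < (mis (c k)).card), ∏ A ∈ I, cnt (c k) A

/-- Suitable sets of colours. -/
def Suit2 {D M m : ℕ} (q n R E0 E1 V : ℕ) (c : Fin D → Fin M → Fin m)
    (I : Finset (Fin m)) : Prop :=
  m ≤ 4 * q * I.card ∧ 2 * I.card ≤ n ∧ vs2 R E0 E1 c I ≤ V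

/-- `U β`: the points of the colour `β` in the clusters with few missing colours in which `β` is
used at least twice. -/
def UU {D M m : ℕ} (E0 : ℕ) (c : Fin D → Fin M → Fin m) (β : Fin m) : ℕ :=
  ∑ k ∈ univ.filter (fun k : Fin D => (mis (c k)).card ≤ E0 ∧ 2 ≤ cnt (c k) β), cnt (c k) β

/-- Efficient colours. -/
def eff {D M m : ℕ} (T E0 : ℕ) (c : Fin D → Fin M → Fin m) (b : Fin D → Fin m) (β : Fin m) :
    Prop :=
  2 * 10 ^ 7 * UU E0 c β ≤ T * (univ.filter (fun j => b j = β)).card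

open scoped Classical in
/-- The rows of efficient colours of `I`. -/
noncomputable def JJ {D M m : ℕ} (T E0 : ℕ) (c : Fin D → Fin M → Fin m) (b : Fin D → Fin m)
    (I : Finset (Fin m)) : Finset (Fin D) :=
  univ.filter (fun j => eff T E0 c b (b j) ∧ b j ∈ I)

/-- The blocks `r` with `(k, β, r) ∈ H`. -/
def hb {D m R : ℕ} (H : Finset (Fin D × Fin m × Fin R)) (k : Fin D) (β : Fin m) :
    Finset (Fin R) :=
  univ.filter (fun r => (k, β, r) ∈ H)

/-- Lemma A, the property of the design. -/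
def GoodA {D T h R M : ℕ} (m q E0 Y : ℕ) (ω : Om D T h R M) : Prop :=
  ∀ (b : Fin D → Fin m) (J : Finset (Fin D)) (G : Fin D → Finset (Fin R))
    (H : Finset (Fin D × Fin m × Fin R)) (F : Fin (Y + 1) → Fin D → Option (Fin D)),
    D ≤ 200 * q * J.card →
    (∀ k, R ≤ 2 * (G k).card) → H.card ≤ 2 * R * D → (∀ k β, (hb H k β).card ≤ E0) →
    2 * 10 ^ 7 * (∑ β ∈ J.image b, ∑ k, if 2 ≤ (hb H k β).card then (hb H k β).card else 0)
      ≤ T * J.card →
    (∀ i, PM (F i)) → (∀ i, dm (F i) ⊆ J) →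
    (∀ i i' j k, F i j = some k → F i' j = some k → i = i') →
    (Y + 1) * J.card ≤ 64 * ∑ i, (dm (F i)).card →
    ∃ i j k, F i j = some k ∧ ((ω k j).1 : ℕ) ≠ 0 ∧ (∃ p, (ω k j).2.1 p ∈ G k) ∧
      ∀ p, (k, b j, (ω k j).2.1 p) ∉ H

/-- Lemma B, the property of the design. The window `i` consists of the rows `j` with
`j / (8 m^3) = i`. -/
def GoodB {D T h R M : ℕ} (m q w : ℕ) (ω : Om D T h R M) : Prop :=
  ∀ (K : Fin m × Fin m → Fin w → Option (Fin D)) (Q : Fin m × Fin m → Fin w → Finset (Fin M))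
    (Θ : Fin w → Finset (Fin D)),
    (∀ g, PM (K g)) → (∀ i g g' k, K g i = some k → K g' i = some k → g = g') →
    (∀ i ∈ usd K, (univ.filter (fun g => (K g i).isSome = true)).card = m) →
    (usd K).Nonempty → w ≤ 4 * (usd K).card →
    (∀ g i, (K g i).isSome = true → M ≤ 8 * q * (Q g i).card) →
    (∀ i ∈ usd K, (Θ i).card = m ^ 2 ∧ ∀ j ∈ Θ i, (j : ℕ) / (8 * m ^ 3) = i) →
    ∃ g i k j, K g i = some k ∧ j ∈ Θ i ∧ ((ω k j).1 : ℕ) = 0 ∧ (ω k j).2.2 ∈ Q g i

/-- The parameters. -/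
structure Par2 (m n q l : ℕ) : Prop where
  hq : 8 ≤ q
  hnm : n ≤ m
  hqn : 8 * m ≤ n * q
  hl : Real.log m ≤ l
  hl1 : 1 ≤ l
  hP : 10 ^ 17 * q ^ 3 * l ^ 3 ≤ m

/-- Number of types. -/
def qT (q l : ℕ) : ℕ := 2 * 10 ^ 10 * q * l
/-- Number of samples. -/
def qh (l : ℕ) : ℕ := 2 * l + 40
/-- Number of blocks. -/
def qR (q l : ℕ) : ℕ := qh l * qT q l
/-- Clusters with at most `qE0` missing colours can be light. -/
def qE0 (q l : ℕ) : ℕ := 5 * q * l
/-- Clusters with more than `qE1` missing colours have representatives. -/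
def qE1 (q l : ℕ) : ℕ := 10 * q ^ 2 * l
/-- Bound for the nonlight virtual columns. -/
def qV (m q D : ℕ) : ℕ := 2000 * q * D / m ^ 5

end Pool.Agent.Rez
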