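import Mathlib
import Pool.Agent.Rez.Defs

set_option autoImplicit false

namespace Pool.Agent.Rez

open Finset
open Pool.Agent.Rey

/-- A valid cell of positive type in a column with at most `E1` missing colours. If a sampled block
contains a once used point of a colour of `I0`, take such a point `a*` of maximal position over all
sampled blocks; there is a point `a'` of colour `b j` of level at least `1 + pos a*`, hence in a
sampled block, at position at least `pos a*`; it is a head by maximality. -/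
theorem ord_cell2 {D T h R M m : ℕ} (E1 : ℕ) (ω : Om D T h R M) (c : Fin D → Fin M → Fin m)
    (b : Fin D → Fin m) (a0 : Fin M) (I0 : Finset (Fin m)) (v : Fin D × (Fin m → Fin M))
    (j : Fin D) (hj : ((ω v.1 j).1 : ℕ) ≠ 0) (he : (mis (c v.1)).card ≤ E1)
    (hv : VAL2 E1 (lv2 ω) c b a0 I0 v j) :
    (∀ p, (ω v.1 j).2.1 p ∉ gb R (c v.1) I0) ∨
      ∃ p, ∃ a ∈ hd R (c v.1) I0, c v.1 a = b j ∧ (a : ℕ) % R = ((ω v.1 j).2.1 p : ℕ) := by
  classical
  have hv3 := (hv.2.1 he).2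
  by_cases hex : ∃ p, (ω v.1 j).2.1 p ∈ gb R (c v.1) I0
  · right
    let S : Finset (Fin M) := univ.filter (fun a =>
      (∃ p, ((ω v.1 j).2.1 p : ℕ) = (a : ℕ) % R) ∧ c v.1 a ∈ I0 ∧ cnt (c v.1) (c v.1 a) = 1)
    have hS : S.Nonempty := by
      obtain ⟨p, hp⟩ := hex
      obtain ⟨a, ha1, ha2, ha3⟩ := (mem_filter.1 hp).2
      exact ⟨a, mem_filter.2 ⟨mem_univ _, ⟨p, ha1.symm⟩, ha2, ha3⟩⟩
    obtain ⟨s, hs, hmax⟩ := S.exists_max_image (fun a : Fin M => (a : ℕ) / R) hS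
    obtain ⟨-, hs1, hs2, hs3⟩ := mem_filter.1 hs
    obtain ⟨a', ha', hlev⟩ := hv3 s hs2 hs3
    have h1 : lv2 ω v.1 j s = 1 + (s : ℕ) / R := by
      unfold lv2
      rw [if_neg hj, if_pos hs1]
    have h2 : ∃ p, ((ω v.1 j).2.1 p : ℕ) = (a' : ℕ) % R := by
      by_contra hcon
      have h3 : lv2 ω v.1 j a' = 0 := by
        unfold lv2
        rw [if_neg hj, if_neg hcon]
      rw [h1, h3] at hlev
      exact absurd hlev (Nat.not_le.2 (Nat.lt_of_lt_of_le Nat.zero_lt_one (Nat.le_add_right 1 _)))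
    have h3 : lv2 ω v.1 j a' = 1 + (a' : ℕ) / R := by
      unfold lv2
      rw [if_neg hj, if_pos h2]
    obtain ⟨p, hp⟩ := h2
    refine ⟨p, a', ?_, ha', hp.symm⟩
    refine mem_filter.2 ⟨mem_univ _, ?_⟩
    intro a'' hmod hlt hI hc1
    have h4 : a'' ∈ S := mem_filter.2 ⟨mem_univ _, ⟨p, by rw [hmod]; exact hp⟩, hI, hc1⟩
    have h5 : (a'' : ℕ) / R ≤ (s : ℕ) / R := hmax a'' h4
    rw [h1, h3] at hlev
    omega
  · left
    intro p hp
    exact hex ⟨p, hp⟩

/-- A valid cell of type `0`: the marked point is not in `Qs`. -/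
theorem act_cell2 {D T h R M m : ℕ} (E1 : ℕ) (ω : Om D T h R M) (c : Fin D → Fin M → Fin m)
    (b : Fin D → Fin m) (a0 : Fin M) (I0 : Finset (Fin m)) (v : Fin D × (Fin m → Fin M))
    (j : Fin D) (hj : ((ω v.1 j).1 : ℕ) = 0) (hv : VAL2 E1 (lv2 ω) c b a0 I0 v j) :
    (ω v.1 j).2.2 ∉ Qs E1 c I0 (b j) v := by
  classical
  intro hmem
  have key : ∀ x : Fin M, x = (ω v.1 j).2.2 → c v.1 x ≠ b j →
      ¬ ∃ a', c v.1 a' = b j ∧ lv2 ω v.1 j x ≤ lv2 ω v.1 j a' := by
    rintro x hx hcx ⟨a', ha1, ha2⟩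
    have h1 : lv2 ω v.1 j x = 1 := by
      unfold lv2
      rw [if_pos hj, if_pos hx]
    rw [h1] at ha2
    have h2 : a' = (ω v.1 j).2.2 := by
      by_contra hcon
      have h3 : lv2 ω v.1 j a' = 0 := by
        unfold lv2
        rw [if_pos hj, if_neg hcon]
      rw [h3] at ha2
      omega
    apply hcx
    rw [hx, ← h2, ha1]
  unfold Qs at hmem
  split_ifs at hmem with he
  · simp only [mem_filter, mem_univ, true_and, mem_erase] at hmem
    exact key _ rfl hmem.1.1 ((hv.2.1 he).2 _ hmem.1.2 hmem.2)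
  · rw [mem_image] at hmem
    obtain ⟨A, hA, hAx⟩ := hmem
    rw [mem_erase] at hA
    obtain ⟨h1, h2, h3⟩ := hv.2.2 (not_le.mp he)
    refine key (v.2 A) hAx ?_ (h3 A hA.2)
    rw [h1 A hA.2]
    exact hA.1

end Pool.Agent.Rez
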