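import Mathlib
import Pool.Agent.Rey.Env
import Pool.Agent.Rez.Defs

set_option autoImplicit false

namespace Pool.Agent.Rez

open Finset
open Pool.Agent.Rey

/-- ENVELOPE, applied. -/
theorem env_apply2 {D M m : ℕ} (E1 : ℕ) (lev : Fin D → Fin D → Fin M → ℕ)
    (c : Fin D → Fin M → Fin m)
    (b : Fin D → Fin m) (hb : ∀ k a, c k a ≠ b k) (a0 : Fin M) (I0 : Finset (Fin m)) (Y : ℕ)
    (hwin : ∀ I : Finset (Fin m), I.card ≤ I0.card + Y → Win lev c I) :
    ∃ f : ℕ → Fin D → Fin D × (Fin m → Fin M),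
      (∀ i ≤ Y, ∀ j j', b j ∈ I0 → b j' ∈ I0 → j ≤ j' → (f i j).1 ≤ (f i j').1) ∧
      (∀ i ≤ Y, ∀ j j' j'', b j ∈ I0 → b j' ∈ I0 → b j'' ∈ I0 → j ≤ j' → j' ≤ j'' →
        f i j = f i j'' → f i j' = f i j) ∧
      (∀ i ≤ Y, ∀ j, b j ∈ I0 → VAL2 E1 lev c b a0 I0 (f i j) j) ∧
      (∀ i < Y, ∀ j, b j ∈ I0 → (f i j).1 < (f (i + 1) j).1) := by
  classical
  let e : (Fin m → Fin M) ≃ Fin (Fintype.card (Fin m → Fin M)) := Fintype.equivFin _
  let V := Fin D ×ₗ Fin (Fintype.card (Fin m → Fin M))
  let col : V → Fin D := fun v => (ofLex v).1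
  let dec : V → Fin D × (Fin m → Fin M) := fun v => ((ofLex v).1, e.symm (ofLex v).2)
  let Val : Finset (Fin m) → V → Fin D → Prop := fun I v j =>
    VAL2 E1 lev c b a0 I0 (dec v) j ∧ ∀ A ∈ I, ∃ a, c (col v) a = A
  have hinj : ∀ v v' : V, dec v = dec v' → v = v' := by
    intro v v' h
    have h1 := (Prod.mk.inj h).1
    have h2 := e.symm.injective (Prod.mk.inj h).2
    exact ofLex.injective (Prod.ext h1 h2)
  have hcol : ∀ v v' : V, v ≤ v' → col v ≤ col v' := by
    intro v v' h
    rcases (Prod.Lex.le_iff (α := Fin D) (β := Fin (Fintype.card (Fin m → Fin M)))).1 h with h | h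
    · exact le_of_lt h
    · exact le_of_eq h.1
  obtain ⟨f, h1, h2, h3⟩ := envelope (P := Fin D) (κ := Fin D) (V := V) (C := Fin m)
    (univ.filter (fun j => b j ∈ I0)) col hcol b I0 Y Val
    (fun I I' v j _ hII h => ⟨h.1, fun A hA => h.2 A (hII hA)⟩)
    (fun I v j h hmem => by
      obtain ⟨a, ha⟩ := h.2 _ hmem
      exact hb _ _ ha)
    (by
      intro I hI hcard
      obtain ⟨φ, ρ, hφ, hmono⟩ := hwin I hcard (univ.filter (fun j => b j ∈ I0)) b
        (fun j hj => ⟨hI (mem_filter.1 hj).2, fun a => hb j a⟩)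
      refine ⟨fun j => toLex (φ j, e (if (mis (c (φ j))).card ≤ E1 then (fun _ => a0) else
        (fun A => if A ∈ I0 then ρ (φ j) A else a0))), ?_, ?_⟩
      · intro j hj
        have hd : dec (toLex (φ j, e (if (mis (c (φ j))).card ≤ E1 then (fun _ => a0) else
            (fun A => if A ∈ I0 then ρ (φ j) A else a0))))
            = (φ j, if (mis (c (φ j))).card ≤ E1 then (fun _ => a0) else
              (fun A => if A ∈ I0 then ρ (φ j) A else a0)) := by
          simp [dec]
        refine ⟨?_, ?_⟩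
        · rw [hd]
          refine ⟨?_, ?_, ?_⟩
          · intro A hA
            exact ⟨_, (hφ j hj A (hI hA)).1⟩
          · intro hle
            have hle' : (mis (c (φ j))).card ≤ E1 := hle
            refine ⟨by simp [hle'], ?_⟩
            intro a ha hc1
            have ha' : c (φ j) a ∈ I0 := ha
            have hc1' : cnt (c (φ j)) (c (φ j) a) = 1 := hc1
            obtain ⟨h5, a', ha1, ha2⟩ := hφ j hj (c (φ j) a) (hI ha')
            have h6 : ρ (φ j) (c (φ j) a) = a := by
              have h7 : ρ (φ j) (c (φ j) a) ∈ univ.filter (fun x => c (φ j) x = c (φ j) a) :=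
                mem_filter.2 ⟨mem_univ _, h5⟩
              have h8 : a ∈ univ.filter (fun x => c (φ j) x = c (φ j) a) :=
                mem_filter.2 ⟨mem_univ _, rfl⟩
              exact Finset.card_le_one.1 (le_of_eq hc1') _ h7 _ h8
            rw [h6] at ha2
            exact ⟨a', ha1, ha2⟩
          · intro hlt
            have hlt' : ¬ (mis (c (φ j))).card ≤ E1 := not_le.mpr hlt
            simp only [hlt', if_false]
            refine ⟨?_, ?_, ?_⟩
            · intro A hA
              simp only [hA, if_true]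
              exact (hφ j hj A (hI hA)).1
            · intro A hA
              simp only [hA, if_false]
            · intro A hA
              simp only [hA, if_true]
              exact (hφ j hj A (hI hA)).2
        · intro A hA
          exact ⟨_, (hφ j hj A hA).1⟩
      · intro j hj j' hj' hjj
        rcases lt_or_eq_of_le (hmono j hj j' hj' hjj) with h | h
        · exact (Prod.Lex.le_iff (α := Fin D) (β := Fin (Fintype.card (Fin m → Fin M)))).2 (Or.inl h)
        · refine (Prod.Lex.le_iff (α := Fin D) (β := Fin (Fintype.card (Fin m → Fin M)))).2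
            (Or.inr ⟨h, ?_⟩)
          simp only [ofLex_toLex]
          rw [h])
  refine ⟨fun i j => dec (f i j), ?_, ?_, ?_, ?_⟩
  · intro i hi j j' hj hj' hjj
    exact hcol _ _ (h1 i hi j (mem_filter.2 ⟨mem_univ _, hj⟩) j' (mem_filter.2 ⟨mem_univ _, hj'⟩) hjj)
  · intro i hi j j' j'' hj hj' hj'' hjj hjj' heq
    have e1 := h1 i hi j (mem_filter.2 ⟨mem_univ _, hj⟩) j' (mem_filter.2 ⟨mem_univ _, hj'⟩) hjj
    have e2 := h1 i hi j' (mem_filter.2 ⟨mem_univ _, hj'⟩) j'' (mem_filter.2 ⟨mem_univ _, hj''⟩) hjj'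
    have e3 := hinj _ _ heq
    rw [← e3] at e2
    exact congrArg dec (le_antisymm e2 e1)
  · intro i hi j hj
    exact (h2 i hi j (mem_filter.2 ⟨mem_univ _, hj⟩)).1
  · intro i hi j hj
    exact h3 i hi j (mem_filter.2 ⟨mem_univ _, hj⟩)

end Pool.Agent.Rez
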