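import Mathlib
import Pool.Agent.Rey.Bern
import Pool.Agent.Rey.Clus
import Pool.Agent.Rey.Cnt
import Pool.Agent.Rez.Defs

set_option autoImplicit false

namespace Pool.Agent.Rez

open Finset
open Pool.Agent.Rey
open scoped Classical

private theorem b1_par {m n q l : ℕ} (h : Par2 m n q l) :
    (8 : ℝ) ≤ q ∧ (10 : ℝ) ^ 17 * q ^ 3 ≤ m ∧ 8 * (m : ℝ) ≤ n * q := by
  obtain ⟨hq, hnm, hqn, hl, hl1, hP⟩ := h
  refine ⟨by exact_mod_cast hq, ?_, by exact_mod_cast hqn⟩
  have h2 : 10 ^ 17 * q ^ 3 ≤ m := by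
    refine le_trans ?_ hP
    calc 10 ^ 17 * q ^ 3 = 10 ^ 17 * q ^ 3 * 1 := by ring
      _ ≤ 10 ^ 17 * q ^ 3 * l ^ 3 := Nat.mul_le_mul_left _ (Nat.one_le_pow _ _ hl1)
  exact_mod_cast h2

private theorem b1_exp {y T : ℝ} (hT : 0 < T) (hy : T ≤ y) : Real.exp (-y) ≤ 1 / T := by
  rw [Real.exp_neg, ← one_div]
  refine one_div_le_one_div_of_le hT ?_
  have := Real.add_one_le_exp y
  linarith

/-- Lower tail: `P(4 q |I| < m) ≤ 2^(m/(4q)) (1 - 1/(2q))^m ≤ exp(- 0.32 m / q)`; see the proof of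
`Pool.Agent.Rey.wt_low`. -/
theorem low2 {m n q l : ℕ} (h : Par2 m n q l) :
    ∑ I ∈ univ.filter (fun I : Finset (Fin m) => ¬ m ≤ 4 * q * I.card), wt (1 / (q : ℝ)) I
      ≤ 1 / (2000 * (q : ℝ)) := by
  obtain ⟨hq, hm, -⟩ := b1_par h
  have hq0 : (0 : ℝ) < q := by linarith
  have ht0 : (0 : ℝ) ≤ 1 / (q : ℝ) := by positivity
  have ht1 : 1 / (q : ℝ) ≤ 1 := by
    rw [div_le_one hq0]; linarith
  set L : ℝ := Real.log 2 with hL
  have hL1 : L < 0.6931471808 := Real.log_two_lt_d9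
  have hL0 : 0.6931471803 < L := Real.log_two_gt_d9
  -- Markov
  have h1 : ∑ I ∈ univ.filter (fun I : Finset (Fin m) => ¬ m ≤ 4 * q * I.card), wt (1 / (q : ℝ)) I
      ≤ ∑ I : Finset (Fin m), Real.exp (L * (m / (4 * q))) *
        (wt (1 / (q : ℝ)) I * ∏ A ∈ I, (1 / 2 : ℝ)) := by
    refine le_trans ?_ (Finset.sum_le_sum_of_subset_of_nonneg (Finset.filter_subset (fun I : Finset (Fin m) => ¬ m ≤ 4 * q * I.card) univ) ?_)
    · refine Finset.sum_le_sum ?_
      intro I hI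
      rw [Finset.mem_filter] at hI
      have hI2 := hI.2
      have hI3 : 4 * q * I.card ≤ m := by omega
      have hI4 : 4 * (q : ℝ) * I.card ≤ m := by exact_mod_cast hI3
      have hw := wt_nonneg ht0 ht1 I
      rw [Finset.prod_const]
      have e : ((1 : ℝ) / 2) ^ I.card = Real.exp (-(L * I.card)) := by
        rw [Real.exp_neg, mul_comm L, Real.exp_nat_mul, hL, Real.exp_log (by norm_num), one_div, inv_pow]
      rw [e]
      have e2 : Real.exp (L * (m / (4 * q))) * (wt (1 / (q : ℝ)) I * Real.exp (-(L * I.card)))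
          = wt (1 / (q : ℝ)) I * Real.exp (L * (m / (4 * q)) + -(L * I.card)) := by
        rw [Real.exp_add]; ring
      rw [e2]
      have h5 : (I.card : ℝ) ≤ m / (4 * q) := by
        rw [le_div_iff₀ (by positivity)]
        linarith
      have h6 : (0 : ℝ) ≤ L * (m / (4 * q)) + -(L * I.card) := by
        have : L * I.card ≤ L * (m / (4 * q)) := mul_le_mul_of_nonneg_left h5 (by linarith)
        linarith
      have h7 := Real.one_le_exp h6
      calc wt (1 / (q : ℝ)) I = wt (1 / (q : ℝ)) I * 1 := by ring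
        _ ≤ _ := mul_le_mul_of_nonneg_left h7 hw
    · intro I _ _
      have hw := wt_nonneg ht0 ht1 I
      have : (0 : ℝ) ≤ ∏ A ∈ I, (1 / 2 : ℝ) := Finset.prod_nonneg (fun _ _ => by norm_num)
      positivity
  refine le_trans h1 ?_
  rw [← Finset.mul_sum, wt_prod]
  rw [Finset.prod_const, Finset.card_univ, Fintype.card_fin]
  have h2 : (1 - 1 / (q : ℝ) + 1 / (q : ℝ) * (1 / 2)) ^ m ≤ Real.exp (-(m / (2 * q))) := by
    have h3 : 1 - 1 / (q : ℝ) + 1 / (q : ℝ) * (1 / 2) ≤ Real.exp (-(1 / (2 * q))) := by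
      have := Real.add_one_le_exp (-(1 / (2 * (q : ℝ))))
      have e : 1 - 1 / (q : ℝ) + 1 / (q : ℝ) * (1 / 2) = -(1 / (2 * (q : ℝ))) + 1 := by
        field_simp
        ring
      rw [e]; exact this
    have h4 : 0 ≤ 1 - 1 / (q : ℝ) + 1 / (q : ℝ) * (1 / 2) := by
      have : (0 : ℝ) ≤ 1 / (q : ℝ) * (1 / 2) := by positivity
      linarith
    calc (1 - 1 / (q : ℝ) + 1 / (q : ℝ) * (1 / 2)) ^ m ≤ (Real.exp (-(1 / (2 * q)))) ^ m :=
          pow_le_pow_left₀ h4 h3 m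
      _ = Real.exp (-(m / (2 * q))) := by
          rw [← Real.exp_nat_mul]
          congr 1
          ring
  have h3 : Real.exp (L * (m / (4 * q))) * (1 - 1 / (q : ℝ) + 1 / (q : ℝ) * (1 / 2)) ^ m
      ≤ Real.exp (-(m / q * (1 / 2 - L / 4))) := by
    refine le_trans (mul_le_mul_of_nonneg_left h2 (Real.exp_pos _).le) ?_
    rw [← Real.exp_add]
    refine le_of_eq ?_
    congr 1
    field_simp
    ring
  refine le_trans h3 (b1_exp (by positivity) ?_)
  have h5 : (10 : ℝ) ^ 17 * (q : ℝ) ^ 2 ≤ m / q := by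
    rw [le_div_iff₀ hq0]
    calc (10 : ℝ) ^ 17 * (q : ℝ) ^ 2 * (q : ℝ) = 10 ^ 17 * (q : ℝ) ^ 3 := by ring
      _ ≤ (m : ℝ) := hm
  have h8 : (0.3 : ℝ) ≤ 1 / 2 - L / 4 := by linarith
  have h9 : (q : ℝ) ≤ (q : ℝ) ^ 2 := by nlinarith
  have h10 : (0 : ℝ) ≤ (m : ℝ) / q := by positivity
  calc 2000 * (q : ℝ) ≤ (10 : ℝ) ^ 17 * (q : ℝ) ^ 2 * 0.3 := by linarith
    _ ≤ (m : ℝ) / q * 0.3 := by linarith
    _ ≤ (m : ℝ) / q * (1 / 2 - L / 4) := mul_le_mul_of_nonneg_left h8 h10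

/-- Upper tail: `P(|I| > n/2) ≤ 2^(-n/2) (1 + 1/q)^m ≤ exp(- 0.22 n)`, `n ≥ 8 m / q`; see the proof
of `Pool.Agent.Rey.wt_high`. -/
theorem high2 {m n q l : ℕ} (h : Par2 m n q l) :
    ∑ I ∈ univ.filter (fun I : Finset (Fin m) => ¬ 2 * I.card ≤ n), wt (1 / (q : ℝ)) I
      ≤ 1 / (2000 * (q : ℝ)) := by
  obtain ⟨hq, hm, hn⟩ := b1_par h
  have hq0 : (0 : ℝ) < q := by linarith
  have ht0 : (0 : ℝ) ≤ 1 / (q : ℝ) := by positivity
  have ht1 : 1 / (q : ℝ) ≤ 1 := by
    rw [div_le_one hq0]; linarith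
  set L : ℝ := Real.log 2 with hL
  have hL1 : L < 0.6931471808 := Real.log_two_lt_d9
  have hL0 : 0.6931471803 < L := Real.log_two_gt_d9
  have h1 : ∑ I ∈ univ.filter (fun I : Finset (Fin m) => ¬ 2 * I.card ≤ n), wt (1 / (q : ℝ)) I
      ≤ ∑ I : Finset (Fin m), Real.exp (-(L * (n / 2))) *
        (wt (1 / (q : ℝ)) I * ∏ A ∈ I, (2 : ℝ)) := by
    refine le_trans ?_ (Finset.sum_le_sum_of_subset_of_nonneg (Finset.filter_subset (fun I : Finset (Fin m) => ¬ 2 * I.card ≤ n) univ) ?_)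
    · refine Finset.sum_le_sum ?_
      intro I hI
      rw [Finset.mem_filter] at hI
      have hI2 := hI.2
      have hI3 : n ≤ 2 * I.card := by omega
      have hI4 : (n : ℝ) ≤ 2 * I.card := by exact_mod_cast hI3
      have hw := wt_nonneg ht0 ht1 I
      rw [Finset.prod_const]
      have e : (2 : ℝ) ^ I.card = Real.exp (L * I.card) := by
        rw [mul_comm L, Real.exp_nat_mul, hL, Real.exp_log (by norm_num)]
      rw [e]
      have e2 : Real.exp (-(L * (n / 2))) * (wt (1 / (q : ℝ)) I * Real.exp (L * I.card))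
          = wt (1 / (q : ℝ)) I * Real.exp (-(L * (n / 2)) + L * I.card) := by
        rw [Real.exp_add]; ring
      rw [e2]
      have h6 : (0 : ℝ) ≤ -(L * (n / 2)) + L * I.card := by
        have : L * (n / 2) ≤ L * I.card := mul_le_mul_of_nonneg_left (by linarith) (by linarith)
        linarith
      have h7 := Real.one_le_exp h6
      calc wt (1 / (q : ℝ)) I = wt (1 / (q : ℝ)) I * 1 := by ring
        _ ≤ _ := mul_le_mul_of_nonneg_left h7 hw
    · intro I _ _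
      have hw := wt_nonneg ht0 ht1 I
      have : (0 : ℝ) ≤ ∏ A ∈ I, (2 : ℝ) := Finset.prod_nonneg (fun _ _ => by norm_num)
      positivity
  refine le_trans h1 ?_
  rw [← Finset.mul_sum, wt_prod]
  rw [Finset.prod_const, Finset.card_univ, Fintype.card_fin]
  have h2 : (1 - 1 / (q : ℝ) + 1 / (q : ℝ) * 2) ^ m ≤ Real.exp (m / q) := by
    have h3 : 1 - 1 / (q : ℝ) + 1 / (q : ℝ) * 2 ≤ Real.exp (1 / q) := by
      have := Real.add_one_le_exp (1 / (q : ℝ))
      linarith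
    have h4 : 0 ≤ 1 - 1 / (q : ℝ) + 1 / (q : ℝ) * 2 := by
      linarith
    calc (1 - 1 / (q : ℝ) + 1 / (q : ℝ) * 2) ^ m ≤ (Real.exp (1 / q)) ^ m :=
          pow_le_pow_left₀ h4 h3 m
      _ = Real.exp (m / q) := by
          rw [← Real.exp_nat_mul]
          congr 1
          ring
  have h3 : Real.exp (-(L * (n / 2))) * (1 - 1 / (q : ℝ) + 1 / (q : ℝ) * 2) ^ m
      ≤ Real.exp (-(L * (n / 2) - m / q)) := by
    refine le_trans (mul_le_mul_of_nonneg_left h2 (Real.exp_pos _).le) ?_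
    rw [← Real.exp_add]
    refine le_of_eq ?_
    congr 1
    ring
  refine le_trans h3 (b1_exp (by positivity) ?_)
  have h5 : (10 : ℝ) ^ 17 * (q : ℝ) ^ 2 ≤ m / q := by
    rw [le_div_iff₀ hq0]
    calc (10 : ℝ) ^ 17 * (q : ℝ) ^ 2 * (q : ℝ) = 10 ^ 17 * (q : ℝ) ^ 3 := by ring
      _ ≤ (m : ℝ) := hm
  have h6 : m / (q : ℝ) ≤ n / 8 := by
    rw [div_le_div_iff₀ hq0 (by norm_num)]
    linarith
  have h9 : (q : ℝ) ≤ (q : ℝ) ^ 2 := by nlinarith
  have h10 : (0 : ℝ) ≤ (m : ℝ) / q := by positivity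
  have h11 : (0.34 : ℝ) * n ≤ L * (n / 2) := by
    have : (0 : ℝ) ≤ n := Nat.cast_nonneg n
    nlinarith
  linarith

/-- Numbers: the blocks are long. -/
theorem blk_num {M m n q l : ℕ} (hp : Par2 m n q l) (hM : M + 1 = m) :
    0 < qR q l ∧ 2 * (2 * qE0 q l) ≤ M / qR q l ∧
      2 * Real.exp (- (((M / qR q l : ℕ) : ℝ) / (2 * q))) ≤ 1 / (m : ℝ) ^ 5 := by
  have hq : 8 ≤ q := hp.hq
  have hl : 1 ≤ l := hp.hl1
  have hR : qR q l ≤ 84 * 10 ^ 10 * (q * l ^ 2) := by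
    unfold qR qh qT
    have h1 : 2 * l + 40 ≤ 42 * l := by omega
    calc (2 * l + 40) * (2 * 10 ^ 10 * q * l) ≤ (42 * l) * (2 * 10 ^ 10 * q * l) :=
          Nat.mul_le_mul_right _ h1
      _ = 84 * 10 ^ 10 * (q * l ^ 2) := by ring
  have hR0 : 0 < qR q l := by
    unfold qR qh qT
    exact Nat.mul_pos (by omega) (Nat.mul_pos (Nat.mul_pos (by norm_num) (by omega)) (by omega))
  have hdiv : 10 ^ 5 * (q ^ 2 * l) ≤ M / qR q l := by
    rw [Nat.le_div_iff_mul_le hR0]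
    have h2 : 10 ^ 5 * (q ^ 2 * l) * qR q l ≤ 10 ^ 5 * (q ^ 2 * l) *
        (84 * 10 ^ 10 * (q * l ^ 2)) := Nat.mul_le_mul_left _ hR
    have h3 : 10 ^ 5 * (q ^ 2 * l) * (84 * 10 ^ 10 * (q * l ^ 2)) + 1 ≤
        10 ^ 17 * q ^ 3 * l ^ 3 := by
      have h4 : 1 ≤ q ^ 3 * l ^ 3 := Nat.mul_pos (pow_pos (by omega) 3) (pow_pos (by omega) 3)
      have e1 : 10 ^ 5 * (q ^ 2 * l) * (84 * 10 ^ 10 * (q * l ^ 2)) =
        84 * 10 ^ 15 * (q ^ 3 * l ^ 3) := by ring
      have e2 : 10 ^ 17 * q ^ 3 * l ^ 3 = 10 ^ 17 * (q ^ 3 * l ^ 3) := by ring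
      omega
    have h5 := hp.hP
    omega
  refine ⟨hR0, ?_, ?_⟩
  · refine le_trans ?_ hdiv
    unfold qE0
    have h6 : q * l ≤ q ^ 2 * l := Nat.mul_le_mul_right _ (by nlinarith)
    calc 2 * (2 * (5 * q * l)) = 20 * (q * l) := by ring
      _ ≤ 10 ^ 5 * (q ^ 2 * l) := by omega
  · have hm0 : (0 : ℝ) < m := by
      have : 0 < m := by omega
      exact_mod_cast this
    have hqr : (8 : ℝ) ≤ q := by exact_mod_cast hq
    have hlr : (1 : ℝ) ≤ l := by exact_mod_cast hl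
    have hx : 5 * Real.log m + Real.log 2 ≤ ((M / qR q l : ℕ) : ℝ) / (2 * q) := by
      have h6 : Real.log 2 ≤ 1 := by linarith [Real.log_two_lt_d9]
      have h7 : (10 : ℝ) ^ 5 * ((q : ℝ) ^ 2 * l) ≤ ((M / qR q l : ℕ) : ℝ) := by
        exact_mod_cast hdiv
      rw [le_div_iff₀ (by positivity)]
      have h8 := hp.hl
      have h9 : 5 * Real.log m + Real.log 2 ≤ 6 * (l : ℝ) := by linarith
      have h10 : (0 : ℝ) ≤ (q : ℝ) * l := by positivity
      have h11 : (q : ℝ) * l ≤ (q : ℝ) ^ 2 * l := by nlinarith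
      calc (5 * Real.log m + Real.log 2) * (2 * q) ≤ 6 * (l : ℝ) * (2 * q) :=
            mul_le_mul_of_nonneg_right h9 (by positivity)
        _ = 12 * ((q : ℝ) * l) := by ring
        _ ≤ (10 : ℝ) ^ 5 * ((q : ℝ) ^ 2 * l) := by linarith
        _ ≤ _ := h7
    have h12 : Real.exp (5 * Real.log m + Real.log 2) = (m : ℝ) ^ 5 * 2 := by
      rw [Real.exp_add, Real.exp_log (by norm_num : (0 : ℝ) < 2)]
      congr 1
      have h13 : (5 : ℝ) * Real.log m = ((5 : ℕ) : ℝ) * Real.log m := by norm_num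
      rw [h13, Real.exp_nat_mul, Real.exp_log hm0]
    have h14 : Real.exp (-(((M / qR q l : ℕ) : ℝ) / (2 * q))) ≤ ((m : ℝ) ^ 5 * 2)⁻¹ := by
      rw [← h12, ← Real.exp_neg]
      exact Real.exp_le_exp.2 (neg_le_neg hx)
    calc 2 * Real.exp (-(((M / qR q l : ℕ) : ℝ) / (2 * q))) ≤ 2 * ((m : ℝ) ^ 5 * 2)⁻¹ :=
          mul_le_mul_of_nonneg_left h14 (by norm_num)
      _ = 1 / (m : ℝ) ^ 5 := by
          field_simp

/-- Every block `r` contains at least `M / R - 2 E0` once used points. -/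
theorem blk_once {M m R E0 : ℕ} (κ : Fin M → Fin m) (hM : M + 1 = m) (hR : 0 < R)
    (he : (mis κ).card ≤ E0) (r : Fin R) :
    M / R ≤ (univ.filter (fun a : Fin M => (a : ℕ) % R = (r : ℕ) ∧ cnt κ (κ a) = 1)).card
      + 2 * E0 := by
  have h1 : M / R ≤ (univ.filter (fun a : Fin M => (a : ℕ) % R = (r : ℕ))).card := by
    have hlt : ∀ i : Fin (M / R), (r : ℕ) + R * (i : ℕ) < M := by
      intro i
      have h2 : R * ((i : ℕ) + 1) ≤ R * (M / R) := Nat.mul_le_mul_left _ i.2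
      have h3 : R * (M / R) ≤ M := Nat.mul_div_le M R
      have h4 := r.2
      have h5 : R * ((i : ℕ) + 1) = R * (i : ℕ) + R := by ring
      omega
    have h2 := Finset.card_le_card_of_injOn
      (s := (univ : Finset (Fin (M / R))))
      (t := univ.filter (fun a : Fin M => (a : ℕ) % R = (r : ℕ)))
      (fun i => (⟨(r : ℕ) + R * (i : ℕ), hlt i⟩ : Fin M)) ?_ ?_
    · rwa [Finset.card_univ, Fintype.card_fin] at h2
    · intro i _
      refine mem_coe.2 (mem_filter.2 ⟨mem_univ _, ?_⟩)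
      show ((r : ℕ) + R * (i : ℕ)) % R = (r : ℕ)
      rw [Nat.add_mul_mod_self_left]
      exact Nat.mod_eq_of_lt r.2
    · intro i _ j _ hij
      have h3 : (r : ℕ) + R * (i : ℕ) = (r : ℕ) + R * (j : ℕ) := congrArg Fin.val hij
      exact Fin.ext (Nat.eq_of_mul_eq_mul_left hR (by omega))
  have h2 : (univ.filter (fun a : Fin M => (a : ℕ) % R = (r : ℕ))).card ≤
      (univ.filter (fun a : Fin M => (a : ℕ) % R = (r : ℕ) ∧ cnt κ (κ a) = 1)).card +
      (univ.filter (fun a : Fin M => cnt κ (κ a) ≠ 1)).card := by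
    refine le_trans (Finset.card_le_card ?_) (Finset.card_union_le _ _)
    intro a ha
    have h3 := (mem_filter.1 ha).2
    by_cases h4 : cnt κ (κ a) = 1
    · exact mem_union_left _ (mem_filter.2 ⟨mem_univ _, h3, h4⟩)
    · exact mem_union_right _ (mem_filter.2 ⟨mem_univ _, h4⟩)
  have h3 := multi_le κ hM
  omega

/-- The colours of the once used points of a block are distinct: the probability that none of them
is in `I`. -/
theorem blk_miss {M m R : ℕ} (κ : Fin M → Fin m) {τ : ℝ} (h0 : 0 ≤ τ) (h1 : τ ≤ 1) (r : Fin R) :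
    ∑ I ∈ univ.filter (fun I : Finset (Fin m) => r ∉ gb R κ I), wt τ I
      = (1 - τ) ^ (univ.filter (fun a : Fin M => (a : ℕ) % R = (r : ℕ) ∧
          cnt κ (κ a) = 1)).card := by
  set B := univ.filter (fun a : Fin M => (a : ℕ) % R = (r : ℕ) ∧ cnt κ (κ a) = 1) with hB
  have hinj : Set.InjOn κ (B : Set (Fin M)) := by
    intro a ha a' ha' h
    have ha1 := (mem_filter.1 (mem_coe.1 ha)).2.2
    have h2 : a ∈ univ.filter (fun x => κ x = κ a) := mem_filter.2 ⟨mem_univ _, rfl⟩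
    have h3 : a' ∈ univ.filter (fun x => κ x = κ a) := mem_filter.2 ⟨mem_univ _, h.symm⟩
    exact card_le_one.1 (le_of_eq ha1) _ h2 _ h3
  have hcard : (B.image κ).card = B.card := card_image_of_injOn hinj
  rw [← hcard, ← wt_miss τ (B.image κ)]
  apply Finset.sum_congr _ (fun _ _ => rfl)
  ext I
  simp only [mem_filter, mem_univ, true_and, gb, mem_image, hB]
  constructor
  · rintro h A ⟨a, ⟨ha1, ha2⟩, rfl⟩ hAI
    exact h ⟨a, ha1, hAI, ha2⟩
  · rintro h ⟨a, ha1, hAI, ha2⟩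
    exact h (κ a) ⟨a, ⟨ha1, ha2⟩, rfl⟩ hAI

/-- Few missing colours: Markov for the number of blocks missed by `I`. -/
theorem nl_small {D M m n q l : ℕ} (hp : Par2 m n q l) (hM : M + 1 = m)
    (c : Fin D → Fin M → Fin m) (k : Fin D) (he : (mis (c k)).card ≤ qE0 q l) :
    ∑ I ∈ univ.filter (fun I : Finset (Fin m) => 2 * (gb (qR q l) (c k) I).card < qR q l),
      wt (1 / (q : ℝ)) I ≤ 1 / (m : ℝ) ^ 5 := by
  obtain ⟨hR0, hE, hnum⟩ := blk_num hp hM
  have hq8 : (8 : ℝ) ≤ q := by exact_mod_cast hp.hq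
  have hq0 : (0 : ℝ) < q := by linarith
  have ht0 : (0 : ℝ) ≤ 1 / (q : ℝ) := by positivity
  have ht1 : 1 / (q : ℝ) ≤ 1 := by
    rw [div_le_one hq0]
    linarith
  revert hR0 hE hnum
  generalize qR q l = R
  intro hR0 hE hnum
  have hRr : (0 : ℝ) < R := by exact_mod_cast hR0
  have hone : ∀ r : Fin R,
      ∑ I ∈ univ.filter (fun I : Finset (Fin m) => r ∉ gb R (c k) I), wt (1 / (q : ℝ)) I ≤
        Real.exp (-(((M / R : ℕ) : ℝ) / (2 * q))) := by
    intro r
    rw [blk_miss (c k) ht0 ht1 r]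
    have h1 := blk_once (c k) hM hR0 he r
    generalize (univ.filter (fun a : Fin M => (a : ℕ) % R = (r : ℕ) ∧
      cnt (c k) (c k a) = 1)).card = N at h1
    have h2 : M / R ≤ 2 * N := by omega
    have h3 : ((M / R : ℕ) : ℝ) ≤ 2 * N := by exact_mod_cast h2
    have h4 : 1 - 1 / (q : ℝ) ≤ Real.exp (-(1 / (q : ℝ))) := by
      have := Real.add_one_le_exp (-(1 / (q : ℝ)))
      linarith
    calc (1 - 1 / (q : ℝ)) ^ N ≤ (Real.exp (-(1 / (q : ℝ)))) ^ N :=
          pow_le_pow_left₀ (by linarith) h4 N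
      _ = Real.exp (N * (-(1 / (q : ℝ)))) := by rw [← Real.exp_nat_mul]
      _ ≤ Real.exp (-(((M / R : ℕ) : ℝ) / (2 * q))) := by
          refine Real.exp_le_exp.2 ?_
          have h5 : ((M / R : ℕ) : ℝ) / (2 * q) ≤ N / q := by
            rw [div_le_div_iff₀ (by positivity) hq0]
            nlinarith
          have h6 : (N : ℝ) * (-(1 / (q : ℝ))) = -(N / q) := by ring
          rw [h6]
          linarith
  have hmark : ∀ I ∈ univ.filter (fun I : Finset (Fin m) => 2 * (gb R (c k) I).card < R),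
      wt (1 / (q : ℝ)) I ≤ ∑ r : Fin R, (2 / (R : ℝ)) *
        (if r ∉ gb R (c k) I then wt (1 / (q : ℝ)) I else 0) := by
    intro I hI
    have h1 := (mem_filter.1 hI).2
    have hw := wt_nonneg ht0 ht1 I
    have h2 : (univ.filter (fun r : Fin R => r ∉ gb R (c k) I)).card +
        (gb R (c k) I).card = R := by
      have h3 := Finset.card_filter_add_card_filter_not
        (s := (univ : Finset (Fin R))) (fun r : Fin R => r ∉ gb R (c k) I)
      rw [Finset.card_univ, Fintype.card_fin] at h3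
      have h4 : univ.filter (fun r : Fin R => ¬ r ∉ gb R (c k) I) = gb R (c k) I := by
        ext r
        simp
      rw [h4] at h3
      exact h3
    rw [← Finset.mul_sum, ← Finset.sum_filter, Finset.sum_const, nsmul_eq_mul]
    have h5 : R ≤ 2 * (univ.filter (fun r : Fin R => r ∉ gb R (c k) I)).card := by omega
    have h6 : (R : ℝ) ≤ 2 * ((univ.filter (fun r : Fin R => r ∉ gb R (c k) I)).card : ℝ) := by
      exact_mod_cast h5
    have h7 : 1 ≤ 2 / (R : ℝ) * ((univ.filter (fun r : Fin R => r ∉ gb R (c k) I)).card : ℝ) := by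
      rw [div_mul_eq_mul_div, le_div_iff₀ hRr]
      linarith
    calc wt (1 / (q : ℝ)) I = 1 * wt (1 / (q : ℝ)) I := (one_mul _).symm
      _ ≤ (2 / (R : ℝ) * ((univ.filter (fun r : Fin R => r ∉ gb R (c k) I)).card : ℝ)) *
          wt (1 / (q : ℝ)) I := mul_le_mul_of_nonneg_right h7 hw
      _ = _ := by ring
  calc ∑ I ∈ univ.filter (fun I : Finset (Fin m) => 2 * (gb R (c k) I).card < R),
        wt (1 / (q : ℝ)) I
      ≤ ∑ I ∈ univ.filter (fun I : Finset (Fin m) => 2 * (gb R (c k) I).card < R),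
          ∑ r : Fin R, (2 / (R : ℝ)) *
            (if r ∉ gb R (c k) I then wt (1 / (q : ℝ)) I else 0) := Finset.sum_le_sum hmark
    _ ≤ ∑ I : Finset (Fin m), ∑ r : Fin R, (2 / (R : ℝ)) *
            (if r ∉ gb R (c k) I then wt (1 / (q : ℝ)) I else 0) := by
        refine Finset.sum_le_sum_of_subset_of_nonneg (Finset.filter_subset _ _) ?_
        intro I _ _
        refine Finset.sum_nonneg (fun r _ => mul_nonneg (by positivity) ?_)
        by_cases hr : r ∉ gb R (c k) I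
        · rw [if_pos hr]
          exact wt_nonneg ht0 ht1 I
        · rw [if_neg hr]
    _ = ∑ r : Fin R, (2 / (R : ℝ)) *
          ∑ I ∈ univ.filter (fun I : Finset (Fin m) => r ∉ gb R (c k) I), wt (1 / (q : ℝ)) I := by
        rw [Finset.sum_comm]
        refine Finset.sum_congr rfl (fun r _ => ?_)
        rw [← Finset.mul_sum, Finset.sum_filter]
    _ ≤ ∑ _r : Fin R, (2 / (R : ℝ)) * Real.exp (-(((M / R : ℕ) : ℝ) / (2 * q))) :=
        Finset.sum_le_sum (fun r _ => mul_le_mul_of_nonneg_left (hone r) (by positivity))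
    _ = 2 * Real.exp (-(((M / R : ℕ) : ℝ) / (2 * q))) := by
        rw [Finset.sum_const, Finset.card_univ, Fintype.card_fin, nsmul_eq_mul]
        field_simp
    _ ≤ 1 / (m : ℝ) ^ 5 := hnum

/-- Many missing colours: `(1 - 1/q)^(5 q l) ≤ exp(-5 l) ≤ m^(-5)`. -/
theorem nl_big {D M m n q l : ℕ} (hp : Par2 m n q l) (c : Fin D → Fin M → Fin m) (k : Fin D)
    (he : qE0 q l < (mis (c k)).card) :
    ∑ I ∈ univ.filter (fun I : Finset (Fin m) => ∀ A ∈ mis (c k), A ∉ I),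
      wt (1 / (q : ℝ)) I ≤ 1 / (m : ℝ) ^ 5 := by
  have hq8 : (8 : ℝ) ≤ q := by exact_mod_cast hp.hq
  have hq0 : (0 : ℝ) < q := by linarith
  have hlr : (1 : ℝ) ≤ l := by exact_mod_cast hp.hl1
  have hm0 : (0 : ℝ) < m := by
    have h1 : 0 < m := lt_of_lt_of_le (Nat.mul_pos (Nat.mul_pos (by norm_num)
      (pow_pos (lt_of_lt_of_le (by norm_num) hp.hq) 3)) (pow_pos hp.hl1 3)) hp.hP
    exact_mod_cast h1
  rw [wt_miss]
  have h4 : 1 - 1 / (q : ℝ) ≤ Real.exp (-(1 / (q : ℝ))) := by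
    have := Real.add_one_le_exp (-(1 / (q : ℝ)))
    linarith
  have ht1 : 1 / (q : ℝ) ≤ 1 := by
    rw [div_le_one hq0]
    linarith
  have h5 : (5 : ℝ) * q * l ≤ ((mis (c k)).card : ℝ) := by
    have h6 : 5 * q * l ≤ (mis (c k)).card := he.le
    exact_mod_cast h6
  calc (1 - 1 / (q : ℝ)) ^ (mis (c k)).card ≤ (Real.exp (-(1 / (q : ℝ)))) ^ (mis (c k)).card :=
        pow_le_pow_left₀ (by linarith) h4 _
    _ = Real.exp ((mis (c k)).card * (-(1 / (q : ℝ)))) := by rw [← Real.exp_nat_mul]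
    _ ≤ Real.exp (-(((5 : ℕ) : ℝ) * Real.log m)) := by
        refine Real.exp_le_exp.2 ?_
        have h7 : 5 * (l : ℝ) ≤ (mis (c k)).card / (q : ℝ) := by
          rw [le_div_iff₀ hq0]
          linarith
        have h8 : ((mis (c k)).card : ℝ) * (-(1 / (q : ℝ))) = -((mis (c k)).card / (q : ℝ)) := by
          ring
        rw [h8]
        have h9 := hp.hl
        have h10 : (((5 : ℕ) : ℝ)) * Real.log m ≤ 5 * (l : ℝ) := by
          push_cast
          linarith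
        linarith
    _ = 1 / (m : ℝ) ^ 5 := by
        rw [Real.exp_neg, Real.exp_nat_mul, Real.exp_log hm0, one_div]

theorem tau_mem {m n q l : ℕ} (hp : Par2 m n q l) : 0 < 1 / (q : ℝ) ∧ 1 / (q : ℝ) ≤ 1 := by
  have hq8 : (8 : ℝ) ≤ q := by exact_mod_cast hp.hq
  refine ⟨by positivity, ?_⟩
  rw [div_le_one (by linarith)]
  linarith

theorem wq_nonneg {m n q l : ℕ} (hp : Par2 m n q l) (I : Finset (Fin m)) :
    0 ≤ wt (1 / (q : ℝ)) I :=
  wt_nonneg (tau_mem hp).1.le (tau_mem hp).2 I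

/-- `P(NL_k) ≤ m^(-5)`. -/
theorem nl_prob {D M m n q l : ℕ} (hp : Par2 m n q l) (hM : M + 1 = m)
    (c : Fin D → Fin M → Fin m) (k : Fin D) :
    ∑ I ∈ univ.filter (fun I : Finset (Fin m) => NL (qR q l) (qE0 q l) c k I),
      wt (1 / (q : ℝ)) I ≤ 1 / (m : ℝ) ^ 5 := by
  by_cases he : qE0 q l < (mis (c k)).card
  · refine le_trans (Finset.sum_le_sum_of_subset_of_nonneg ?_ (fun I _ _ => wq_nonneg hp I))
      (nl_big hp c k he)
    intro I hI
    simp only [mem_filter, mem_univ, true_and] at hI ⊢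
    exact hI.1
  · refine le_trans (Finset.sum_le_sum_of_subset_of_nonneg ?_ (fun I _ _ => wq_nonneg hp I))
      (nl_small hp hM c k (not_lt.mp he))
    intro I hI
    simp only [mem_filter, mem_univ, true_and] at hI ⊢
    exact hI.2.resolve_left he

end Pool.Agent.Rez
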