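import Mathlib
import Pool.Agent.Rez.Nl

set_option autoImplicit false

namespace Pool.Agent.Rez

open Finset
open Pool.Agent.Rey
open scoped Classical

/-- The set of triples (cluster, colour, block) coming from heads of the colours of `I` in the
clusters with few missing colours. -/
noncomputable def HH2 {D M m : ℕ} (R E0 : ℕ) (c : Fin D → Fin M → Fin m) (I : Finset (Fin m)) :
    Finset (Fin D × Fin m × Fin R) :=
  univ.filter (fun x => (mis (c x.1)).card ≤ E0 ∧ x.2.1 ∈ I ∧
    ∃ a ∈ hd R (c x.1) I, c x.1 a = x.2.1 ∧ (a : ℕ) % R = (x.2.2 : ℕ))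

/-- In one cluster the heads of colours of `I`: at most one once used head per block (two once used
points of colours of `I` in the same block: the lower one is no head), and at most `2 E0` points
are repeated (`multi_le`). -/
theorem heads_card {M m R E0 : ℕ} (κ : Fin M → Fin m) (hM : M + 1 = m) (hR : 0 < R)
    (he : (mis κ).card ≤ E0) (I : Finset (Fin m)) :
    ((hd R κ I).filter (fun a => κ a ∈ I)).card ≤ R + 2 * E0 := by
  have h1 : ((hd R κ I).filter (fun a => κ a ∈ I)).card ≤
      (((hd R κ I).filter (fun a => κ a ∈ I)).filter (fun a => cnt κ (κ a) = 1)).card +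
      (univ.filter (fun a : Fin M => cnt κ (κ a) ≠ 1)).card := by
    refine le_trans (Finset.card_le_card ?_) (Finset.card_union_le _ _)
    intro a ha
    by_cases h4 : cnt κ (κ a) = 1
    · exact mem_union_left _ (mem_filter.2 ⟨ha, h4⟩)
    · exact mem_union_right _ (mem_filter.2 ⟨mem_univ _, h4⟩)
  have h2 : (((hd R κ I).filter (fun a => κ a ∈ I)).filter (fun a => cnt κ (κ a) = 1)).card ≤
      R := by
    have h3 := Finset.card_le_card_of_injOn
      (s := ((hd R κ I).filter (fun a => κ a ∈ I)).filter (fun a => cnt κ (κ a) = 1))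
      (t := range R) (fun a : Fin M => (a : ℕ) % R) ?_ ?_
    · rwa [Finset.card_range] at h3
    · intro a _
      exact mem_coe.2 (mem_range.2 (Nat.mod_lt _ hR))
    · intro a ha a' ha' haa
      have haa' : (a : ℕ) % R = (a' : ℕ) % R := haa
      have ha1 := mem_filter.1 (mem_coe.1 ha)
      have ha2 := mem_filter.1 ha1.1
      have ha3 := (mem_filter.1 ha2.1).2
      have hb1 := mem_filter.1 (mem_coe.1 ha')
      have hb2 := mem_filter.1 hb1.1
      have hb3 := (mem_filter.1 hb2.1).2
      have h4 : ¬ (a : ℕ) / R < (a' : ℕ) / R := fun h => ha3 a' haa'.symm h hb2.2 hb1.2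
      have h5 : ¬ (a' : ℕ) / R < (a : ℕ) / R := fun h => hb3 a haa' h ha2.2 ha1.2
      have h6 : (a : ℕ) / R = (a' : ℕ) / R := by omega
      have h7 := Nat.div_add_mod (a : ℕ) R
      have h8 := Nat.div_add_mod (a' : ℕ) R
      apply Fin.ext
      rw [← h7, ← h8, h6, haa']
  have h3 := multi_le κ hM
  omega

/-- `HH2` has at most `D (R + 2 E0)` elements: for fixed `k` the triple is determined by the head. -/
theorem HH2_card {D M m R E0 : ℕ} (c : Fin D → Fin M → Fin m) (hM : M + 1 = m) (hR : 0 < R)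
    (I : Finset (Fin m)) : (HH2 R E0 c I).card ≤ D * (R + 2 * E0) := by
  have h1 : HH2 R E0 c I ⊆ (univ.filter (fun k : Fin D => (mis (c k)).card ≤ E0)).biUnion
      (fun k => ((hd R (c k) I).filter (fun a => c k a ∈ I)).image
        (fun a : Fin M => (k, c k a, (⟨(a : ℕ) % R, Nat.mod_lt _ hR⟩ : Fin R)))) := by
    rintro ⟨k, β, r⟩ hx
    obtain ⟨h2, h3, a, h4, h5, h6⟩ := (mem_filter.1 hx).2
    simp only at h2 h3 h4 h5 h6
    refine mem_biUnion.2 ⟨k, mem_filter.2 ⟨mem_univ _, h2⟩, mem_image.2 ⟨a, mem_filter.2 ⟨h4, ?_⟩,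
      ?_⟩⟩
    · rw [h5]
      exact h3
    · rw [h5]
      have h7 : (⟨(a : ℕ) % R, Nat.mod_lt _ hR⟩ : Fin R) = r := Fin.ext h6
      rw [h7]
  refine (Finset.card_le_card h1).trans (Finset.card_biUnion_le.trans ?_)
  refine (Finset.sum_le_card_nsmul _ _ (R + 2 * E0) (fun k hk => ?_)).trans ?_
  · exact Finset.card_image_le.trans (heads_card (c k) hM hR (mem_filter.1 hk).2 I)
  · rw [smul_eq_mul]
    refine Nat.mul_le_mul_right _ ?_
    have h2 := Finset.card_filter_le (univ : Finset (Fin D)) (fun k => (mis (c k)).card ≤ E0)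
    rwa [Finset.card_univ, Fintype.card_fin] at h2

theorem HH2_hb {D M m R E0 : ℕ} (c : Fin D → Fin M → Fin m) (I : Finset (Fin m)) (k : Fin D)
    (β : Fin m) : (hb (HH2 R E0 c I) k β).card ≤ cnt (c k) β ∧
      (E0 < (mis (c k)).card → (hb (HH2 R E0 c I) k β).card = 0) := by
  refine ⟨?_, ?_⟩
  · rcases (hb (HH2 R E0 c I) k β).eq_empty_or_nonempty with he | ⟨r0, hr0⟩
    · rw [he, card_empty]
      exact Nat.zero_le _
    have hex : ∀ r ∈ hb (HH2 R E0 c I) k β, ∃ a : Fin M, c k a = β ∧ (a : ℕ) % R = (r : ℕ) := by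
      intro r hr
      simp only [hb, HH2, mem_filter, mem_univ, true_and] at hr
      obtain ⟨-, -, a, -, h1, h2⟩ := hr
      exact ⟨a, h1, h2⟩
    obtain ⟨a1, -, -⟩ := hex r0 hr0
    have hex2 : ∀ r : Fin R, ∃ a : Fin M, r ∈ hb (HH2 R E0 c I) k β →
        c k a = β ∧ (a : ℕ) % R = (r : ℕ) := by
      intro r
      by_cases hr : r ∈ hb (HH2 R E0 c I) k β
      · obtain ⟨a, ha⟩ := hex r hr
        exact ⟨a, fun _ => ha⟩
      · exact ⟨a1, fun h => absurd h hr⟩
    choose g hg using hex2
    unfold cnt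
    apply card_le_card_of_injOn g
    · intro r hr
      exact mem_coe.2 (mem_filter.2 ⟨mem_univ _, (hg r (mem_coe.1 hr)).1⟩)
    · intro r hr r' hr' h
      have h1 := (hg r (mem_coe.1 hr)).2
      have h2 := (hg r' (mem_coe.1 hr')).2
      apply Fin.ext
      rw [← h1, ← h2, h]
  · intro he
    rw [card_eq_zero, eq_empty_iff_forall_notMem]
    intro r hr
    simp only [hb, HH2, mem_filter, mem_univ, true_and] at hr
    omega

/-- `hb ≤ cnt ≤ mis ≤ E0` (`cnt_le`), or the set is empty. -/
theorem HH2_deg {D M m R E0 : ℕ} (c : Fin D → Fin M → Fin m) (hM : M + 1 = m)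
    (I : Finset (Fin m)) (k : Fin D) (β : Fin m) : (hb (HH2 R E0 c I) k β).card ≤ E0 := by
  obtain ⟨h1, h2⟩ := HH2_hb (R := R) (E0 := E0) c I k β
  by_cases he : E0 < (mis (c k)).card
  · rw [h2 he]
    exact Nat.zero_le _
  · exact h1.trans ((cnt_le (c k) hM β).trans (not_lt.mp he))

/-- The repeated heads of a colour are bounded by `UU`. -/
theorem HH2_UU {D M m R E0 : ℕ} (c : Fin D → Fin M → Fin m) (I : Finset (Fin m)) (β : Fin m) :
    (∑ k, if 2 ≤ (hb (HH2 R E0 c I) k β).card then (hb (HH2 R E0 c I) k β).card else 0)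
      ≤ UU E0 c β := by
  unfold UU
  rw [← Finset.sum_filter]
  refine (Finset.sum_le_sum (f := fun k => (hb (HH2 R E0 c I) k β).card)
    (g := fun k => cnt (c k) β) (fun k _ => (HH2_hb c I k β).1)).trans ?_
  apply Finset.sum_le_sum_of_subset
  intro k hk
  rw [mem_filter] at hk ⊢
  obtain ⟨h1, h2⟩ := HH2_hb (R := R) (E0 := E0) c I k β
  refine ⟨mem_univ _, ?_, hk.2.trans h1⟩
  by_contra hcon
  rw [h2 (not_le.mp hcon)] at hk
  omega

/-- The condition of Lemma A: `J` consists of full colour classes of efficient colours. -/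
theorem eff_cond {D M m R T E0 : ℕ} (c : Fin D → Fin M → Fin m) (b : Fin D → Fin m)
    (I : Finset (Fin m)) :
    2 * 10 ^ 7 * (∑ β ∈ (JJ T E0 c b I).image b, ∑ k,
      if 2 ≤ (hb (HH2 R E0 c I) k β).card then (hb (HH2 R E0 c I) k β).card else 0)
      ≤ T * (JJ T E0 c b I).card := by
  rw [Finset.card_eq_sum_card_image b (JJ T E0 c b I), Finset.mul_sum, Finset.mul_sum]
  refine Finset.sum_le_sum (fun β hβ => ?_)
  obtain ⟨j, hj, rfl⟩ := mem_image.1 hβ
  obtain ⟨h1, h2⟩ := (mem_filter.1 hj).2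
  have h3 := HH2_UU (R := R) (E0 := E0) c I (b j)
  have h4 : (univ.filter (fun j' => b j' = b j)).card ≤
      ((JJ T E0 c b I).filter (fun j' => b j' = b j)).card := by
    refine Finset.card_le_card ?_
    intro j' hj'
    have h5 : b j' = b j := (mem_filter.1 hj').2
    refine mem_filter.2 ⟨mem_filter.2 ⟨mem_univ _, ?_, ?_⟩, h5⟩
    · rw [h5]
      exact h1
    · rw [h5]
      exact h2
  exact (Nat.mul_le_mul_left _ h3).trans (h1.trans (Nat.mul_le_mul_left _ h4))

private theorem d6_one {M m E0 : ℕ} (κ : Fin M → Fin m) (hM : M + 1 = m) :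
    ∑ β, (if (mis κ).card ≤ E0 ∧ 2 ≤ cnt κ β then cnt κ β else 0) ≤ 2 * E0 := by
  by_cases he : (mis κ).card ≤ E0
  · have h1 := Finset.card_eq_sum_card_fiberwise
      (s := univ.filter (fun a : Fin M => cnt κ (κ a) ≠ 1))
      (t := (univ : Finset (Fin m))) (f := κ) (fun _ _ => Finset.mem_coe.2 (mem_univ _))
    have h2 : ∑ β, (if (mis κ).card ≤ E0 ∧ 2 ≤ cnt κ β then cnt κ β else 0) ≤
        ∑ β ∈ (univ : Finset (Fin m)),
          ((univ.filter (fun a : Fin M => cnt κ (κ a) ≠ 1)).filter (fun a => κ a = β)).card := by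
      refine Finset.sum_le_sum (fun β _ => ?_)
      split_ifs with h
      · refine Finset.card_le_card ?_
        intro a ha
        have ha' : κ a = β := (mem_filter.1 ha).2
        refine mem_filter.2 ⟨mem_filter.2 ⟨mem_univ _, ?_⟩, ha'⟩
        rw [ha']
        have := h.2
        omega
      · exact Nat.zero_le _
    have h3 := multi_le κ hM
    omega
  · refine le_trans (le_of_eq (Finset.sum_eq_zero (fun β _ => if_neg (fun h => he h.1)))) ?_
    exact Nat.zero_le _

/-- `sum over β of UU β ≤ 2 E0 D` (`multi_le`). -/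
theorem UU_sum {D M m E0 : ℕ} (c : Fin D → Fin M → Fin m) (hM : M + 1 = m) :
    ∑ β, UU E0 c β ≤ 2 * E0 * D := by
  unfold UU
  simp only [Finset.sum_filter]
  rw [Finset.sum_comm]
  refine (Finset.sum_le_card_nsmul _ _ (2 * E0) (fun k _ => d6_one (c k) hM)).trans ?_
  rw [Finset.card_univ, Fintype.card_fin, smul_eq_mul, Nat.mul_comm]

/-- Few rows have an inefficient colour. -/
theorem ineff_rows {D M m n q l : ℕ} (hp : Par2 m n q l) (hM : M + 1 = m)
    (c : Fin D → Fin M → Fin m) (b : Fin D → Fin m) :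
    100 * (univ.filter (fun j => ¬ eff (qT q l) (qE0 q l) c b (b j))).card ≤ D := by
  have h0 : 0 < q * l := Nat.mul_pos (lt_of_lt_of_le (by norm_num) hp.hq) hp.hl1
  have h1 := Finset.card_eq_sum_card_fiberwise
    (s := univ.filter (fun j : Fin D => ¬ eff (qT q l) (qE0 q l) c b (b j)))
    (t := (univ : Finset (Fin m))) (f := b) (fun _ _ => Finset.mem_coe.2 (mem_univ _))
  have h2 : qT q l * (univ.filter (fun j => ¬ eff (qT q l) (qE0 q l) c b (b j))).card ≤
      2 * 10 ^ 7 * ∑ β, UU (qE0 q l) c β := by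
    rw [h1, Finset.mul_sum, Finset.mul_sum]
    refine Finset.sum_le_sum (fun β _ => ?_)
    by_cases hβ : eff (qT q l) (qE0 q l) c b β
    · have h3 : (univ.filter (fun j : Fin D => ¬ eff (qT q l) (qE0 q l) c b (b j))).filter
          (fun j => b j = β) = ∅ := by
        rw [Finset.filter_eq_empty_iff]
        intro j hj hjb
        apply (mem_filter.1 hj).2
        rw [hjb]
        exact hβ
      rw [h3, Finset.card_empty, Nat.mul_zero]
      exact Nat.zero_le _
    · have h3 : ((univ.filter (fun j : Fin D => ¬ eff (qT q l) (qE0 q l) c b (b j))).filter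
          (fun j => b j = β)).card ≤ (univ.filter (fun j => b j = β)).card := by
        refine Finset.card_le_card ?_
        intro j hj
        exact mem_filter.2 ⟨mem_univ _, (mem_filter.1 hj).2⟩
      unfold eff at hβ
      exact (Nat.mul_le_mul_left _ h3).trans (not_le.1 hβ).le
  have h4 := UU_sum (E0 := qE0 q l) c hM
  have h5 : qT q l * (100 * (univ.filter (fun j => ¬ eff (qT q l) (qE0 q l) c b (b j))).card) ≤
      qT q l * D := by
    have h6 : qT q l = 2 * 10 ^ 10 * (q * l) := by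
      unfold qT
      ring
    have h7 : qE0 q l = 5 * (q * l) := by
      unfold qE0
      ring
    have h8 : 100 * (2 * 10 ^ 7 * (2 * qE0 q l * D)) = qT q l * D := by
      rw [h6, h7]
      ring
    calc qT q l * (100 * (univ.filter (fun j => ¬ eff (qT q l) (qE0 q l) c b (b j))).card)
        = 100 * (qT q l * (univ.filter (fun j => ¬ eff (qT q l) (qE0 q l) c b (b j))).card) := by
          ring
      _ ≤ 100 * (2 * 10 ^ 7 * ∑ β, UU (qE0 q l) c β) := Nat.mul_le_mul_left _ h2
      _ ≤ 100 * (2 * 10 ^ 7 * (2 * qE0 q l * D)) :=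
          Nat.mul_le_mul_left _ (Nat.mul_le_mul_left _ h4)
      _ = qT q l * D := h8
  have hT : 0 < qT q l := by
    unfold qT
    rw [Nat.mul_assoc]
    exact Nat.mul_pos (by norm_num) h0
  exact Nat.le_of_mul_le_mul_left h5 hT

end Pool.Agent.Rez
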