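import Mathlib
import Pool.Agent.Rey.Bern
import Pool.Agent.Rey.Cnt
import Pool.Agent.Rez.Defs

set_option autoImplicit false

namespace Pool.Agent.Rez

open Finset
open Pool.Agent.Rey
open scoped Classical

/-- Independence on distinct cells, with different bounds. -/
theorem card_cells2 {K α : Type} [Fintype K] [DecidableEq K] [Fintype α] [DecidableEq α]
    (Z : Finset K) (A : K → Finset α) (η : K → ℝ) (hη : ∀ z ∈ Z, 0 ≤ η z)
    (hA : ∀ z ∈ Z, ((A z).card : ℝ) ≤ η z * Fintype.card α) :
    ((univ.filter (fun X : K → α => ∀ z ∈ Z, X z ∈ A z)).card : ℝ)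
      ≤ (∏ z ∈ Z, η z) * (Fintype.card α : ℝ) ^ (Fintype.card K) := by
  have h1 : (univ.filter (fun X : K → α => ∀ z ∈ Z, X z ∈ A z))
      = Fintype.piFinset (fun z => if z ∈ Z then A z else univ) := by
    ext X
    simp only [mem_filter, mem_univ, true_and, Fintype.mem_piFinset]
    constructor
    · intro h z
      by_cases hz : z ∈ Z
      · rw [if_pos hz]; exact h z hz
      · rw [if_neg hz]; exact mem_univ _
    · intro h z hz
      have := h z
      rw [if_pos hz] at this
      exact this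
  rw [h1, Fintype.card_piFinset, Nat.cast_prod]
  calc ∏ z, (((if z ∈ Z then A z else univ : Finset α).card : ℕ) : ℝ)
      ≤ ∏ z : K, ((if z ∈ Z then η z else 1) * (Fintype.card α : ℝ)) := by
        apply Finset.prod_le_prod
        · intro z _
          exact Nat.cast_nonneg _
        · intro z _
          by_cases hz : z ∈ Z
          · rw [if_pos hz, if_pos hz]; exact hA z hz
          · rw [if_neg hz, if_neg hz, one_mul, Finset.card_univ]
    _ = (∏ z ∈ Z, η z) * (Fintype.card α : ℝ) ^ (Fintype.card K) := by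
        rw [Finset.prod_mul_distrib, Finset.prod_const, Finset.card_univ, Finset.prod_ite_mem,
          Finset.univ_inter]

/-- Union bound. -/
theorem union_card {Ω S : Type} [Fintype Ω] [Fintype S] (bad : S → Ω → Prop)
    (p : S → ℝ) (hp : ∀ t, ((univ.filter (fun ω => bad t ω)).card : ℝ) ≤ p t * Fintype.card Ω) :
    ((univ.filter (fun ω => ∃ t, bad t ω)).card : ℝ) ≤ (∑ t, p t) * Fintype.card Ω := by
  have h1 : (univ.filter (fun ω => ∃ t, bad t ω)) ⊆
      (univ : Finset S).biUnion (fun t => univ.filter (fun ω => bad t ω)) := by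
    intro ω hω
    simp only [mem_filter, mem_univ, true_and] at hω
    obtain ⟨t, ht⟩ := hω
    exact mem_biUnion.2 ⟨t, mem_univ _, mem_filter.2 ⟨mem_univ _, ht⟩⟩
  have h2 := (card_le_card h1).trans card_biUnion_le
  calc ((univ.filter (fun ω => ∃ t, bad t ω)).card : ℝ)
      ≤ ((∑ t, (univ.filter (fun ω => bad t ω)).card : ℕ) : ℝ) := by exact_mod_cast h2
    _ = ∑ t, ((univ.filter (fun ω => bad t ω)).card : ℝ) := by push_cast; rfl
    _ ≤ ∑ t, p t * Fintype.card Ω := sum_le_sum (fun t _ => hp t)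
    _ = (∑ t, p t) * Fintype.card Ω := by rw [sum_mul]

/-- Multiplicities of a partial monotone map. -/
private noncomputable def a3_mu {w D : ℕ} (f : Fin w → Option (Fin D)) (k : Fin D) : Fin (w + 1) :=
  ⟨(univ.filter (fun i => f i = some k)).card, by
    have := Finset.card_le_univ (univ.filter (fun i => f i = some k))
    rw [Fintype.card_fin] at this
    omega⟩

private theorem a3_sum {w D : ℕ} (f : Fin w → Option (Fin D)) (p : Fin D → Prop)
    [DecidablePred p] :
    ∑ k ∈ univ.filter p, ((a3_mu f k : Fin (w + 1)) : ℕ)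
      = (univ.filter (fun i => ∃ k, p k ∧ f i = some k)).card := by
  have h : (univ.filter (fun i => ∃ k, p k ∧ f i = some k))
      = (univ.filter p).biUnion (fun k => univ.filter (fun i => f i = some k)) := by
    ext i
    simp only [mem_filter, mem_univ, true_and, mem_biUnion]
  rw [h, Finset.card_biUnion]
  · rfl
  · intro k _ k' _ hne
    rw [Function.onFun, Finset.disjoint_left]
    intro i hi hi'
    simp only [mem_filter, mem_univ, true_and] at hi hi'
    rw [hi] at hi'
    exact hne (Option.some.inj hi')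

private theorem a3_dm {w D : ℕ} (f : Fin w → Option (Fin D)) :
    ∑ k, ((a3_mu f k : Fin (w + 1)) : ℕ) = (dm f).card := by
  have h := a3_sum f (fun _ => True)
  rw [Finset.filter_true] at h
  rw [h]
  congr 1
  ext i
  simp only [dm, mem_filter, mem_univ, true_and, Option.isSome_iff_exists]

private theorem a3_lt {w D : ℕ} (f f' : Fin w → Option (Fin D)) (hf : PM f) (hf' : PM f')
    (hd : dm f = dm f') (hm : a3_mu f = a3_mu f') (i : Fin w) (k k' : Fin D)
    (hk : f i = some k) (hk' : f' i = some k') : ¬ k < k' := by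
  intro hlt
  -- rank + 1 ≤ sum over k'' ≤ k of mu f
  have h1 : ((dm f).filter (fun i' => i' ≤ i)).card
      ≤ ∑ k'' ∈ univ.filter (fun k'' => k'' ≤ k), ((a3_mu f k'' : Fin (w + 1)) : ℕ) := by
    rw [a3_sum f (fun k'' => k'' ≤ k)]
    apply Finset.card_le_card
    intro i' hi'
    simp only [dm, mem_filter, mem_univ, true_and, Option.isSome_iff_exists] at hi' ⊢
    obtain ⟨⟨a, ha⟩, hle⟩ := hi'
    exact ⟨a, hf i' i a k hle ha hk, ha⟩
  have h2 : ∑ k'' ∈ univ.filter (fun k'' => k'' < k'), ((a3_mu f' k'' : Fin (w + 1)) : ℕ)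
      ≤ ((dm f').filter (fun i' => i' < i)).card := by
    rw [a3_sum f' (fun k'' => k'' < k')]
    apply Finset.card_le_card
    intro i' hi'
    simp only [dm, mem_filter, mem_univ, true_and, Option.isSome_iff_exists] at hi' ⊢
    obtain ⟨a, ha, hfa⟩ := hi'
    refine ⟨⟨a, hfa⟩, ?_⟩
    by_contra hn
    rw [not_lt] at hn
    have := hf' i i' k' a hn hk' hfa
    exact absurd ha (not_lt.mpr this)
  have h3 : ∑ k'' ∈ univ.filter (fun k'' => k'' ≤ k), ((a3_mu f k'' : Fin (w + 1)) : ℕ)
      ≤ ∑ k'' ∈ univ.filter (fun k'' => k'' < k'), ((a3_mu f' k'' : Fin (w + 1)) : ℕ) := by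
    rw [hm]
    apply Finset.sum_le_sum_of_subset
    intro x hx
    simp only [mem_filter, mem_univ, true_and] at hx ⊢
    exact lt_of_le_of_lt hx hlt
  have h4 : ((dm f').filter (fun i' => i' < i)).card < ((dm f).filter (fun i' => i' ≤ i)).card := by
    rw [← hd]
    apply Finset.card_lt_card
    rw [Finset.ssubset_iff_of_subset]
    · refine ⟨i, ?_, ?_⟩
      · simp only [dm, mem_filter, mem_univ, true_and, le_refl, and_true, hk, Option.isSome_some]
      · simp only [mem_filter, lt_irrefl, and_false, not_false_iff]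
    · intro x hx
      simp only [mem_filter] at hx ⊢
      exact ⟨hx.1, hx.2.le⟩
  omega

private theorem a3_inj {w D : ℕ} (f f' : Fin w → Option (Fin D)) (hf : PM f) (hf' : PM f')
    (hd : dm f = dm f') (hm : a3_mu f = a3_mu f') : f = f' := by
  funext i
  by_cases h : i ∈ dm f
  · have h' : i ∈ dm f' := hd ▸ h
    simp only [dm, mem_filter, mem_univ, true_and, Option.isSome_iff_exists] at h h'
    obtain ⟨k, hk⟩ := h
    obtain ⟨k', hk'⟩ := h'
    have h1 := a3_lt f f' hf hf' hd hm i k k' hk hk'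
    have h2 := a3_lt f' f hf' hf hd.symm hm.symm i k' k hk' hk
    have : k = k' := le_antisymm (not_lt.mp h2) (not_lt.mp h1)
    rw [hk, hk', this]
  · have h' : i ∉ dm f' := hd ▸ h
    simp only [dm, mem_filter, mem_univ, true_and, Bool.not_eq_true, Option.isSome_eq_false_iff,
      Option.isNone_iff_eq_none] at h h'
    rw [h, h']

private theorem a3_prod {w D : ℕ} (F : Fin w → Option (Fin D)) (p : Fin D → ℝ) (a : ℝ) :
    ∏ j, (F j).elim 1 (fun k => a * p k)
      = a ^ (dm F).card * ∏ k, p k ^ ((a3_mu F k : Fin (w + 1)) : ℕ) := by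
  have h1 : ∏ j, (F j).elim 1 (fun k => a * p k)
      = ∏ j, ((if (F j).isSome = true then a else 1) * (F j).elim 1 p) := by
    apply Finset.prod_congr rfl
    intro j _
    cases h : F j with
    | none => simp
    | some k => simp
  rw [h1, Finset.prod_mul_distrib]
  congr 1
  · rw [Finset.prod_ite, Finset.prod_const_one, mul_one, Finset.prod_const]
    rfl
  · rw [← Finset.prod_fiberwise (univ : Finset (Fin w)) F (fun j => (F j).elim 1 p)]
    rw [Fintype.prod_option]
    have h2 : ∏ j ∈ univ.filter (fun j => F j = none), (F j).elim 1 p = 1 := by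
      apply Finset.prod_eq_one
      intro j hj
      rw [(mem_filter.1 hj).2]
      rfl
    rw [h2, one_mul]
    apply Finset.prod_congr rfl
    intro k _
    have h3 : ∏ j ∈ univ.filter (fun j => F j = some k), (F j).elim 1 p
        = ∏ j ∈ univ.filter (fun j => F j = some k), p k := by
      apply Finset.prod_congr rfl
      intro j hj
      rw [(mem_filter.1 hj).2]
      rfl
    rw [h3, Finset.prod_const]
    rfl

private theorem a3_geo (w : ℕ) (x : ℝ) (h0 : 0 ≤ x) (h1 : x ≤ 1 / 2) :
    ∑ t : Fin (w + 1), x ^ (t : ℕ) ≤ Real.exp (2 * x) := by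
  rw [Fin.sum_univ_eq_sum_range (fun t => x ^ t) (w + 1)]
  have hx1 : x < 1 := by linarith
  have h2 : ∑ t ∈ Finset.range (w + 1), x ^ t ≤ (1 - x)⁻¹ := by
    rw [geom_sum_eq hx1.ne]
    have h3 : 0 < 1 - x := by linarith
    have h4 : (x ^ (w + 1) - 1) / (x - 1) = (1 - x ^ (w + 1)) / (1 - x) := by
      rw [← neg_sub, ← neg_sub 1 x, neg_div_neg_eq]
    rw [h4, div_eq_mul_inv]
    have h5 : 0 ≤ x ^ (w + 1) := pow_nonneg h0 _
    have h6 : 0 < (1 - x)⁻¹ := inv_pos.mpr h3
    nlinarith
  refine h2.trans ?_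
  have h3 : 0 < 1 - x := by linarith
  have h7 : (1 - x)⁻¹ ≤ 1 + 2 * x := by
    rw [inv_le_iff_one_le_mul₀ h3]
    nlinarith
  refine h7.trans ?_
  have := Real.add_one_le_exp (2 * x)
  linarith

/-- A weighted count of partial monotone maps with domain in `J`: such a map is determined by its
domain and by its multiplicities. -/
theorem cnt_one {w D : ℕ} (J : Finset (Fin w)) (p : Fin D → ℝ) (a : ℝ) (ha : 0 ≤ a)
    (hp0 : ∀ k, 0 ≤ p k) (hp1 : ∀ k, p k ≤ 1 / 2) :
    ∑ F ∈ univ.filter (fun F : Fin w → Option (Fin D) => PM F ∧ dm F ⊆ J),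
      ∏ j, (F j).elim 1 (fun k => a * p k)
      ≤ (1 + a) ^ J.card * Real.exp (2 * ∑ k, p k) := by
  let e : (Fin w → Option (Fin D)) → Finset (Fin w) × (Fin D → Fin (w + 1)) :=
    fun f => (dm f, a3_mu f)
  let G : Finset (Fin w) × (Fin D → Fin (w + 1)) → ℝ :=
    fun x => a ^ x.1.card * ∏ k, p k ^ ((x.2 k : Fin (w + 1)) : ℕ)
  have hG : ∀ x, 0 ≤ G x := fun x =>
    mul_nonneg (pow_nonneg ha _) (Finset.prod_nonneg (fun k _ => pow_nonneg (hp0 k) _))
  have hinj : Set.InjOn e
      ((univ.filter (fun F : Fin w → Option (Fin D) => PM F ∧ dm F ⊆ J)) : Set _) := by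
    intro f hf f' hf' hee
    have hf1 : PM f := (mem_filter.1 (mem_coe.1 hf)).2.1
    have hf2 : PM f' := (mem_filter.1 (mem_coe.1 hf')).2.1
    have h1 : dm f = dm f' := congrArg Prod.fst hee
    have h2 : a3_mu f = a3_mu f' := congrArg Prod.snd hee
    exact a3_inj f f' hf1 hf2 h1 h2
  calc ∑ F ∈ univ.filter (fun F : Fin w → Option (Fin D) => PM F ∧ dm F ⊆ J),
        ∏ j, (F j).elim 1 (fun k => a * p k)
      = ∑ F ∈ univ.filter (fun F : Fin w → Option (Fin D) => PM F ∧ dm F ⊆ J), G (e F) := by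
        apply Finset.sum_congr rfl
        intro F _
        exact a3_prod F p a
    _ = ∑ x ∈ (univ.filter (fun F : Fin w → Option (Fin D) => PM F ∧ dm F ⊆ J)).image e, G x := by
        rw [Finset.sum_image hinj]
    _ ≤ ∑ x ∈ J.powerset ×ˢ (univ : Finset (Fin D → Fin (w + 1))), G x := by
        apply Finset.sum_le_sum_of_subset_of_nonneg
        · intro x hx
          obtain ⟨F, hF, rfl⟩ := mem_image.1 hx
          exact mem_product.2 ⟨mem_powerset.2 (mem_filter.1 hF).2.2, mem_univ _⟩
        · intro x _ _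
          exact hG x
    _ = (∑ s ∈ J.powerset, a ^ s.card) *
          ∑ μ : Fin D → Fin (w + 1), ∏ k, p k ^ ((μ k : Fin (w + 1)) : ℕ) := by
        rw [Finset.sum_product, Finset.sum_mul_sum]
    _ = (1 + a) ^ J.card * ∏ k, ∑ t : Fin (w + 1), p k ^ (t : ℕ) := by
        congr 1
        · have := Finset.sum_pow_mul_eq_add_pow a (1 : ℝ) J
          simp only [one_pow, mul_one] at this
          rw [this, add_comm]
        · have := Finset.prod_univ_sum (fun _ : Fin D => (univ : Finset (Fin (w + 1))))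
            (fun (k : Fin D) (t : Fin (w + 1)) => p k ^ (t : ℕ))
          rw [Fintype.piFinset_univ] at this
          rw [← this]
    _ ≤ (1 + a) ^ J.card * ∏ k, Real.exp (2 * p k) := by
        apply mul_le_mul_of_nonneg_left _ (pow_nonneg (by linarith) _)
        apply Finset.prod_le_prod
        · intro k _
          exact Finset.sum_nonneg (fun t _ => pow_nonneg (hp0 k) _)
        · intro k _
          exact a3_geo w (p k) (hp0 k) (hp1 k)
    _ = (1 + a) ^ J.card * Real.exp (2 * ∑ k, p k) := by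
        rw [← Real.exp_sum, Finset.mul_sum]

private theorem a4_restr {w D : ℕ} {F G : Fin w → Option (Fin D)} (hF : PM F)
    (h : ∀ j k, G j = some k → F j = some k) : PM G ∧ dm G ⊆ dm F := by
  refine ⟨?_, ?_⟩
  · intro i i' k k' hi h1 h2
    exact hF i i' k k' hi (h _ _ h1) (h _ _ h2)
  · intro j hj
    obtain ⟨k, hk⟩ := Option.isSome_iff_exists.1 (mem_filter.1 hj).2
    exact mem_filter.2 ⟨mem_univ _, by rw [h j k hk]; rfl⟩

private theorem a4_none {w D : ℕ} {G : Fin w → Option (Fin D)} (h : dm G ⊆ ∅) :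
    G = fun _ => none := by
  funext j
  by_contra hj
  have h1 : j ∈ dm G := mem_filter.2 ⟨mem_univ _, Option.isSome_iff_ne_none.2 hj⟩
  exact absurd (h h1) (Finset.notMem_empty j)

private theorem a4_nonneg {w D : ℕ} (G : Fin w → Option (Fin D)) (f : Fin w → Fin D → ℝ)
    (hf : ∀ j k, 0 ≤ f j k) : 0 ≤ ∏ j, (G j).elim 1 (fun k => f j k) := by
  refine Finset.prod_nonneg (fun j _ => ?_)
  cases G j with
  | none => exact zero_le_one
  | some k => exact hf j k

/-- The same with colours: the restriction of `F` to the rows of a colour `β` is partial monotone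
with domain in `{j ∈ J | b j = β}`; use `cnt_one` for every colour (for a colour which does not
occur in `J` the sum over the restrictions is `1`). -/
theorem cnt_col {w D m : ℕ} (b : Fin w → Fin m) (J : Finset (Fin w)) (p : Fin D → Fin m → ℝ)
    (a : ℝ) (ha : 0 ≤ a) (hp0 : ∀ k β, 0 ≤ p k β) (hp1 : ∀ k β, p k β ≤ 1 / 2) :
    ∑ F ∈ univ.filter (fun F : Fin w → Option (Fin D) => PM F ∧ dm F ⊆ J),
      ∏ j, (F j).elim 1 (fun k => a * p k (b j))
      ≤ (1 + a) ^ J.card * Real.exp (2 * ∑ β ∈ J.image b, ∑ k, p k β) := by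
  set t : Fin m → Finset (Fin w → Option (Fin D)) := fun β =>
    univ.filter (fun G : Fin w → Option (Fin D) => PM G ∧ dm G ⊆ J.filter (fun j => b j = β))
    with ht
  set W : Fin m → (Fin w → Option (Fin D)) → ℝ := fun β G =>
    ∏ j, (G j).elim 1 (fun k => a * p k β) with hW
  have hW0 : ∀ β G, 0 ≤ W β G := fun β G =>
    a4_nonneg G (fun _ k => a * p k β) (fun _ k => mul_nonneg ha (hp0 k β))
  set φ : (Fin w → Option (Fin D)) → (Fin m → Fin w → Option (Fin D)) := fun F β j =>
    if b j = β then F j else none with hφ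
  have hinj : Function.Injective φ := by
    intro F F' h
    funext j
    have h1 := congrFun (congrFun h (b j)) j
    simpa [hφ] using h1
  have hprod : ∀ F : Fin w → Option (Fin D),
      ∏ j, (F j).elim 1 (fun k => a * p k (b j)) = ∏ β, W β (φ F β) := by
    intro F
    rw [hW]
    simp only
    rw [Finset.prod_comm]
    refine Finset.prod_congr rfl (fun j _ => ?_)
    rw [Finset.prod_eq_single (b j)]
    · simp [hφ]
    · intro β _ hβ
      have h1 : φ F β j = none := by
        simp only [hφ]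
        rw [if_neg (fun h => hβ h.symm)]
      rw [h1]
      rfl
    · intro h
      exact absurd (mem_univ _) h
  have hmem : ∀ F ∈ univ.filter (fun F : Fin w → Option (Fin D) => PM F ∧ dm F ⊆ J),
      φ F ∈ Fintype.piFinset t := by
    intro F hF
    obtain ⟨h1, h2⟩ := (mem_filter.1 hF).2
    rw [Fintype.mem_piFinset]
    intro β
    have h3 : ∀ j k, φ F β j = some k → b j = β ∧ F j = some k := by
      intro j k h
      simp only [hφ] at h
      by_cases hb : b j = β
      · rw [if_pos hb] at h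
        exact ⟨hb, h⟩
      · rw [if_neg hb] at h
        exact absurd h (by simp)
    obtain ⟨h4, h5⟩ := a4_restr h1 (fun j k h => (h3 j k h).2)
    refine mem_filter.2 ⟨mem_univ _, h4, ?_⟩
    intro j hj
    obtain ⟨k, hk⟩ := Option.isSome_iff_exists.1 (mem_filter.1 hj).2
    exact mem_filter.2 ⟨h2 (h5 hj), (h3 j k hk).1⟩
  have h1 : ∑ F ∈ univ.filter (fun F : Fin w → Option (Fin D) => PM F ∧ dm F ⊆ J),
      ∏ j, (F j).elim 1 (fun k => a * p k (b j)) ≤
      ∑ P ∈ Fintype.piFinset t, ∏ β, W β (P β) := by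
    calc ∑ F ∈ univ.filter (fun F : Fin w → Option (Fin D) => PM F ∧ dm F ⊆ J),
          ∏ j, (F j).elim 1 (fun k => a * p k (b j))
        = ∑ F ∈ univ.filter (fun F : Fin w → Option (Fin D) => PM F ∧ dm F ⊆ J),
            ∏ β, W β (φ F β) := Finset.sum_congr rfl (fun F _ => hprod F)
      _ = ∑ P ∈ (univ.filter (fun F : Fin w → Option (Fin D) => PM F ∧ dm F ⊆ J)).image φ,
            ∏ β, W β (P β) := by
          rw [Finset.sum_image (fun _ _ _ _ h => hinj h)]
      _ ≤ ∑ P ∈ Fintype.piFinset t, ∏ β, W β (P β) := by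
          refine Finset.sum_le_sum_of_subset_of_nonneg ?_
            (fun P _ _ => Finset.prod_nonneg (fun β _ => hW0 β (P β)))
          intro P hP
          obtain ⟨F, hF, rfl⟩ := mem_image.1 hP
          exact hmem F hF
  have h2 : ∑ P ∈ Fintype.piFinset t, ∏ β, W β (P β) = ∏ β, ∑ G ∈ t β, W β G :=
    (Finset.prod_univ_sum t W).symm
  have h3 : ∀ β, ∑ G ∈ t β, W β G ≤
      if β ∈ J.image b then (1 + a) ^ (J.filter (fun j => b j = β)).card *
        Real.exp (2 * ∑ k, p k β) else 1 := by
    intro β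
    by_cases hβ : β ∈ J.image b
    · rw [if_pos hβ]
      exact cnt_one (J.filter (fun j => b j = β)) (fun k => p k β) a ha (fun k => hp0 k β)
        (fun k => hp1 k β)
    · rw [if_neg hβ]
      have h4 : J.filter (fun j => b j = β) = ∅ := by
        rw [Finset.filter_eq_empty_iff]
        intro j hj hjb
        exact hβ (mem_image.2 ⟨j, hj, hjb⟩)
      have h5 : t β ⊆ {fun _ => none} := by
        intro G hG
        have h6 := (mem_filter.1 hG).2.2
        rw [h4] at h6
        exact mem_singleton.2 (a4_none h6)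
      calc ∑ G ∈ t β, W β G ≤ ∑ G ∈ ({fun _ => none} : Finset (Fin w → Option (Fin D))), W β G :=
            Finset.sum_le_sum_of_subset_of_nonneg h5 (fun G _ _ => hW0 β G)
        _ = 1 := by
            rw [Finset.sum_singleton]
            simp [hW]
  have h4 : ∏ β, ∑ G ∈ t β, W β G ≤
      ∏ β, (if β ∈ J.image b then (1 + a) ^ (J.filter (fun j => b j = β)).card *
        Real.exp (2 * ∑ k, p k β) else 1) :=
    Finset.prod_le_prod (fun β _ => Finset.sum_nonneg (fun G _ => hW0 β G)) (fun β _ => h3 β)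
  refine (h1.trans (h2.le.trans h4)).trans (le_of_eq ?_)
  rw [Finset.prod_ite_mem, Finset.univ_inter, Finset.prod_mul_distrib, Finset.prod_pow_eq_pow_sum,
    ← Real.exp_sum, ← Finset.mul_sum, ← Finset.card_eq_sum_card_image]

/-- Mixed weights: split `F` into its restriction to the cells `(F j, j)` outside `X` (weight
`a * p0`, `cnt_one` with the constant `p0`) and in `X` (`cnt_col`). -/
theorem cnt_mix {w D m : ℕ} (b : Fin w → Fin m) (J : Finset (Fin w)) (X : Fin D → Fin m → Prop)
    (p0 : ℝ) (p : Fin D → Fin m → ℝ) (a : ℝ) (ha : 0 ≤ a) (h0 : 0 ≤ p0) (h1 : p0 ≤ 1 / 2)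
    (hp0 : ∀ k β, 0 ≤ p k β) (hp1 : ∀ k β, p k β ≤ 1 / 2) :
    ∑ F ∈ univ.filter (fun F : Fin w → Option (Fin D) => PM F ∧ dm F ⊆ J),
      ∏ j, (F j).elim 1 (fun k => if X k (b j) then a * p k (b j) else a * p0)
      ≤ (1 + a) ^ (2 * J.card) *
        Real.exp (2 * (D * p0) + 2 * ∑ β ∈ J.image b, ∑ k, p k β) := by
  set S : Finset (Fin w → Option (Fin D)) :=
    univ.filter (fun F : Fin w → Option (Fin D) => PM F ∧ dm F ⊆ J) with hS
  set W1 : (Fin w → Option (Fin D)) → ℝ := fun G => ∏ j, (G j).elim 1 (fun _ => a * p0) with hW1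
  set W2 : (Fin w → Option (Fin D)) → ℝ := fun G =>
    ∏ j, (G j).elim 1 (fun k => a * p k (b j)) with hW2
  have hW10 : ∀ G, 0 ≤ W1 G := fun G =>
    a4_nonneg G (fun _ _ => a * p0) (fun _ _ => mul_nonneg ha h0)
  have hW20 : ∀ G, 0 ≤ W2 G := fun G =>
    a4_nonneg G (fun j k => a * p k (b j)) (fun j k => mul_nonneg ha (hp0 k (b j)))
  set f1 : (Fin w → Option (Fin D)) → (Fin w → Option (Fin D)) := fun F j =>
    (F j).elim none (fun k => if X k (b j) then none else some k) with hf1
  set f2 : (Fin w → Option (Fin D)) → (Fin w → Option (Fin D)) := fun F j =>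
    (F j).elim none (fun k => if X k (b j) then some k else none) with hf2
  have hr1 : ∀ F j k, f1 F j = some k → F j = some k := by
    intro F j k h
    simp only [hf1] at h
    cases hF : F j with
    | none => rw [hF] at h; exact absurd h (by simp)
    | some k' =>
      rw [hF] at h
      simp only [Option.elim_some] at h
      split_ifs at h with hX
      exact h
  have hr2 : ∀ F j k, f2 F j = some k → F j = some k := by
    intro F j k h
    simp only [hf2] at h
    cases hF : F j with
    | none => rw [hF] at h; exact absurd h (by simp)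
    | some k' =>
      rw [hF] at h
      simp only [Option.elim_some] at h
      split_ifs at h with hX
      exact h
  have hinj : Function.Injective (fun F => (f1 F, f2 F)) := by
    intro F F' h
    simp only [Prod.mk.injEq] at h
    funext j
    have e1 := congrFun h.1 j
    have e2 := congrFun h.2 j
    have key : ∀ G : Fin w → Option (Fin D), G j = (f1 G j).elim (f2 G j) some := by
      intro G
      simp only [hf1, hf2]
      cases hG : G j with
      | none => rfl
      | some k =>
        by_cases hX : X k (b j)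
        · simp [hX]
        · simp [hX]
    rw [key F, key F', e1, e2]
  have hprod : ∀ F : Fin w → Option (Fin D),
      ∏ j, (F j).elim 1 (fun k => if X k (b j) then a * p k (b j) else a * p0) =
        W1 (f1 F) * W2 (f2 F) := by
    intro F
    simp only [hW1, hW2]
    rw [← Finset.prod_mul_distrib]
    refine Finset.prod_congr rfl (fun j _ => ?_)
    simp only [hf1, hf2]
    cases hF : F j with
    | none => simp
    | some k =>
      by_cases hX : X k (b j)
      · simp [hX]
      · simp [hX]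
  have hmem : ∀ F ∈ S, (f1 F, f2 F) ∈ S ×ˢ S := by
    intro F hF
    obtain ⟨h3, h4⟩ := (mem_filter.1 hF).2
    obtain ⟨h5, h6⟩ := a4_restr h3 (hr1 F)
    obtain ⟨h7, h8⟩ := a4_restr h3 (hr2 F)
    exact mem_product.2 ⟨mem_filter.2 ⟨mem_univ _, h5, h6.trans h4⟩,
      mem_filter.2 ⟨mem_univ _, h7, h8.trans h4⟩⟩
  have h2 : ∑ F ∈ S, ∏ j, (F j).elim 1 (fun k => if X k (b j) then a * p k (b j) else a * p0) ≤
      (∑ G ∈ S, W1 G) * ∑ G ∈ S, W2 G := by
    calc ∑ F ∈ S, ∏ j, (F j).elim 1 (fun k => if X k (b j) then a * p k (b j) else a * p0)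
        = ∑ F ∈ S, W1 (f1 F) * W2 (f2 F) := Finset.sum_congr rfl (fun F _ => hprod F)
      _ = ∑ P ∈ S.image (fun F => (f1 F, f2 F)), W1 P.1 * W2 P.2 := by
          rw [Finset.sum_image (fun _ _ _ _ h => hinj h)]
      _ ≤ ∑ P ∈ S ×ˢ S, W1 P.1 * W2 P.2 := by
          refine Finset.sum_le_sum_of_subset_of_nonneg ?_
            (fun P _ _ => mul_nonneg (hW10 _) (hW20 _))
          intro P hP
          obtain ⟨F, hF, rfl⟩ := mem_image.1 hP
          exact hmem F hF
      _ = (∑ G ∈ S, W1 G) * ∑ G ∈ S, W2 G := by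
          rw [Finset.sum_product, Finset.sum_mul_sum]
  have h3 : ∑ G ∈ S, W1 G ≤ (1 + a) ^ J.card * Real.exp (2 * (D * p0)) := by
    have h4 := cnt_one (D := D) J (fun _ => p0) a ha (fun _ => h0) (fun _ => h1)
    rw [Finset.sum_const, Finset.card_univ, Fintype.card_fin, nsmul_eq_mul] at h4
    exact h4
  have h4 : ∑ G ∈ S, W2 G ≤ (1 + a) ^ J.card *
      Real.exp (2 * ∑ β ∈ J.image b, ∑ k, p k β) := cnt_col b J p a ha hp0 hp1
  refine h2.trans ?_
  have h5 : (∑ G ∈ S, W1 G) * ∑ G ∈ S, W2 G ≤
      ((1 + a) ^ J.card * Real.exp (2 * (D * p0))) * ((1 + a) ^ J.card *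
      Real.exp (2 * ∑ β ∈ J.image b, ∑ k, p k β)) :=
    mul_le_mul h3 h4 (Finset.sum_nonneg (fun G _ => hW20 G)) (by positivity)
  refine h5.trans (le_of_eq ?_)
  rw [Real.exp_add, two_mul J.card, pow_add]
  ring

end Pool.Agent.Rez
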