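import Mathlib
import Pool.Agent.Rey.Cnt
import Pool.Agent.Rez.Cnt

set_option autoImplicit false

namespace Pool.Agent.Rez

open Finset
open Pool.Agent.Rey
open scoped Classical

/-- The bound for the failing probability of a cell. -/
noncomputable def pw {D m R : ℕ} (T : ℕ) (H : Finset (Fin D × Fin m × Fin R)) (k : Fin D)
    (β : Fin m) : ℝ := 3 * max 1 ((hb H k β).card : ℝ) / T

/-- One cell: `1/T + 2^(-h) + h |Hb| / R ≤ 3 max(1, |Hb|) / T`. -/
theorem one_cellA {T h R M : ℕ} (hT : 0 < T) (hR : 0 < R) (hM : 0 < M) (hRT : R = h * T)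
    (hh : T ≤ 2 ^ h) (G Hb : Finset (Fin R)) (hG : R ≤ 2 * G.card) :
    ((univ.filter (fun x : Fin T × (Fin h → Fin R) × Fin M => (x.1 : ℕ) = 0 ∨
      (∀ p, x.2.1 p ∉ G) ∨ ∃ p, x.2.1 p ∈ Hb)).card : ℝ)
      ≤ (3 * max 1 (Hb.card : ℝ) / T) * Fintype.card (Fin T × (Fin h → Fin R) × Fin M) := by
  have hTT : (0 : ℝ) < T := by exact_mod_cast hT
  have hRR : (0 : ℝ) < R := by exact_mod_cast hR
  have hhT : (T : ℝ) ≤ 2 ^ h := by exact_mod_cast hh
  have hRh : (R : ℝ) = h * T := by rw [hRT]; push_cast; rfl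
  have hS : (0 : ℝ) ≤ Fintype.card (Fin h → Fin R) := Nat.cast_nonneg _
  have hcard : (Fintype.card (Fin T × (Fin h → Fin R) × Fin M) : ℝ) =
      T * Fintype.card (Fin h → Fin R) * M := by
    rw [Fintype.card_prod, Fintype.card_prod, Fintype.card_fin, Fintype.card_fin]
    push_cast
    ring
  have h1 : ((univ.filter (fun s : Fin h → Fin R => ∀ p, s p ∉ G)).card : ℝ)
      ≤ 1 / T * Fintype.card (Fin h → Fin R) := by
    have := card_cells (K := Fin h) (α := Fin R) univ (fun _ => Gᶜ) (1 / 2) (by norm_num) (by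
        intro z _
        rw [card_compl, Fintype.card_fin, Nat.cast_sub (by simpa using card_le_univ G)]
        have : (R : ℝ) ≤ 2 * G.card := by exact_mod_cast hG
        linarith)
    simp only [mem_univ, forall_true_left, mem_compl, card_univ, Fintype.card_fin] at this
    rw [Fintype.card_fun, Fintype.card_fin, Fintype.card_fin]
    push_cast
    refine this.trans (mul_le_mul_of_nonneg_right ?_ (by positivity))
    rw [one_div_pow]
    exact one_div_le_one_div_of_le hTT hhT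
  have h2 : ∀ p : Fin h, ((univ.filter (fun s : Fin h → Fin R => s p ∈ Hb)).card : ℝ)
      ≤ Hb.card / R * Fintype.card (Fin h → Fin R) := by
    intro p
    have := card_cells (K := Fin h) (α := Fin R) {p} (fun _ => Hb)
      ((Hb.card : ℝ) / R) (by positivity) (by
        intro z _
        rw [Fintype.card_fin, div_mul_cancel₀ _ hRR.ne'])
    simp only [mem_singleton, forall_eq, card_singleton, pow_one, Fintype.card_fin] at this
    rw [Fintype.card_fun, Fintype.card_fin, Fintype.card_fin]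
    push_cast
    exact this
  have h3 : (univ.filter (fun x : Fin T × (Fin h → Fin R) × Fin M => (x.1 : ℕ) = 0 ∨
      (∀ p, x.2.1 p ∉ G) ∨ ∃ p, x.2.1 p ∈ Hb)) ⊆
      (univ.filter (fun x : Fin T × (Fin h → Fin R) × Fin M => (x.1 : ℕ) = 0)) ∪
      ((univ.filter (fun x : Fin T × (Fin h → Fin R) × Fin M => ∀ p, x.2.1 p ∉ G)) ∪
        (univ : Finset (Fin h)).biUnion (fun p => univ.filter
          (fun x : Fin T × (Fin h → Fin R) × Fin M => x.2.1 p ∈ Hb))) := by
    intro s hs
    simp only [mem_filter, mem_univ, true_and, mem_union, mem_biUnion] at hs ⊢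
    exact hs
  have h4 := (card_le_card h3).trans ((card_union_le _ _).trans
    (Nat.add_le_add_left (card_union_le _ _) _))
  have h4' : ((univ.filter (fun x : Fin T × (Fin h → Fin R) × Fin M => (x.1 : ℕ) = 0 ∨
      (∀ p, x.2.1 p ∉ G) ∨ ∃ p, x.2.1 p ∈ Hb)).card : ℝ) ≤
      ((univ.filter (fun x : Fin T × (Fin h → Fin R) × Fin M => (x.1 : ℕ) = 0)).card : ℝ) +
      (((univ.filter (fun x : Fin T × (Fin h → Fin R) × Fin M => ∀ p, x.2.1 p ∉ G)).card : ℝ) +
        (((univ : Finset (Fin h)).biUnion (fun p => univ.filter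
          (fun x : Fin T × (Fin h → Fin R) × Fin M => x.2.1 p ∈ Hb))).card : ℝ)) := by
    exact_mod_cast h4
  have c0 : ((univ.filter (fun x : Fin T × (Fin h → Fin R) × Fin M => (x.1 : ℕ) = 0)).card : ℝ)
      = 1 / T * (T * Fintype.card (Fin h → Fin R) * M) := by
    have e : univ.filter (fun x : Fin T × (Fin h → Fin R) × Fin M => (x.1 : ℕ) = 0) =
        ({⟨0, hT⟩} : Finset (Fin T)) ×ˢ (univ : Finset ((Fin h → Fin R) × Fin M)) := by
      ext x
      simp only [mem_filter, mem_univ, true_and, mem_product, mem_singleton, and_true]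
      exact ⟨fun h => Fin.ext h, fun h => by rw [h]⟩
    rw [e, card_product, card_singleton, card_univ, Fintype.card_prod, Fintype.card_fin]
    push_cast
    field_simp
  have c1 : ∀ P : (Fin h → Fin R) → Prop,
      ((univ.filter (fun x : Fin T × (Fin h → Fin R) × Fin M => P x.2.1)).card : ℝ)
      = T * ((univ.filter (fun s : Fin h → Fin R => P s)).card : ℝ) * M := by
    intro P
    have e : univ.filter (fun x : Fin T × (Fin h → Fin R) × Fin M => P x.2.1) =
        (univ : Finset (Fin T)) ×ˢ ((univ.filter (fun s : Fin h → Fin R => P s)) ×ˢ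
          (univ : Finset (Fin M))) := by
      ext x
      simp only [mem_filter, mem_univ, true_and, mem_product, and_true]
    rw [e, card_product, card_product, card_univ, card_univ, Fintype.card_fin, Fintype.card_fin]
    push_cast
    ring
  have hMM : (0 : ℝ) ≤ M := Nat.cast_nonneg _
  have h5 : (((univ : Finset (Fin h)).biUnion (fun p => univ.filter
          (fun x : Fin T × (Fin h → Fin R) × Fin M => x.2.1 p ∈ Hb))).card : ℝ)
        ≤ h * (T * (Hb.card / R * Fintype.card (Fin h → Fin R)) * M) := by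
    have : (((univ : Finset (Fin h)).biUnion (fun p => univ.filter
          (fun x : Fin T × (Fin h → Fin R) × Fin M => x.2.1 p ∈ Hb))).card : ℝ) ≤
        ∑ p : Fin h, ((univ.filter
          (fun x : Fin T × (Fin h → Fin R) × Fin M => x.2.1 p ∈ Hb)).card : ℝ) := by
      exact_mod_cast card_biUnion_le
    refine this.trans ((sum_le_sum (g := fun _ => (T * (Hb.card / R *
      Fintype.card (Fin h → Fin R)) * M : ℝ)) fun p _ => ?_).trans ?_)
    · have c2 : ((univ.filter (fun x : Fin T × (Fin h → Fin R) × Fin M =>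
          x.2.1 p ∈ Hb)).card : ℝ) =
          T * ((univ.filter (fun s : Fin h → Fin R => s p ∈ Hb)).card : ℝ) * M := by
        convert c1 (fun s => s p ∈ Hb)
      rw [c2]
      exact mul_le_mul_of_nonneg_right (mul_le_mul_of_nonneg_left (h2 p) hTT.le) hMM
    · simp
  rw [hcard]
  refine h4'.trans ?_
  have c3 : ((univ.filter (fun x : Fin T × (Fin h → Fin R) × Fin M =>
      ∀ p, x.2.1 p ∉ G)).card : ℝ) =
      T * ((univ.filter (fun s : Fin h → Fin R => ∀ p, s p ∉ G)).card : ℝ) * M := by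
    convert c1 (fun s => ∀ p, s p ∉ G)
  rw [c0, c3]
  have h6 : (T : ℝ) * ((univ.filter (fun s : Fin h → Fin R => ∀ p, s p ∉ G)).card : ℝ) * M ≤
      T * (1 / T * Fintype.card (Fin h → Fin R)) * M :=
    mul_le_mul_of_nonneg_right (mul_le_mul_of_nonneg_left h1 hTT.le) hMM
  refine (add_le_add le_rfl (add_le_add h6 h5)).trans ?_
  have h7 : (1 : ℝ) / T * (T * Fintype.card (Fin h → Fin R) * M) +
      (T * (1 / T * Fintype.card (Fin h → Fin R)) * M +
        h * (T * (Hb.card / R * Fintype.card (Fin h → Fin R)) * M)) =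
      ((1 / T + 1 / T + h * Hb.card / R) : ℝ) * (T * Fintype.card (Fin h → Fin R) * M) := by
    ring
  rw [h7]
  refine mul_le_mul_of_nonneg_right ?_ (by positivity)
  have hh0 : (0 : ℝ) < h := by
    rcases Nat.eq_zero_or_pos h with h0 | h0
    · subst h0
      rw [zero_mul] at hRT
      omega
    · exact_mod_cast h0
  have h8 : (h : ℝ) * Hb.card / R = Hb.card / T := by
    rw [hRh]
    field_simp
  rw [h8, ← add_div, ← add_div]
  refine div_le_div_of_nonneg_right ?_ hTT.le
  rcases Nat.eq_zero_or_pos Hb.card with h0 | h0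
  · rw [h0]
    norm_num
  · have h9 : (1 : ℝ) ≤ Hb.card := by exact_mod_cast h0
    rw [max_eq_right h9]
    linarith

private theorem e2_cells {D : ℕ} {α : Type} [Fintype α] [DecidableEq α]
    (Z : Finset (Fin D × Fin D)) (A : Fin D × Fin D → Finset α) (η : Fin D × Fin D → ℝ)
    (hη : ∀ z ∈ Z, 0 ≤ η z) (hA : ∀ z ∈ Z, ((A z).card : ℝ) ≤ η z * Fintype.card α) :
    ((univ.filter (fun X : Fin D → Fin D → α => ∀ z ∈ Z, X z.1 z.2 ∈ A z)).card : ℝ)
      ≤ (∏ z ∈ Z, η z) * Fintype.card (Fin D → Fin D → α) := by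
  have h := card_cells2 Z A η hη hA
  have e : Fintype.card (Fin D → Fin D → α) = Fintype.card (Fin D × Fin D → α) :=
    Fintype.card_congr (Equiv.curry _ _ _).symm
  rw [e, Fintype.card_fun]
  push_cast
  refine le_trans (le_of_eq ?_) h
  norm_cast
  refine card_bij (fun X _ => fun z => X z.1 z.2) ?_ ?_ ?_
  · intro X hX
    simpa using hX
  · intro X _ Y _ hXY
    funext a b
    exact congrFun hXY (a, b)
  · intro X hX
    refine ⟨fun a b => X (a, b), ?_, rfl⟩
    simpa using hX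

/-- Fixed data: the cells `(F i j, j)` are distinct (`card_cells2` over `Fin D × Fin D`). -/
theorem la_fixed2 {D T h R M m Y : ℕ} (hT : 0 < T) (hR : 0 < R) (hM : 0 < M) (hRT : R = h * T)
    (hh : T ≤ 2 ^ h) (b : Fin D → Fin m) (G : Fin D → Finset (Fin R))
    (H : Finset (Fin D × Fin m × Fin R)) (F : Fin (Y + 1) → Fin D → Option (Fin D))
    (hG : ∀ k, R ≤ 2 * (G k).card)
    (hF : ∀ i i' j k, F i j = some k → F i' j = some k → i = i') :
    ((univ.filter (fun ω : Om D T h R M => ∀ i j k, F i j = some k → ((ω k j).1 : ℕ) = 0 ∨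
      (∀ p, (ω k j).2.1 p ∉ G k) ∨ ∃ p, (k, b j, (ω k j).2.1 p) ∈ H)).card : ℝ)
      ≤ (∏ i, ∏ j, (F i j).elim 1 (fun k => pw T H k (b j))) * Fintype.card (Om D T h R M) := by
  set Z : Finset (Fin D × Fin D) := univ.filter (fun z => ∃ i, F i z.2 = some z.1) with hZ
  have hpw : ∀ z : Fin D × Fin D, 0 ≤ pw T H z.1 (b z.2) := by
    intro z
    unfold pw
    have : (0 : ℝ) ≤ max 1 ((hb H z.1 (b z.2)).card : ℝ) := le_trans zero_le_one (le_max_left _ _)
    positivity
  have hc : ∏ i, ∏ j, (F i j).elim 1 (fun k => pw T H k (b j)) =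
      ∏ z ∈ Z, pw T H z.1 (b z.2) := by
    have e1 : ∏ i, ∏ j, (F i j).elim 1 (fun k => pw T H k (b j)) =
        ∏ x : Fin (Y + 1) × Fin D, (F x.1 x.2).elim 1 (fun k => pw T H k (b x.2)) := by
      rw [Fintype.prod_prod_type]
    rw [e1, ← prod_subset (subset_univ
      (univ.filter (fun x : Fin (Y + 1) × Fin D => (F x.1 x.2).isSome = true)))]
    · symm
      refine prod_bij' (fun z hz => (((mem_filter.1 hz).2).choose, z.2))
        (fun x _ => ((F x.1 x.2).getD x.2, x.2)) ?_ ?_ ?_ ?_ ?_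
      · intro z hz
        have := ((mem_filter.1 hz).2).choose_spec
        rw [mem_filter]
        refine ⟨mem_univ _, ?_⟩
        show (F _ z.2).isSome = true
        rw [this]
        rfl
      · rintro ⟨i, j⟩ hx
        obtain ⟨k, hk⟩ := Option.isSome_iff_exists.1 (mem_filter.1 hx).2
        simp only at hk
        rw [hZ, mem_filter]
        refine ⟨mem_univ _, i, ?_⟩
        show F i j = some ((F i j).getD j)
        rw [hk]
        rfl
      · intro z hz
        have := ((mem_filter.1 hz).2).choose_spec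
        apply Prod.ext
        · show (F _ z.2).getD z.2 = z.1
          rw [this]
          rfl
        · rfl
      · rintro ⟨i, j⟩ hx
        obtain ⟨k, hk⟩ := Option.isSome_iff_exists.1 (mem_filter.1 hx).2
        simp only at hk
        apply Prod.ext
        · have hz : ((F i j).getD j, j) ∈ Z := by
            rw [hZ, mem_filter]
            refine ⟨mem_univ _, i, ?_⟩
            show F i j = some ((F i j).getD j)
            rw [hk]
            rfl
          have h2 := ((mem_filter.1 hz).2).choose_spec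
          exact hF _ _ _ _ (h2.trans (by show some ((F i j).getD j) = some k; rw [hk]; rfl)) hk
        · rfl
      · intro z hz
        have := ((mem_filter.1 hz).2).choose_spec
        show _ = (F _ z.2).elim 1 _
        rw [this]
        rfl
    · intro x _ hx
      rw [mem_filter, not_and] at hx
      have := hx (mem_univ _)
      rw [Bool.not_eq_true, Option.isSome_eq_false_iff, Option.isNone_iff_eq_none] at this
      rw [this]
      rfl
  have hA : ∀ z ∈ Z, (((univ.filter (fun x : Fin T × (Fin h → Fin R) × Fin M => (x.1 : ℕ) = 0 ∨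
      (∀ p, x.2.1 p ∉ G z.1) ∨ ∃ p, x.2.1 p ∈ hb H z.1 (b z.2))).card : ℕ) : ℝ) ≤
        pw T H z.1 (b z.2) * Fintype.card (Fin T × (Fin h → Fin R) × Fin M) := by
    intro z _
    exact one_cellA hT hR hM hRT hh _ _ (hG z.1)
  have := e2_cells Z _ (fun z => pw T H z.1 (b z.2)) (fun z _ => hpw z) hA
  rw [hc]
  refine le_trans ?_ this
  norm_cast
  refine card_le_card ?_
  intro X hX
  simp only [mem_filter, mem_univ, true_and] at hX ⊢
  rintro ⟨k, j⟩ hz
  simp only [hZ, mem_filter, mem_univ, true_and] at hz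
  obtain ⟨i, hi⟩ := hz
  have := hX i j k hi
  simpa only [hb, mem_filter, mem_univ, true_and] using this

/-- Sum over the tuples of partial monotone maps: `exp(- sum of the domains)` is split off, then
`cnt_mix` for every `i`. -/
theorem la_sum2 {D m Y : ℕ} (b : Fin D → Fin m) (J : Finset (Fin D)) (X : Fin D → Fin m → Prop)
    (p0 : ℝ) (p : Fin D → Fin m → ℝ) (a : ℝ) (ha : 0 ≤ a) (h0 : 0 ≤ p0) (h1 : p0 ≤ 1 / 2)
    (hp0 : ∀ k β, 0 ≤ p k β) (hp1 : ∀ k β, p k β ≤ 1 / 2) (π : Fin D → Fin m → ℝ)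
    (hπ0 : ∀ k β, 0 ≤ π k β)
    (hπ : ∀ k β, π k β ≤ Real.exp (-1) * (if X k β then a * p k β else a * p0))
    (hb : (1 + a) ^ (2 * J.card) * Real.exp (2 * (D * p0) + 2 * ∑ β ∈ J.image b, ∑ k, p k β)
      ≤ Real.exp ((J.card : ℝ) / 250)) :
    ∑ F ∈ univ.filter (fun F : Fin (Y + 1) → Fin D → Option (Fin D) =>
      (∀ i, PM (F i)) ∧ (∀ i, dm (F i) ⊆ J) ∧ (Y + 1) * J.card ≤ 64 * ∑ i, (dm (F i)).card),
      ∏ i, ∏ j, (F i j).elim 1 (fun k => π k (b j))
      ≤ Real.exp (-(((Y : ℝ) + 1) * J.card / 200)) := by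
  set P : Finset (Fin D → Option (Fin D)) := univ.filter (fun f => PM f ∧ dm f ⊆ J) with hP
  set ρ : Fin D → Fin m → ℝ := fun k β => if X k β then a * p k β else a * p0 with hρ
  have hρ0 : ∀ k β, 0 ≤ ρ k β := by
    intro k β
    simp only [hρ]
    split_ifs
    · exact mul_nonneg ha (hp0 k β)
    · exact mul_nonneg ha h0
  have hone : ∀ f : Fin D → Option (Fin D), ∏ j, (f j).elim 1 (fun k => π k (b j)) ≤
      Real.exp (-((dm f).card : ℝ)) * ∏ j, (f j).elim 1 (fun k => ρ k (b j)) := by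
    intro f
    have e1 : Real.exp (-((dm f).card : ℝ)) = ∏ j, (f j).elim 1 (fun _ => Real.exp (-1)) := by
      rw [← prod_subset (subset_univ (dm f))]
      · rw [prod_congr rfl (g := fun _ => Real.exp (-1)), prod_const, ← Real.exp_nat_mul]
        · congr 1
          ring
        · intro j hj
          obtain ⟨k, hk⟩ := Option.isSome_iff_exists.1 (mem_filter.1 hj).2
          rw [hk]
          rfl
      · intro j _ hj
        rw [dm, mem_filter, not_and] at hj
        have := hj (mem_univ _)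
        rw [Bool.not_eq_true, Option.isSome_eq_false_iff, Option.isNone_iff_eq_none] at this
        rw [this]
        rfl
    rw [e1, ← prod_mul_distrib]
    refine prod_le_prod ?_ ?_
    · intro j _
      cases f j with
      | none => exact zero_le_one
      | some k => exact hπ0 _ _
    · intro j _
      cases f j with
      | none => simp
      | some k => exact hπ _ _
  have hq0 : ∀ f : Fin D → Option (Fin D), 0 ≤ ∏ j, (f j).elim 1 (fun k => ρ k (b j)) := by
    intro f
    refine prod_nonneg (fun j _ => ?_)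
    cases f j with
    | none => exact zero_le_one
    | some k => exact hρ0 _ _
  have hcnt : ∑ f ∈ P, ∏ j, (f j).elim 1 (fun k => ρ k (b j)) ≤
      Real.exp ((J.card : ℝ) / 250) :=
    (cnt_mix b J X p0 p a ha h0 h1 hp0 hp1).trans hb
  calc ∑ F ∈ univ.filter (fun F : Fin (Y + 1) → Fin D → Option (Fin D) =>
      (∀ i, PM (F i)) ∧ (∀ i, dm (F i) ⊆ J) ∧ (Y + 1) * J.card ≤ 64 * ∑ i, (dm (F i)).card),
      ∏ i, ∏ j, (F i j).elim 1 (fun k => π k (b j))
      ≤ ∑ F ∈ univ.filter (fun F : Fin (Y + 1) → Fin D → Option (Fin D) =>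
      (∀ i, PM (F i)) ∧ (∀ i, dm (F i) ⊆ J) ∧ (Y + 1) * J.card ≤ 64 * ∑ i, (dm (F i)).card),
        Real.exp (-(((Y : ℝ) + 1) * J.card / 64)) *
          ∏ i, ∏ j, (F i j).elim 1 (fun k => ρ k (b j)) := by
        refine sum_le_sum fun F hF => ?_
        simp only [mem_filter, mem_univ, true_and] at hF
        have e1 : ∏ i, ∏ j, (F i j).elim 1 (fun k => π k (b j)) ≤
            ∏ i, (Real.exp (-((dm (F i)).card : ℝ)) *
              ∏ j, (F i j).elim 1 (fun k => ρ k (b j))) := by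
          refine prod_le_prod ?_ (fun i _ => hone (F i))
          intro i _
          refine prod_nonneg (fun j _ => ?_)
          cases F i j with
          | none => exact zero_le_one
          | some k => exact hπ0 _ _
        refine e1.trans ?_
        rw [prod_mul_distrib, ← Real.exp_sum]
        refine mul_le_mul_of_nonneg_right ?_ (prod_nonneg (fun i _ => hq0 (F i)))
        refine Real.exp_le_exp.2 ?_
        rw [sum_neg_distrib, neg_le_neg_iff, div_le_iff₀ (by norm_num)]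
        have := hF.2.2
        have h2 : (((Y + 1) * J.card : ℕ) : ℝ) ≤ ((64 * ∑ i, (dm (F i)).card : ℕ) : ℝ) := by
          exact_mod_cast this
        push_cast at h2
        linarith
    _ = Real.exp (-(((Y : ℝ) + 1) * J.card / 64)) * ∑ F ∈ univ.filter
        (fun F : Fin (Y + 1) → Fin D → Option (Fin D) =>
      (∀ i, PM (F i)) ∧ (∀ i, dm (F i) ⊆ J) ∧ (Y + 1) * J.card ≤ 64 * ∑ i, (dm (F i)).card),
          ∏ i, ∏ j, (F i j).elim 1 (fun k => ρ k (b j)) := by
        rw [mul_sum]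
    _ ≤ Real.exp (-(((Y : ℝ) + 1) * J.card / 64)) *
        ∑ F ∈ Fintype.piFinset (fun _ : Fin (Y + 1) => P),
          ∏ i, ∏ j, (F i j).elim 1 (fun k => ρ k (b j)) := by
        refine mul_le_mul_of_nonneg_left ?_ (Real.exp_pos _).le
        refine sum_le_sum_of_subset_of_nonneg ?_ (fun F _ _ => prod_nonneg (fun i _ => hq0 (F i)))
        intro F hF
        simp only [mem_filter, mem_univ, true_and, Fintype.mem_piFinset, hP] at hF ⊢
        exact fun i => ⟨hF.1 i, hF.2.1 i⟩
    _ = Real.exp (-(((Y : ℝ) + 1) * J.card / 64)) *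
        ∏ _i : Fin (Y + 1), ∑ f ∈ P, ∏ j, (f j).elim 1 (fun k => ρ k (b j)) := by
        rw [prod_univ_sum]
    _ ≤ Real.exp (-(((Y : ℝ) + 1) * J.card / 64)) *
        Real.exp ((J.card : ℝ) / 250) ^ (Y + 1) := by
        rw [prod_const, card_univ, Fintype.card_fin]
        refine mul_le_mul_of_nonneg_left ?_ (Real.exp_pos _).le
        exact pow_le_pow_left₀ (sum_nonneg fun f _ => hq0 f) hcnt _
    _ ≤ _ := by
        rw [← Real.exp_nat_mul, ← Real.exp_add]
        refine Real.exp_le_exp.2 ?_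
        push_cast
        have : (0 : ℝ) ≤ ((Y : ℝ) + 1) * J.card := by positivity
        nlinarith

/-- Numbers: `la_sum2` with `a = 1/1000`, `p0 = 1/(400000 q)`, `X k β := 2 ≤ |hb H k β|`,
`p k β = 3000 e |hb H k β| / T` on `X` and `0` otherwise. Here `3/T ≤ exp(-1) a p0` and
`2 D p0 ≤ |J|/1000`, `2 sum p ≤ 6000 e |J| / (2 * 10^7) ≤ |J|/1000`, `(1+a)^(2|J|) ≤ exp(|J|/500)`. -/
theorem la_pi {D m n q l : ℕ} (hp : Par2 m n q l) (Y : ℕ) (b : Fin D → Fin m)
    (J : Finset (Fin D)) (H : Finset (Fin D × Fin m × Fin (qR q l)))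
    (hJ : D ≤ 200 * q * J.card) (hH : ∀ k β, (hb H k β).card ≤ qE0 q l)
    (he : 2 * 10 ^ 7 * (∑ β ∈ J.image b, ∑ k,
      if 2 ≤ (hb H k β).card then (hb H k β).card else 0) ≤ qT q l * J.card) :
    ∑ F ∈ univ.filter (fun F : Fin (Y + 1) → Fin D → Option (Fin D) =>
      (∀ i, PM (F i)) ∧ (∀ i, dm (F i) ⊆ J) ∧ (Y + 1) * J.card ≤ 64 * ∑ i, (dm (F i)).card),
      ∏ i, ∏ j, (F i j).elim 1 (fun k => pw (qT q l) H k (b j))
      ≤ Real.exp (-(((Y : ℝ) + 1) * J.card / 200)) := by
  have hq : (8 : ℝ) ≤ q := by exact_mod_cast hp.hq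
  have hl : (1 : ℝ) ≤ l := by exact_mod_cast hp.hl1
  have hq0 : (0 : ℝ) < q := by linarith
  have hl0 : (0 : ℝ) < l := by linarith
  have hT : (qT q l : ℝ) = 2 * 10 ^ 10 * q * l := by
    unfold qT
    push_cast
    ring
  have hT0 : (0 : ℝ) < qT q l := by
    rw [hT]
    positivity
  have hE : (qE0 q l : ℝ) = 5 * q * l := by
    unfold qE0
    push_cast
    ring
  have hexp1 : Real.exp 1 ≤ 2.72 := by
    have := Real.exp_one_lt_d9
    linarith
  have hexp0 : 0 < Real.exp 1 := Real.exp_pos _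
  have hneg : Real.exp (-1) = (Real.exp 1)⁻¹ := Real.exp_neg 1
  set p : Fin D → Fin m → ℝ := fun k β => if 2 ≤ (hb H k β).card then
    3000 * Real.exp 1 * ((hb H k β).card : ℝ) / qT q l else 0 with hpd
  have hJ' : (D : ℝ) ≤ 200 * q * J.card := by exact_mod_cast hJ
  have hJ0 : (0 : ℝ) ≤ J.card := Nat.cast_nonneg _
  have hD0 : (0 : ℝ) ≤ D := Nat.cast_nonneg _
  refine la_sum2 b J (fun k β => 2 ≤ (hb H k β).card) (1 / (400000 * q)) p (1 / 1000)
    (by norm_num) (by positivity) ?_ ?_ ?_ (fun k β => pw (qT q l) H k β) ?_ ?_ ?_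
  · rw [div_le_div_iff₀ (by positivity) (by norm_num)]
    linarith
  · intro k β
    simp only [hpd]
    split_ifs
    · positivity
    · exact le_rfl
  · intro k β
    simp only [hpd]
    split_ifs
    · rw [div_le_iff₀ hT0, hT]
      have h1 : ((hb H k β).card : ℝ) ≤ 5 * q * l := by
        rw [← hE]
        exact_mod_cast hH k β
      have h2 : Real.exp 1 * ((hb H k β).card : ℝ) ≤ 2.72 * (5 * q * l) :=
        mul_le_mul hexp1 h1 (Nat.cast_nonneg _) (by norm_num)
      have h3 : (0 : ℝ) < q * l := by positivity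
      nlinarith
    · norm_num
  · intro k β
    unfold pw
    have : (0 : ℝ) ≤ max 1 ((hb H k β).card : ℝ) := le_trans zero_le_one (le_max_left _ _)
    positivity
  · intro k β
    unfold pw
    simp only [hpd]
    split_ifs with h2
    · have h1 : (1 : ℝ) ≤ ((hb H k β).card : ℝ) := by exact_mod_cast (by omega : 1 ≤ (hb H k β).card)
      rw [max_eq_right h1, hneg]
      refine le_of_eq ?_
      field_simp
      norm_num
    · have h1 : ((hb H k β).card : ℝ) ≤ 1 := by exact_mod_cast (by omega : (hb H k β).card ≤ 1)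
      rw [max_eq_left h1, hneg, hT]
      have h3 : (1 : ℝ) / 2.72 ≤ (Real.exp 1)⁻¹ := by
        rw [inv_eq_one_div]
        exact one_div_le_one_div_of_le hexp0 hexp1
      have h4 : 3 * 1 / (2 * 10 ^ 10 * (q : ℝ) * l) ≤
          1 / 2.72 * (1 / 1000 * (1 / (400000 * (q : ℝ)))) := by
        rw [div_le_iff₀ (by positivity)]
        have : 1 / 2.72 * (1 / 1000 * (1 / (400000 * (q : ℝ)))) * (2 * 10 ^ 10 * (q : ℝ) * l) =
            50 / 2.72 * l := by
          field_simp
          norm_num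
        rw [this]
        nlinarith
      exact h4.trans (mul_le_mul_of_nonneg_right h3 (by positivity))
  · have hs : ∑ β ∈ J.image b, ∑ k, p k β = 3000 * Real.exp 1 / qT q l *
        ((∑ β ∈ J.image b, ∑ k,
          if 2 ≤ (hb H k β).card then (hb H k β).card else 0 : ℕ) : ℝ) := by
      push_cast
      rw [mul_sum]
      refine sum_congr rfl (fun β _ => ?_)
      rw [mul_sum]
      refine sum_congr rfl (fun k _ => ?_)
      simp only [hpd]
      split_ifs
      · ring
      · simp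
    have he' : 2 * 10 ^ 7 * ((∑ β ∈ J.image b, ∑ k,
          if 2 ≤ (hb H k β).card then (hb H k β).card else 0 : ℕ) : ℝ) ≤ qT q l * J.card := by
      exact_mod_cast he
    set S : ℝ := ((∑ β ∈ J.image b, ∑ k,
          if 2 ≤ (hb H k β).card then (hb H k β).card else 0 : ℕ) : ℝ) with hS
    have hSb : 2 * (3000 * Real.exp 1 / qT q l * S) ≤ J.card / 1000 := by
      have h1 : S ≤ qT q l * J.card / (2 * 10 ^ 7) := by
        rw [le_div_iff₀ (by norm_num)]
        linarith
      have h2 : 2 * (3000 * Real.exp 1 / qT q l * S) ≤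
          2 * (3000 * Real.exp 1 / qT q l * (qT q l * J.card / (2 * 10 ^ 7))) := by
        refine mul_le_mul_of_nonneg_left (mul_le_mul_of_nonneg_left h1 (by positivity)) (by norm_num)
      refine h2.trans ?_
      have h3 : 2 * (3000 * Real.exp 1 / qT q l * (qT q l * J.card / (2 * 10 ^ 7))) =
          3 / 10000 * Real.exp 1 * J.card := by
        field_simp
        ring
      rw [h3]
      have h4 : 3 / 10000 * Real.exp 1 ≤ 1 / 1000 := by linarith
      calc 3 / 10000 * Real.exp 1 * J.card ≤ 1 / 1000 * J.card :=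
            mul_le_mul_of_nonneg_right h4 hJ0
        _ = J.card / 1000 := by ring
    have hDb : 2 * ((D : ℝ) * (1 / (400000 * q))) ≤ J.card / 1000 := by
      have h1 : (D : ℝ) * (1 / (400000 * q)) ≤ 200 * q * J.card * (1 / (400000 * q)) :=
        mul_le_mul_of_nonneg_right hJ' (by positivity)
      have h2 : 200 * (q : ℝ) * J.card * (1 / (400000 * q)) = J.card / 2000 := by
        field_simp
        ring
      linarith
    have hpow : (1 + 1 / 1000 : ℝ) ^ (2 * J.card) ≤ Real.exp (J.card / 500) := by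
      have h1 : (1 + 1 / 1000 : ℝ) ≤ Real.exp (1 / 1000) := by
        have := Real.add_one_le_exp (1 / 1000 : ℝ)
        linarith
      calc (1 + 1 / 1000 : ℝ) ^ (2 * J.card) ≤ Real.exp (1 / 1000) ^ (2 * J.card) :=
            pow_le_pow_left₀ (by norm_num) h1 _
        _ = Real.exp (J.card / 500) := by
            rw [← Real.exp_nat_mul]
            congr 1
            push_cast
            ring
    rw [hs]
    calc (1 + 1 / 1000 : ℝ) ^ (2 * J.card) *
          Real.exp (2 * ((D : ℝ) * (1 / (400000 * q))) + 2 * (3000 * Real.exp 1 / qT q l * S))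
        ≤ Real.exp (J.card / 500) * Real.exp (J.card / 1000 + J.card / 1000) :=
          mul_le_mul hpow (Real.exp_le_exp.2 (add_le_add hDb hSb)) (Real.exp_pos _).le
            (Real.exp_pos _).le
      _ = Real.exp ((J.card : ℝ) / 250) := by
          rw [← Real.exp_add]
          congr 1
          ring

/-- Union bound over the data `(b, J, G, H, F)`, abstract numbers. -/
theorem la_union {D T h R M m q E0 Y : ℕ} (hT : 0 < T) (hR : 0 < R) (hM : 0 < M)
    (hRT : R = h * T) (hh : T ≤ 2 ^ h) (Z : ℝ) (hZ : 0 ≤ Z)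
    (hsum : ∀ (b : Fin D → Fin m) (J : Finset (Fin D)) (H : Finset (Fin D × Fin m × Fin R)),
      D ≤ 200 * q * J.card → (∀ k β, (hb H k β).card ≤ E0) →
      2 * 10 ^ 7 * (∑ β ∈ J.image b, ∑ k, if 2 ≤ (hb H k β).card then (hb H k β).card else 0)
        ≤ T * J.card →
      ∑ F ∈ univ.filter (fun F : Fin (Y + 1) → Fin D → Option (Fin D) =>
        (∀ i, PM (F i)) ∧ (∀ i, dm (F i) ⊆ J) ∧ (Y + 1) * J.card ≤ 64 * ∑ i, (dm (F i)).card),
        ∏ i, ∏ j, (F i j).elim 1 (fun k => pw T H k (b j)) ≤ Z) :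
    ((univ.filter (fun ω : Om D T h R M => ¬ GoodA m q E0 Y ω)).card : ℝ)
      ≤ ((m : ℝ) ^ D * 2 ^ D * 2 ^ (R * D) *
        ((univ.filter (fun H : Finset (Fin D × Fin m × Fin R) => H.card ≤ 2 * R * D)).card : ℝ))
        * Z * Fintype.card (Om D T h R M) := by
  let S := (Fin D → Fin m) × (Finset (Fin D)) × (Fin D → Finset (Fin R)) ×
    (Finset (Fin D × Fin m × Fin R)) × (Fin (Y + 1) → Fin D → Option (Fin D))
  let C1 : S → Prop := fun t => D ≤ 200 * q * t.2.1.card ∧
    (∀ k β, (hb t.2.2.2.1 k β).card ≤ E0) ∧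
    2 * 10 ^ 7 * (∑ β ∈ t.2.1.image t.1, ∑ k,
      if 2 ≤ (hb t.2.2.2.1 k β).card then (hb t.2.2.2.1 k β).card else 0) ≤ T * t.2.1.card
  let C2 : S → Prop := fun t => (∀ i, PM (t.2.2.2.2 i)) ∧ (∀ i, dm (t.2.2.2.2 i) ⊆ t.2.1) ∧
    (Y + 1) * t.2.1.card ≤ 64 * ∑ i, (dm (t.2.2.2.2 i)).card
  let C3 : S → Prop := fun t => (∀ k, R ≤ 2 * (t.2.2.1 k).card) ∧
    (∀ i i' j k, t.2.2.2.2 i j = some k → t.2.2.2.2 i' j = some k → i = i')
  let bad : S → Om D T h R M → Prop := fun t ω => (C1 t ∧ t.2.2.2.1.card ≤ 2 * R * D ∧ C2 t ∧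
    C3 t) ∧ ∀ i j k, t.2.2.2.2 i j = some k → ((ω k j).1 : ℕ) = 0 ∨
      (∀ p, (ω k j).2.1 p ∉ t.2.2.1 k) ∨ ∃ p, (k, t.1 j, (ω k j).2.1 p) ∈ t.2.2.2.1
  let W : S → ℝ := fun t => ∏ i, ∏ j, (t.2.2.2.2 i j).elim 1
    (fun k => pw T t.2.2.2.1 k (t.1 j))
  let p : S → ℝ := fun t => if C1 t ∧ t.2.2.2.1.card ≤ 2 * R * D ∧ C2 t then W t else 0
  have hW : ∀ t, 0 ≤ W t := by
    intro t
    refine prod_nonneg (fun i _ => prod_nonneg (fun j _ => ?_))
    cases t.2.2.2.2 i j with
    | none => exact zero_le_one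
    | some k =>
      show 0 ≤ pw T t.2.2.2.1 k (t.1 j)
      unfold pw
      have : (0 : ℝ) ≤ max 1 ((hb t.2.2.2.1 k (t.1 j)).card : ℝ) :=
        le_trans zero_le_one (le_max_left _ _)
      positivity
  have hp0 : ∀ t, 0 ≤ p t := by
    intro t
    simp only [p]
    split_ifs
    · exact hW t
    · exact le_rfl
  have hbad : ∀ t, ((univ.filter (fun ω => bad t ω)).card : ℝ)
      ≤ p t * Fintype.card (Om D T h R M) := by
    intro t
    by_cases hC : C1 t ∧ t.2.2.2.1.card ≤ 2 * R * D ∧ C2 t ∧ C3 t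
    · have hpt : p t = W t := by
        simp only [p]
        rw [if_pos ⟨hC.1, hC.2.1, hC.2.2.1⟩]
      rw [hpt]
      refine le_trans ?_ (la_fixed2 hT hR hM hRT hh t.1 t.2.2.1 t.2.2.2.1 t.2.2.2.2
        hC.2.2.2.1 hC.2.2.2.2)
      refine Nat.cast_le.2 (card_le_card ?_)
      intro ω hω
      rw [mem_filter] at hω ⊢
      exact ⟨mem_univ _, hω.2.2⟩
    · have : univ.filter (fun ω => bad t ω) = ∅ := by
        rw [filter_eq_empty_iff]
        intro ω _ hω
        exact hC hω.1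
      rw [this, card_empty, Nat.cast_zero]
      exact mul_nonneg (hp0 t) (Nat.cast_nonneg _)
  have hu := union_card bad p hbad
  have hsub : ((univ.filter (fun ω : Om D T h R M => ¬ GoodA m q E0 Y ω)).card : ℝ) ≤
      ((univ.filter (fun ω => ∃ t, bad t ω)).card : ℝ) := by
    refine Nat.cast_le.2 (card_le_card ?_)
    intro ω hω
    rw [mem_filter] at hω ⊢
    refine ⟨mem_univ _, ?_⟩
    by_contra hcon
    apply hω.2
    intro b J G H F c1 c2 c3 c4 c5 c6 c7 c8 c9
    by_contra hcon2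
    apply hcon
    refine ⟨(b, J, G, H, F), ⟨⟨c1, c4, c5⟩, c3, ⟨c6, c7, c9⟩, ⟨c2, c8⟩⟩, ?_⟩
    intro i j k hk
    by_contra hcon3
    push Not at hcon3
    exact hcon2 ⟨i, j, k, hk, hcon3.1, hcon3.2.1, hcon3.2.2⟩
  refine hsub.trans (hu.trans (mul_le_mul_of_nonneg_right ?_ (Nat.cast_nonneg _)))
  have e1 : ∑ t : S, p t = ∑ b : (Fin D → Fin m), ∑ J : Finset (Fin D),
      ∑ G : (Fin D → Finset (Fin R)), ∑ H : Finset (Fin D × Fin m × Fin R),
        ∑ F : (Fin (Y + 1) → Fin D → Option (Fin D)), p (b, J, G, H, F) := by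
    rw [Fintype.sum_prod_type]
    refine sum_congr rfl (fun b _ => ?_)
    rw [Fintype.sum_prod_type]
    refine sum_congr rfl (fun J _ => ?_)
    rw [Fintype.sum_prod_type]
    refine sum_congr rfl (fun G _ => ?_)
    rw [Fintype.sum_prod_type]
  rw [e1]
  have e2 : ∀ (b : Fin D → Fin m) (J : Finset (Fin D)) (G : Fin D → Finset (Fin R))
      (H : Finset (Fin D × Fin m × Fin R)),
      ∑ F : (Fin (Y + 1) → Fin D → Option (Fin D)), p (b, J, G, H, F) ≤
        (if H.card ≤ 2 * R * D then (1 : ℝ) else 0) * Z := by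
    intro b J G H
    by_cases hc : C1 (b, J, G, H, fun _ _ => none) ∧ H.card ≤ 2 * R * D
    · rw [if_pos hc.2, one_mul]
      refine le_trans (le_of_eq ?_) (hsum b J H hc.1.1 hc.1.2.1 hc.1.2.2)
      rw [sum_filter]
      refine sum_congr rfl (fun F _ => ?_)
      simp only [p]
      refine if_congr ?_ rfl rfl
      exact ⟨fun h => h.2.2, fun h => ⟨hc.1, hc.2, h⟩⟩
    · have : ∑ F : (Fin (Y + 1) → Fin D → Option (Fin D)), p (b, J, G, H, F) = 0 := by
        refine sum_eq_zero (fun F _ => ?_)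
        simp only [p]
        rw [if_neg]
        intro h
        exact hc ⟨h.1, h.2.1⟩
      rw [this]
      split_ifs
      · rw [one_mul]
        exact hZ
      · rw [zero_mul]
  refine (sum_le_sum fun b _ => sum_le_sum fun J _ => sum_le_sum fun G _ =>
    sum_le_sum fun H _ => e2 b J G H).trans (le_of_eq ?_)
  simp only [← sum_mul, sum_boole, sum_const, card_univ, Fintype.card_fun, Fintype.card_fin,
    Fintype.card_finset, nsmul_eq_mul]
  push_cast
  rw [pow_mul]

private theorem e6_basic {m n q l : ℕ} (hp : Par2 m n q l) : 10 ^ 17 ≤ m ∧ qR q l ≤ m := by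
  have hq : 8 ≤ q := hp.hq
  have hl1 : 1 ≤ l := hp.hl1
  have hqm : 10 ^ 17 * (q ^ 3 * l ^ 3) ≤ m := by
    refine le_trans (le_of_eq ?_) hp.hP
    ring
  have h1ql : 1 ≤ q ^ 3 * l ^ 3 :=
    Nat.mul_pos (Nat.pow_pos (by omega)) (Nat.pow_pos (by omega))
  constructor
  · refine le_trans ?_ hqm
    calc 10 ^ 17 = 10 ^ 17 * 1 := (mul_one _).symm
      _ ≤ 10 ^ 17 * (q ^ 3 * l ^ 3) := Nat.mul_le_mul_left _ h1ql
  · refine le_trans ?_ hqm
    unfold qR qh qT
    have h42 : 2 * l + 40 ≤ 42 * l := by omega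
    calc (2 * l + 40) * (2 * 10 ^ 10 * q * l) ≤ 42 * l * (2 * 10 ^ 10 * q * l) :=
          Nat.mul_le_mul_right _ h42
      _ = 84 * 10 ^ 10 * (q * (l * l)) := by ring
      _ ≤ 10 ^ 17 * (q ^ 3 * l ^ 3) := by
          refine Nat.mul_le_mul (by norm_num) ?_
          refine Nat.mul_le_mul ?_ ?_
          · calc q = q ^ 1 := (pow_one _).symm
              _ ≤ q ^ 3 := Nat.pow_le_pow_right (by omega) (by norm_num)
          · calc l * l = l ^ 2 := (sq l).symm
              _ ≤ l ^ 3 := Nat.pow_le_pow_right hl1 (by norm_num)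

/-- Numbers of Lemma A. Logarithms: `D (l + 2 ln 2 + R ln 2 + 4 R l + 1) ≤ 5 * 10^12 q l^3 D` and
`(n/2 + 1) D / (40000 q) ≥ m D / (10^4 q^2) ≥ 10^13 q l^3 D`. -/
theorem la_num2 {m n q l D : ℕ} (hp : Par2 m n q l) (hD : 2 ≤ D) :
    ((m : ℝ) ^ D * 2 ^ D * 2 ^ (qR q l * D) *
      (((m * qR q l : ℕ) : ℝ) ^ (2 * qR q l * D) * Real.exp D)) *
      Real.exp (-((((n / 2 : ℕ) : ℝ) + 1) * D / (40000 * q))) ≤ 1 / 4 := by
  have hb := e6_basic hp
  obtain ⟨hm17, hRm⟩ := hb
  have hq : (8 : ℝ) ≤ q := by exact_mod_cast hp.hq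
  have hl : (1 : ℝ) ≤ l := by exact_mod_cast hp.hl1
  have hq0 : (0 : ℝ) < q := by linarith
  have hl0 : (0 : ℝ) < l := by linarith
  have hD' : (2 : ℝ) ≤ D := by exact_mod_cast hD
  have hD0 : (0 : ℝ) < D := by linarith
  have hP : (10 : ℝ) ^ 17 * (q : ℝ) ^ 3 * (l : ℝ) ^ 3 ≤ m := by exact_mod_cast hp.hP
  have hqn : 8 * (m : ℝ) ≤ n * q := by exact_mod_cast hp.hqn
  have hm0 : (0 : ℝ) < m := by
    have : 0 < m := lt_of_lt_of_le (by norm_num) hm17
    exact_mod_cast this
  have hml : (m : ℝ) ≤ Real.exp l := by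
    rw [← Real.exp_log hm0]
    exact Real.exp_le_exp.2 hp.hl
  have hR0 : (0 : ℝ) ≤ (qR q l : ℝ) := Nat.cast_nonneg _
  have hRe : (qR q l : ℝ) = (2 * l + 40) * (2 * 10 ^ 10 * q * l) := by
    unfold qR qh qT
    push_cast
    ring
  have hRb : (qR q l : ℝ) ≤ 84 * 10 ^ 10 * (q * l ^ 2) := by
    rw [hRe]
    have h1 : (2 * (l : ℝ) + 40) ≤ 42 * l := by linarith
    calc (2 * (l : ℝ) + 40) * (2 * 10 ^ 10 * q * l) ≤ 42 * l * (2 * 10 ^ 10 * q * l) :=
          mul_le_mul_of_nonneg_right h1 (by positivity)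
      _ = 84 * 10 ^ 10 * (q * l ^ 2) := by ring
  have hRm' : (qR q l : ℝ) ≤ m := by exact_mod_cast hRm
  clear hp hRe
  generalize (qR q l : ℕ) = R at *
  clear hm17 hRm
  have f1 : (m : ℝ) ^ D ≤ Real.exp (D * l) := by
    rw [Real.exp_nat_mul]
    exact pow_le_pow_left₀ hm0.le hml D
  have h2e : (2 : ℝ) ≤ Real.exp 1 := by
    have := Real.add_one_le_exp (1 : ℝ)
    linarith
  have f0 : (2 : ℝ) ^ D ≤ Real.exp D := by
    calc (2 : ℝ) ^ D ≤ Real.exp 1 ^ D := pow_le_pow_left₀ (by norm_num) h2e _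
      _ = Real.exp D := by
          rw [← Real.exp_nat_mul, mul_one]
  have f2 : (2 : ℝ) ^ (R * D) ≤ Real.exp (R * D) := by
    calc (2 : ℝ) ^ (R * D) ≤ Real.exp 1 ^ (R * D) := pow_le_pow_left₀ (by norm_num) h2e _
      _ = Real.exp (R * D) := by
          rw [← Real.exp_nat_mul]
          push_cast
          rw [mul_one]
  have f3 : ((m * R : ℕ) : ℝ) ^ (2 * R * D) ≤ Real.exp ((2 * R * D) * (2 * l)) := by
    have h1 : Real.exp ((2 * (R : ℝ) * D) * (2 * l)) = Real.exp (2 * l) ^ (2 * R * D) := by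
      rw [← Real.exp_nat_mul]
      congr 1
      push_cast
      ring
    rw [h1]
    refine pow_le_pow_left₀ (Nat.cast_nonneg _) ?_ _
    push_cast
    calc (m : ℝ) * (R : ℝ) ≤ Real.exp l * Real.exp l :=
          mul_le_mul hml (le_trans hRm' hml) hR0 (Real.exp_pos _).le
      _ = Real.exp (2 * l) := by rw [← Real.exp_add]; congr 1; ring
  have hquart : Real.exp (-2) ≤ 1 / 4 := by
    rw [Real.exp_neg, ← one_div]
    refine one_div_le_one_div_of_le (by norm_num) ?_
    have : Real.exp 2 = Real.exp 1 * Real.exp 1 := by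
      rw [← Real.exp_add]
      norm_num
    rw [this]
    nlinarith
  refine le_trans ?_ hquart
  have hexp : ((m : ℝ) ^ D * 2 ^ D * 2 ^ (R * D) *
      (((m * R : ℕ) : ℝ) ^ (2 * R * D) * Real.exp D)) *
      Real.exp (-((((n / 2 : ℕ) : ℝ) + 1) * D / (40000 * q))) ≤
      Real.exp (D * l + D + R * D + ((2 * R * D) * (2 * l) + D) +
        -((((n / 2 : ℕ) : ℝ) + 1) * D / (40000 * q))) := by
    rw [Real.exp_add, Real.exp_add (D * l + D + R * D : ℝ), Real.exp_add (D * l + D : ℝ),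
      Real.exp_add (D * l : ℝ), Real.exp_add ((2 * R * D) * (2 * l) : ℝ)]
    refine mul_le_mul_of_nonneg_right ?_ (Real.exp_pos _).le
    refine mul_le_mul ?_ (mul_le_mul_of_nonneg_right f3 (Real.exp_pos _).le) ?_ ?_
    · refine mul_le_mul (mul_le_mul f1 f0 (pow_nonneg (by norm_num) _) (Real.exp_pos _).le) f2
        (pow_nonneg (by norm_num) _) ?_
      exact mul_nonneg (Real.exp_pos _).le (Real.exp_pos _).le
    · exact mul_nonneg (pow_nonneg (Nat.cast_nonneg _) _) (Real.exp_pos _).le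
    · exact mul_nonneg (mul_nonneg (Real.exp_pos _).le (Real.exp_pos _).le) (Real.exp_pos _).le
  refine hexp.trans (Real.exp_le_exp.2 ?_)
  clear hexp f1 f0 f2 f3 hquart h2e hml hRm'
  have hn : (n : ℝ) / 2 ≤ ((n / 2 : ℕ) : ℝ) + 1 := by
    have h1 : n ≤ 2 * (n / 2 + 1) := by omega
    have h2 : (n : ℝ) ≤ ((2 * (n / 2 + 1) : ℕ) : ℝ) := by exact_mod_cast h1
    rw [Nat.cast_mul, Nat.cast_add] at h2
    push_cast at h2
    linarith
  set N : ℝ := ((n / 2 : ℕ) : ℝ) + 1 with hN
  set P : ℝ := (q : ℝ) * l ^ 3 with hPd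
  have hP1 : 8 ≤ P := by
    have h1 : (1 : ℝ) ≤ (l : ℝ) ^ 3 := one_le_pow₀ hl
    have h2 : (q : ℝ) * 1 ≤ q * l ^ 3 := mul_le_mul_of_nonneg_left h1 hq0.le
    linarith
  have hNm : 10 ^ 13 * P ≤ N / (40000 * q) := by
    rw [le_div_iff₀ (by positivity)]
    have h1 : 4 * (m : ℝ) ≤ N * q := by nlinarith
    have h2 : 4 * ((10 : ℝ) ^ 17 * q ^ 3 * l ^ 3) ≤ N * q := by linarith
    have h3 : (4 * 10 ^ 17 * (q ^ 2 * l ^ 3)) * (q : ℝ) ≤ N * q := by
      refine le_trans (le_of_eq ?_) h2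
      ring
    have h4 := le_of_mul_le_mul_right h3 hq0
    refine le_trans (le_of_eq ?_) h4
    rw [hPd]
    ring
  have hRl : (R : ℝ) * l ≤ 84 * 10 ^ 10 * P := by
    calc (R : ℝ) * l ≤ 84 * 10 ^ 10 * (q * l ^ 2) * l := mul_le_mul_of_nonneg_right hRb hl0.le
      _ = 84 * 10 ^ 10 * P := by rw [hPd]; ring
  have hR1 : (R : ℝ) ≤ R * l := le_mul_of_one_le_right hR0 hl
  have hlP : (l : ℝ) ≤ P := by
    have h1 : (l : ℝ) ^ 1 ≤ (l : ℝ) ^ 3 := pow_le_pow_right₀ hl (by norm_num)
    have h2 : (1 : ℝ) * l ^ 3 ≤ q * l ^ 3 := mul_le_mul_of_nonneg_right (by linarith) (by positivity)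
    rw [pow_one] at h1
    linarith
  have hmain : (D : ℝ) * l + D + R * D + ((2 * R * D) * (2 * l) + D) + -(N * D / (40000 * q)) =
      D * (l + 2 + R + 4 * (R * l) - N / (40000 * q)) := by
    field_simp
    ring
  rw [hmain]
  have hneg : l + 2 + R + 4 * (R * l) - N / (40000 * q) ≤ -1 := by
    linarith
  calc (D : ℝ) * (l + 2 + R + 4 * (R * l) - N / (40000 * q)) ≤ D * (-1) :=
        mul_le_mul_of_nonneg_left hneg hD0.le
    _ ≤ -2 := by linarith

/-- Basic numbers. -/
theorem par_basic {m n q l : ℕ} (hp : Par2 m n q l) :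
    0 < qT q l ∧ 0 < qR q l ∧ qT q l ≤ 2 ^ (qh l) ∧ 10 ^ 17 ≤ m ∧ qR q l ≤ m := by
  have hq : 8 ≤ q := hp.hq
  have hl1 : 1 ≤ l := hp.hl1
  have hP := hp.hP
  have hT : 0 < qT q l := by
    unfold qT
    positivity
  have hh : 0 < qh l := by
    unfold qh
    omega
  have hR : 0 < qR q l := by
    unfold qR
    exact Nat.mul_pos hh hT
  have hql : q * l ≤ q ^ 3 * l ^ 3 := by
    have h1 : 1 ≤ q * l := Nat.mul_pos (by omega) hl1
    calc q * l = (q * l) ^ 1 := (pow_one _).symm
      _ ≤ (q * l) ^ 3 := Nat.pow_le_pow_right h1 (by norm_num)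
      _ = q ^ 3 * l ^ 3 := mul_pow _ _ _
  have hqm : 10 ^ 17 * (q ^ 3 * l ^ 3) ≤ m := by
    refine le_trans (le_of_eq ?_) hP
    ring
  have h1ql : 1 ≤ q ^ 3 * l ^ 3 := le_trans (Nat.mul_pos (by omega) hl1) hql
  have hm17 : 10 ^ 17 ≤ m := by
    refine le_trans ?_ hqm
    calc 10 ^ 17 = 10 ^ 17 * 1 := (mul_one _).symm
      _ ≤ 10 ^ 17 * (q ^ 3 * l ^ 3) := Nat.mul_le_mul_left _ h1ql
  refine ⟨hT, hR, ?_, hm17, ?_⟩
  · have hm0 : (0 : ℝ) < m := by
      have : 0 < m := lt_of_lt_of_le (by norm_num) hm17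
      exact_mod_cast this
    have hm4 : (m : ℝ) ≤ ((4 ^ l : ℕ) : ℝ) := by
      have h1 : (m : ℝ) ≤ Real.exp l := by
        rw [← Real.exp_log hm0]
        exact Real.exp_le_exp.2 hp.hl
      refine h1.trans ?_
      have h2 : Real.exp 1 ≤ 4 := by
        have := Real.exp_one_lt_d9
        linarith
      push_cast
      calc Real.exp (l : ℝ) = Real.exp 1 ^ l := by
            rw [← Real.exp_nat_mul, mul_one]
        _ ≤ 4 ^ l := pow_le_pow_left₀ (Real.exp_pos _).le h2 _
    have hm4' : m ≤ 4 ^ l := by exact_mod_cast hm4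
    have e1 : 2 ^ (qh l) = 4 ^ l * 2 ^ 40 := by
      unfold qh
      rw [pow_add, pow_mul]
      norm_num
    rw [e1]
    have e2 : qT q l = q * l * (2 * 10 ^ 10) := by
      unfold qT
      ring
    rw [e2]
    refine Nat.mul_le_mul ?_ (by norm_num)
    refine le_trans hql (le_trans ?_ (le_trans hqm hm4'))
    exact Nat.le_mul_of_pos_left _ (by norm_num)
  · refine le_trans ?_ hqm
    unfold qR qh qT
    have h42 : 2 * l + 40 ≤ 42 * l := by omega
    calc (2 * l + 40) * (2 * 10 ^ 10 * q * l) ≤ 42 * l * (2 * 10 ^ 10 * q * l) :=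
          Nat.mul_le_mul_right _ h42
      _ = 84 * 10 ^ 10 * (q * (l * l)) := by ring
      _ ≤ 10 ^ 17 * (q ^ 3 * l ^ 3) := by
          refine Nat.mul_le_mul (by norm_num) ?_
          refine Nat.mul_le_mul ?_ ?_
          · calc q = q ^ 1 := (pow_one _).symm
              _ ≤ q ^ 3 := Nat.pow_le_pow_right (by omega) (by norm_num)
          · calc l * l = l ^ 2 := (sq l).symm
              _ ≤ l ^ 3 := Nat.pow_le_pow_right hl1 (by norm_num)

theorem la_exp {n q D : ℕ} (hq : 8 ≤ q) (J : Finset (Fin D)) (hJ : D ≤ 200 * q * J.card) :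
    Real.exp (-((((n / 2 : ℕ) : ℝ) + 1) * J.card / 200))
      ≤ Real.exp (-((((n / 2 : ℕ) : ℝ) + 1) * D / (40000 * q))) := by
  have hq8 : (8 : ℝ) ≤ q := by exact_mod_cast hq
  apply Real.exp_le_exp.mpr
  have h1 : (D : ℝ) ≤ 200 * q * J.card := by exact_mod_cast hJ
  have h2 : (0 : ℝ) ≤ ((n / 2 : ℕ) : ℝ) + 1 := by positivity
  have h3 : (0 : ℝ) < 40000 * q := by linarith
  rw [neg_le_neg_iff, div_le_div_iff₀ h3 (by norm_num)]
  nlinarith [mul_le_mul_of_nonneg_left h1 h2]

/-- LEMMA A. -/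
theorem lemA2 {D M m n q l : ℕ} (hp : Par2 m n q l) (hM : M + 1 = m) (hD : 2 ≤ D) :
    ((univ.filter (fun ω : Om D (qT q l) (qh l) (qR q l) M =>
      ¬ GoodA m q (qE0 q l) (n / 2) ω)).card : ℝ)
      ≤ 1 / 4 * Fintype.card (Om D (qT q l) (qh l) (qR q l) M) := by
  have hb := par_basic hp
  have hm0 : 2 ≤ m := le_trans (by norm_num) hb.2.2.2.1
  have hM0 : 0 < M := by clear hb; omega
  have hR : 0 < qR q l := hb.2.1
  have h := la_union (D := D) (M := M) (m := m) (q := q) (E0 := qE0 q l) (Y := n / 2) hb.1 hR hM0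
    (rfl : qR q l = qh l * qT q l) hb.2.2.1
    (Real.exp (-((((n / 2 : ℕ) : ℝ) + 1) * D / (40000 * q)))) (Real.exp_nonneg _)
    (fun b J H hJ hH he => (la_pi hp (n / 2) b J H hJ hH he).trans (la_exp hp.hq J hJ))
  clear hb
  refine h.trans ?_
  clear h
  refine mul_le_mul_of_nonneg_right ?_ (Nat.cast_nonneg _)
  refine le_trans ?_ (la_num2 hp hD)
  refine mul_le_mul_of_nonneg_right ?_ (Real.exp_nonneg _)
  have hcard := card_small (α := Fin D × Fin m × Fin (qR q l)) (2 * qR q l * D) (m * qR q l) D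
    (Nat.mul_pos (by omega) hR) (by
      simp only [Fintype.card_prod, Fintype.card_fin]
      exact le_of_eq (by ring))
  refine mul_le_mul_of_nonneg_left hcard ?_
  have : (0 : ℝ) ≤ m := Nat.cast_nonneg _
  exact mul_nonneg (mul_nonneg (pow_nonneg this _) (pow_nonneg zero_le_two _))
    (pow_nonneg zero_le_two _)

end Pool.Agent.Rez
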