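import Mathlib
import Pool.Agent.Rez.Cel
import Pool.Agent.Rez.Env
import Pool.Agent.Rez.Hds
import Pool.Agent.Rez.LA

set_option autoImplicit false

namespace Pool.Agent.Rez

open Finset
open Pool.Agent.Rey
open scoped Classical

/-- `D (R + 2 E0) ≤ 2 R D`. -/
theorem HH2_par {D M m n q l : ℕ} (hp : Par2 m n q l) (hM : M + 1 = m)
    (c : Fin D → Fin M → Fin m) (I : Finset (Fin m)) :
    (HH2 (qR q l) (qE0 q l) c I).card ≤ 2 * qR q l * D := by
  have h0 : 0 < q * l := Nat.mul_pos (by have := hp.hq; omega) hp.hl1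
  have hRl : qR q l = (2 * l + 40) * (20000000000 * (q * l)) := by
    unfold qR qh qT
    ring
  have h1 : 2 * qE0 q l ≤ qR q l := by
    rw [hRl]
    unfold qE0
    nlinarith
  have hR : 0 < qR q l := by
    rw [hRl]
    positivity
  have h2 := HH2_card (R := qR q l) (E0 := qE0 q l) c hM hR I
  nlinarith

/-- CASE A. `env_apply2` with `Y = n / 2`; `F i j := some (f i j).1` if `j ∈ JJ` and the column is
light, `none` otherwise; `G k := gb` if `R ≤ 2 |gb|`, `univ` otherwise; `H := HH2` (`HH2_par`,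
`HH2_deg`, `eff_cond`). If `64 sum |dm (F i)| ≥ (Y+1) |JJ|`, `GoodA` gives a cell and `ord_cell2`
(`E0 ≤ E1`) contradicts it; so `64 |dm (F i)| < |JJ|` for some `i ≤ Y`. See the proof of
`Pool.Agent.Rey.caseA`. -/
theorem caseA2 {D M m n q l : ℕ} (hp : Par2 m n q l) (hM : M + 1 = m) (hD : 2 ≤ D)
    (ω : Om D (qT q l) (qh l) (qR q l) M) (hs : GoodA m q (qE0 q l) (n / 2) ω)
    (c : Fin D → Fin M → Fin m) (b : Fin D → Fin m)
    (hb : ∀ k a, c k a ≠ b k) (a0 : Fin M)
    (hwin : ∀ I : Finset (Fin m), I.card ≤ n → Win (lv2 ω) c I) (I0 : Finset (Fin m))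
    (hI0 : 2 * I0.card ≤ n) (hJ : D ≤ 200 * q * (JJ (qT q l) (qE0 q l) c b I0).card) :
    ∃ f : Fin D → Fin D × (Fin m → Fin M),
      (∀ j j', b j ∈ I0 → b j' ∈ I0 → j ≤ j' → (f j).1 ≤ (f j').1) ∧
      (∀ j j' j'', b j ∈ I0 → b j' ∈ I0 → b j'' ∈ I0 → j ≤ j' → j' ≤ j'' →
        f j = f j'' → f j' = f j) ∧
      (∀ j, b j ∈ I0 → VAL2 (qE1 q l) (lv2 ω) c b a0 I0 (f j) j) ∧
      64 * ((JJ (qT q l) (qE0 q l) c b I0).filter (fun j =>
        (mis (c (f j).1)).card ≤ qE0 q l ∧
          qR q l ≤ 2 * (gb (qR q l) (c (f j).1) I0).card)).card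
        < (JJ (qT q l) (qE0 q l) c b I0).card := by
  have hq8 := hp.hq
  have hE : qE0 q l ≤ qE1 q l := by
    unfold qE0 qE1
    have : q * l ≤ q ^ 2 * l := by
      rw [pow_two]
      exact Nat.mul_le_mul_right _ (Nat.le_mul_self q)
    nlinarith
  obtain ⟨f, hf1, hf2, hf3, hf4⟩ := env_apply2 (qE1 q l) (lv2 ω) c b hb a0 I0 (n / 2)
    (by
      intro I hI
      apply hwin
      omega)
  set Jc := JJ (qT q l) (qE0 q l) c b I0 with hJc
  have hJb : ∀ j, j ∈ Jc → b j ∈ I0 := fun j hj => (mem_filter.mp hj).2.2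
  set F : Fin (n / 2 + 1) → Fin D → Option (Fin D) := fun i j =>
    if (j ∈ Jc ∧ (mis (c (f i j).1)).card ≤ qE0 q l ∧
      qR q l ≤ 2 * (gb (qR q l) (c (f i j).1) I0).card) then some (f i j).1 else none
    with hF
  have hFs : ∀ i j k, F i j = some k →
      (j ∈ Jc ∧ (mis (c (f i j).1)).card ≤ qE0 q l ∧
      qR q l ≤ 2 * (gb (qR q l) (c (f i j).1) I0).card) ∧ (f i j).1 = k := by
    intro i j k h
    simp only [hF] at h
    split_ifs at h with h1
    exact ⟨h1, by simpa using h⟩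
  have hdm : ∀ i, dm (F i) = Jc.filter (fun j => (mis (c (f i j).1)).card ≤ qE0 q l ∧
      qR q l ≤ 2 * (gb (qR q l) (c (f i j).1) I0).card) := by
    intro i
    unfold dm
    ext j
    simp only [mem_filter, mem_univ, true_and, hF]
    split_ifs with h1
    · simp [h1]
    · simpa using h1
  have hsmall : 64 * ∑ i, (dm (F i)).card < (n / 2 + 1) * Jc.card := by
    by_contra hcon
    push Not at hcon
    have hstrict : ∀ i i' : ℕ, i < i' → i' ≤ n / 2 → ∀ j, b j ∈ I0 → (f i j).1 < (f i' j).1 := by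
      intro i i' hii'
      induction i', hii' using Nat.le_induction with
      | base =>
        intro hi j hj
        exact hf4 i (by omega) j hj
      | succ k hk ih =>
        intro hi j hj
        exact lt_trans (ih (by omega) j hj) (hf4 k (by omega) j hj)
    obtain ⟨i, j, k, hk, hty, ⟨p, hp1⟩, hp2⟩ := hs b Jc
      (fun k => if qR q l ≤ 2 * (gb (qR q l) (c k) I0).card
        then gb (qR q l) (c k) I0 else univ)
      (HH2 (qR q l) (qE0 q l) c I0) F hJ
      (by
        intro k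
        split_ifs with h1
        · exact h1
        · simp only [card_univ, Fintype.card_fin]
          omega)
      (HH2_par hp hM c I0) (fun k β => HH2_deg c hM I0 k β) (eff_cond c b I0)
      (by
        intro i i1 i2 k1 k2 hi h1 h2
        obtain ⟨⟨ha, _, _⟩, h1'⟩ := hFs _ _ _ h1
        obtain ⟨⟨hb', _, _⟩, h2'⟩ := hFs _ _ _ h2
        rw [← h1', ← h2']
        exact hf1 i (by omega) i1 i2 (hJb _ ha) (hJb _ hb') hi)
      (by
        intro i
        rw [hdm i]
        exact filter_subset _ _)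
      (by
        intro i i' j k h1 h2
        obtain ⟨⟨ha, _, _⟩, h1'⟩ := hFs _ _ _ h1
        obtain ⟨⟨hb', _, _⟩, h2'⟩ := hFs _ _ _ h2
        rcases lt_trichotomy (i : ℕ) (i' : ℕ) with h | h | h
        · exfalso
          have := hstrict i i' h (by omega) j (hJb _ ha)
          rw [h1', h2'] at this
          exact lt_irrefl _ this
        · exact Fin.ext h
        · exfalso
          have := hstrict i' i h (by omega) j (hJb _ ha)
          rw [h1', h2'] at this
          exact lt_irrefl _ this)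
      hcon
    obtain ⟨⟨ha, hmis, hgb⟩, hk'⟩ := hFs _ _ _ hk
    have hval := hf3 i (by omega) j (hJb _ ha)
    subst hk'
    rw [if_pos hgb] at hp1
    rcases ord_cell2 (qE1 q l) ω c b a0 I0 (f i j) j hty (hmis.trans hE) hval with
      h | ⟨p', a, ha1, ha2, ha3⟩
    · exact h p hp1
    · apply hp2 p'
      simp only [HH2, mem_filter, mem_univ, true_and]
      exact ⟨hmis, hJb _ ha, a, ha1, ha2, ha3⟩
  have hex : ∃ i : Fin (n / 2 + 1), 64 * (dm (F i)).card < Jc.card := by
    by_contra hcon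
    push Not at hcon
    have h1 : (n / 2 + 1) * Jc.card ≤ 64 * ∑ i, (dm (F i)).card := by
      calc (n / 2 + 1) * Jc.card = ∑ i : Fin (n / 2 + 1), Jc.card := by
            rw [sum_const, card_univ, Fintype.card_fin, smul_eq_mul]
        _ ≤ ∑ i, 64 * (dm (F i)).card := sum_le_sum (fun i _ => hcon i)
        _ = _ := by rw [mul_sum]
    omega
  obtain ⟨i, hi⟩ := hex
  refine ⟨f i, hf1 i (by omega), hf2 i (by omega), hf3 i (by omega), ?_⟩
  rw [← hdm i]
  exact hi

end Pool.Agent.Rez
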