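import Mathlib
import Pool.Agent.Rey.Ave
import Pool.Agent.Rez.Nl

set_option autoImplicit false

namespace Pool.Agent.Rez

open Finset
open Pool.Agent.Rey
open scoped Classical

/-- The average of the number of rows `j` with `Ef j` and `b j ∈ I` is `(1/q) |Ef|`. -/
theorem avg_rows {D m n q l : ℕ} (hp : Par2 m n q l) (b : Fin D → Fin m) (Ef : Fin D → Prop) :
    ∑ I : Finset (Fin m), wt (1 / (q : ℝ)) I *
      ((univ.filter (fun j : Fin D => Ef j ∧ b j ∈ I)).card : ℝ)
      = 1 / (q : ℝ) * ((univ.filter (fun j : Fin D => Ef j)).card : ℝ) := by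
  have hdc : ∑ I : Finset (Fin m), wt (1 / (q : ℝ)) I *
      ((univ.filter (fun j : Fin D => Ef j ∧ b j ∈ I)).card : ℝ)
      = ∑ j : Fin D, ∑ I ∈ univ.filter (fun I : Finset (Fin m) => Ef j ∧ b j ∈ I),
        wt (1 / (q : ℝ)) I := by
    convert ave_dc (1 / (q : ℝ)) (fun (I : Finset (Fin m)) (j : Fin D) => Ef j ∧ b j ∈ I)
  rw [hdc]
  have h1 : ∀ j : Fin D, ∑ I ∈ univ.filter (fun I : Finset (Fin m) => Ef j ∧ b j ∈ I),
      wt (1 / (q : ℝ)) I = if Ef j then 1 / (q : ℝ) else 0 := by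
    intro j
    by_cases hj : Ef j
    · rw [if_pos hj]
      refine Eq.trans ?_ (wt_mem (1 / (q : ℝ)) (b j))
      apply Finset.sum_congr _ (fun _ _ => rfl)
      ext I
      simp [hj]
    · rw [if_neg hj]
      rw [Finset.filter_false_of_mem (fun I _ h => hj h.1), Finset.sum_empty]
  rw [Finset.sum_congr rfl (fun j _ => h1 j), ← Finset.sum_filter, Finset.sum_const, nsmul_eq_mul,
    mul_comm]

private theorem g1_ef {D : ℕ} (Ef : Fin D → Prop)
    (hEf : 100 * (univ.filter (fun j : Fin D => ¬ Ef j)).card ≤ D) :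
    99 / 100 * (D : ℝ) ≤ ((univ.filter (fun j : Fin D => Ef j)).card : ℝ) := by
  have h1 : (univ.filter (fun j : Fin D => Ef j)).card
      + (univ.filter (fun j : Fin D => ¬ Ef j)).card = D := by
    have := Finset.card_filter_add_card_filter_not (s := (univ : Finset (Fin D))) (fun j => Ef j)
    rw [card_univ, Fintype.card_fin] at this
    exact this
  have h2 : ((univ.filter (fun j : Fin D => Ef j)).card : ℝ)
      + ((univ.filter (fun j : Fin D => ¬ Ef j)).card : ℝ) = D := by exact_mod_cast h1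
  have h3 : 100 * ((univ.filter (fun j : Fin D => ¬ Ef j)).card : ℝ) ≤ D := by exact_mod_cast hEf
  linarith

/-- Section 5, `V = 0`: the average is at least `0.99 D / q`, and at most
`D / (500 q) + D / (200 q)`. -/
theorem case02 {D m n q l : ℕ} (hp : Par2 m n q l) (hD : 1 ≤ D) (b : Fin D → Fin m)
    (Ef : Fin D → Prop) (hEf : 100 * (univ.filter (fun j : Fin D => ¬ Ef j)).card ≤ D)
    (S : Finset (Fin m) → Prop)
    (hS : ∑ I ∈ univ.filter (fun I => ¬ S I), wt (1 / (q : ℝ)) I ≤ 1 / (500 * (q : ℝ)))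
    (h : ∀ I, S I → 200 * q * (univ.filter (fun j : Fin D => Ef j ∧ b j ∈ I)).card < D) :
    False := by
  have hq8 : (8 : ℝ) ≤ q := by exact_mod_cast hp.hq
  have hq0 : (0 : ℝ) < q := by linarith
  have hDR : (1 : ℝ) ≤ D := by exact_mod_cast hD
  have h1 := avg_rows hp b Ef
  have h2 := ave_split (tau_mem hp).1.le (tau_mem hp).2 S
    (fun I => ((univ.filter (fun j : Fin D => Ef j ∧ b j ∈ I)).card : ℝ)) D
    (D / (200 * q)) (1 / (500 * (q : ℝ))) (by linarith) (by positivity) hS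
    (by
      intro I
      have : (univ.filter (fun j : Fin D => Ef j ∧ b j ∈ I)).card ≤ D := by
        have := Finset.card_le_univ (univ.filter (fun j : Fin D => Ef j ∧ b j ∈ I))
        rwa [Fintype.card_fin] at this
      exact_mod_cast this)
    (by
      intro I hI
      rw [le_div_iff₀ (by positivity)]
      have h3 : ((200 * q * (univ.filter (fun j : Fin D => Ef j ∧ b j ∈ I)).card : ℕ) : ℝ)
          ≤ D := by exact_mod_cast (h I hI).le
      push_cast at h3
      nlinarith)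
  have h3 := g1_ef Ef hEf
  rw [h1] at h2
  have h4 : 1 / (q : ℝ) * (99 / 100 * (D : ℝ))
      ≤ 1 / (q : ℝ) * ((univ.filter (fun j : Fin D => Ef j)).card : ℝ) :=
    mul_le_mul_of_nonneg_left h3 (by positivity)
  have h5 : (D : ℝ) * (1 / (500 * (q : ℝ))) + D / (200 * q)
      = 1 / (q : ℝ) * (7 / 1000 * (D : ℝ)) := by
    field_simp
    norm_num
  rw [h5] at h2
  have h6 : 1 / (q : ℝ) * (99 / 100 * (D : ℝ)) ≤ 1 / (q : ℝ) * (7 / 1000 * (D : ℝ)) := h4.trans h2
  have h7 : 99 / 100 * (D : ℝ) ≤ 7 / 1000 * (D : ℝ) := le_of_mul_le_mul_left h6 (by positivity)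
  linarith

/-- Number of nonlight virtual columns. -/
theorem sp_card2 {D M m : ℕ} (R E0 E1 : ℕ) (c : Fin D → Fin M → Fin m) (a0 : Fin M)
    (I0 : Finset (Fin m)) :
    (univ.filter (fun v : Fin D × (Fin m → Fin M) =>
      (∀ A ∈ I0, ∃ a, c v.1 a = A) ∧
      ((mis (c v.1)).card ≤ E1 → v.2 = fun _ => a0) ∧
      (E1 < (mis (c v.1)).card → (∀ A ∈ I0, c v.1 (v.2 A) = A) ∧ ∀ A, A ∉ I0 → v.2 A = a0) ∧
      ¬ ((mis (c v.1)).card ≤ E0 ∧ R ≤ 2 * (gb R (c v.1) I0).card))).card
      ≤ vs2 R E0 E1 c I0 := by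
  set W := univ.filter (fun v : Fin D × (Fin m → Fin M) =>
      (∀ A ∈ I0, ∃ a, c v.1 a = A) ∧
      ((mis (c v.1)).card ≤ E1 → v.2 = fun _ => a0) ∧
      (E1 < (mis (c v.1)).card → (∀ A ∈ I0, c v.1 (v.2 A) = A) ∧ ∀ A, A ∉ I0 → v.2 A = a0) ∧
      ¬ ((mis (c v.1)).card ≤ E0 ∧ R ≤ 2 * (gb R (c v.1) I0).card)) with hW
  have h1 : W ⊆ (W.filter (fun v => (mis (c v.1)).card ≤ E1)) ∪
      (univ.filter (fun v : Fin D × (Fin m → Fin M) => E1 < (mis (c v.1)).card ∧
      (∀ A ∈ I0, c v.1 (v.2 A) = A) ∧ ∀ A, A ∉ I0 → v.2 A = a0)) := by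
    intro v hv
    rw [mem_union]
    by_cases he : (mis (c v.1)).card ≤ E1
    · exact Or.inl (mem_filter.2 ⟨hv, he⟩)
    · right
      have hv' := hv
      rw [hW, mem_filter] at hv'
      exact mem_filter.2 ⟨mem_univ _, not_le.mp he, hv'.2.2.2.1 (not_le.mp he)⟩
  have h2 := (card_le_card h1).trans (card_union_le _ _)
  have h3 := sp_card E1 c a0 I0
  have h4 : (W.filter (fun v => (mis (c v.1)).card ≤ E1)).card
      ≤ (univ.filter (fun k : Fin D => (mis (c k)).card ≤ E1 ∧ NL R E0 c k I0)).card := by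
    apply card_le_card_of_injOn (fun v : Fin D × (Fin m → Fin M) => v.1)
    · intro v hv
      obtain ⟨hvW, he⟩ := mem_filter.1 hv
      rw [hW, mem_filter] at hvW
      obtain ⟨-, hv1, hv2, hv3, hv4⟩ := hvW
      apply mem_coe.2
      refine mem_filter.2 ⟨mem_univ _, he, ?_, ?_⟩
      · intro A hA hAI
        obtain ⟨a, ha⟩ := hv1 A hAI
        exact (mem_filter.1 hA).2 a ha
      · by_contra hcon
        push Not at hcon
        exact hv4 hcon
    · intro v hv v' hv' he
      have hv1 := mem_filter.1 (mem_coe.1 hv)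
      have hv1' := mem_filter.1 (mem_coe.1 hv')
      have hw := hv1.1
      have hw' := hv1'.1
      rw [hW, mem_filter] at hw hw'
      refine Prod.ext he ?_
      rw [hw.2.2.1 hv1.2, hw'.2.2.1 hv1'.2]
  unfold vs2
  unfold vs at h3
  have h5 : (univ.filter (fun v : Fin D × (Fin m → Fin M) => E1 < (mis (c v.1)).card ∧
      (∀ A ∈ I0, c v.1 (v.2 A) = A) ∧ ∀ A, A ∉ I0 → v.2 A = a0)).card
      ≤ ∑ k ∈ univ.filter (fun k : Fin D => E1 < (mis (c k)).card), ∏ A ∈ I0, cnt (c k) A := by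
    convert h3
  omega

/-- Good rows: double counting gives total weight at most
`D/(500 q) + 48 D/(8000 q) + (125/8000) D/q` of the bad pairs with `Ef j`; Markov. -/
theorem good_rows2 {D m n q l : ℕ} (hp : Par2 m n q l) (hD : 1 ≤ D) (b : Fin D → Fin m)
    (Ef : Fin D → Prop) (hEf : 100 * (univ.filter (fun j : Fin D => ¬ Ef j)).card ≤ D)
    (S : Finset (Fin m) → Prop) (G : Finset (Fin m) → Fin D → Prop)
    (hS : ∑ I ∈ univ.filter (fun I => ¬ S I), wt (1 / (q : ℝ)) I ≤ 1 / (500 * (q : ℝ)))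
    (h : ∀ I, S I → 8000 * q *
      (univ.filter (fun j : Fin D => Ef j ∧ b j ∈ I ∧ ¬ G I j)).card
        ≤ 48 * D + 125 * q * (univ.filter (fun j : Fin D => Ef j ∧ b j ∈ I)).card) :
    7 * D ≤ 8 * (univ.filter (fun j : Fin D =>
      ∑ I ∈ univ.filter (fun I => b j ∈ I ∧ ¬ G I j), wt (1 / (q : ℝ)) I
        ≤ 1 / (4 * (q : ℝ)))).card := by
  have hq8 : (8 : ℝ) ≤ q := by exact_mod_cast hp.hq
  have hq0 : (0 : ℝ) < q := by linarith
  have hDR : (1 : ℝ) ≤ D := by exact_mod_cast hD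
  have hw0 : ∀ I : Finset (Fin m), 0 ≤ wt (1 / (q : ℝ)) I := fun I => wq_nonneg hp I
  set N : Finset (Fin m) → ℝ := fun I =>
    ((univ.filter (fun j : Fin D => Ef j ∧ b j ∈ I ∧ ¬ G I j)).card : ℝ) with hN
  set P : Finset (Fin m) → ℝ := fun I =>
    ((univ.filter (fun j : Fin D => Ef j ∧ b j ∈ I)).card : ℝ) with hP
  have hNP : ∀ I, N I ≤ P I := by
    intro I
    simp only [hN, hP]
    have : (univ.filter (fun j : Fin D => Ef j ∧ b j ∈ I ∧ ¬ G I j)).card
        ≤ (univ.filter (fun j : Fin D => Ef j ∧ b j ∈ I)).card := by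
      apply Finset.card_le_card
      intro j hj
      simp only [mem_filter, mem_univ, true_and] at hj ⊢
      exact ⟨hj.1, hj.2.1⟩
    exact_mod_cast this
  have hPD : ∀ I, P I ≤ D := by
    intro I
    simp only [hP]
    have : (univ.filter (fun j : Fin D => Ef j ∧ b j ∈ I)).card ≤ D := by
      have := Finset.card_le_univ (univ.filter (fun j : Fin D => Ef j ∧ b j ∈ I))
      rwa [Fintype.card_fin] at this
    exact_mod_cast this
  have hP0 : ∀ I, 0 ≤ P I := fun I => Nat.cast_nonneg _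
  -- average of `N - P/64`
  have h2 := ave_split (tau_mem hp).1.le (tau_mem hp).2 S
    (fun I => N I - 1 / 64 * P I) D (48 * D / (8000 * q)) (1 / (500 * (q : ℝ))) (by linarith)
    (by positivity) hS
    (by
      intro I
      have := hNP I
      have := hPD I
      have := hP0 I
      show N I - 1 / 64 * P I ≤ D
      linarith)
    (by
      intro I hI
      show N I - 1 / 64 * P I ≤ 48 * D / (8000 * q)
      rw [le_div_iff₀ (by positivity)]
      have h3 : (8000 : ℝ) * q * N I ≤ 48 * D + 125 * q * P I := by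
        simp only [hN, hP]
        exact_mod_cast h I hI
      nlinarith)
  have h1 : ∑ I : Finset (Fin m), wt (1 / (q : ℝ)) I * P I
      = 1 / (q : ℝ) * ((univ.filter (fun j : Fin D => Ef j)).card : ℝ) := avg_rows hp b Ef
  have hsplit : ∑ I : Finset (Fin m), wt (1 / (q : ℝ)) I * (N I - 1 / 64 * P I)
      = ∑ I : Finset (Fin m), wt (1 / (q : ℝ)) I * N I
        - 1 / 64 * ∑ I : Finset (Fin m), wt (1 / (q : ℝ)) I * P I := by
    rw [Finset.mul_sum, ← Finset.sum_sub_distrib]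
    apply Finset.sum_congr rfl
    intro I _
    ring
  rw [hsplit, h1] at h2
  have hEfD : ((univ.filter (fun j : Fin D => Ef j)).card : ℝ) ≤ D := by
    have : (univ.filter (fun j : Fin D => Ef j)).card ≤ D := by
      have := Finset.card_le_univ (univ.filter (fun j : Fin D => Ef j))
      rwa [Fintype.card_fin] at this
    exact_mod_cast this
  have hdc' : ∑ I : Finset (Fin m), wt (1 / (q : ℝ)) I * N I
      = ∑ j : Fin D, ∑ I ∈ univ.filter (fun I => Ef j ∧ b j ∈ I ∧ ¬ G I j),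
        wt (1 / (q : ℝ)) I := by
    simp only [hN]
    convert ave_dc (1 / (q : ℝ))
      (fun (I : Finset (Fin m)) (j : Fin D) => Ef j ∧ b j ∈ I ∧ ¬ G I j)
  have hbound : ∑ j : Fin D, ∑ I ∈ univ.filter (fun I => Ef j ∧ b j ∈ I ∧ ¬ G I j),
        wt (1 / (q : ℝ)) I ≤ 1 / (q : ℝ) * (D * (3 / 125)) := by
    rw [← hdc']
    have h3 : 1 / 64 * (1 / (q : ℝ) * ((univ.filter (fun j : Fin D => Ef j)).card : ℝ))
        ≤ 1 / (q : ℝ) * (D * (1 / 64)) := by
      have : 1 / (q : ℝ) * ((univ.filter (fun j : Fin D => Ef j)).card : ℝ)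
        ≤ 1 / (q : ℝ) * D := mul_le_mul_of_nonneg_left hEfD (by positivity)
      linarith
    have h4 : (D : ℝ) * (1 / (500 * (q : ℝ))) + 48 * D / (8000 * q)
        = 1 / (q : ℝ) * (D * (1 / 125)) := by
      field_simp
      norm_num
    rw [h4] at h2
    have h5 : 1 / (q : ℝ) * (D * (1 / 125)) + 1 / (q : ℝ) * (D * (1 / 64))
        ≤ 1 / (q : ℝ) * (D * (3 / 125)) := by
      rw [← mul_add]
      refine mul_le_mul_of_nonneg_left ?_ (by positivity)
      linarith
    linarith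
  -- Markov
  set bad : Finset (Fin D) := univ.filter (fun j : Fin D => Ef j ∧
    ¬ ∑ I ∈ univ.filter (fun I => b j ∈ I ∧ ¬ G I j), wt (1 / (q : ℝ)) I
        ≤ 1 / (4 * (q : ℝ))) with hbad
  have hmk : (bad.card : ℝ) * (1 / (4 * (q : ℝ))) ≤ 1 / (q : ℝ) * (D * (3 / 125)) := by
    refine le_trans ?_ hbound
    calc (bad.card : ℝ) * (1 / (4 * (q : ℝ))) = ∑ j ∈ bad, 1 / (4 * (q : ℝ)) := by
          rw [Finset.sum_const, nsmul_eq_mul]
      _ ≤ ∑ j ∈ bad, ∑ I ∈ univ.filter (fun I => Ef j ∧ b j ∈ I ∧ ¬ G I j),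
            wt (1 / (q : ℝ)) I := by
          apply Finset.sum_le_sum
          intro j hj
          simp only [hbad, mem_filter, mem_univ, true_and] at hj
          obtain ⟨h6, h7⟩ := hj
          refine (le_of_lt (not_le.mp h7)).trans (le_of_eq ?_)
          apply Finset.sum_congr _ (fun _ _ => rfl)
          ext I
          simp [h6]
      _ ≤ ∑ j : Fin D, ∑ I ∈ univ.filter (fun I => Ef j ∧ b j ∈ I ∧ ¬ G I j),
            wt (1 / (q : ℝ)) I := by
          apply Finset.sum_le_sum_of_subset_of_nonneg (Finset.subset_univ _)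
          intro j _ _
          exact Finset.sum_nonneg (fun I _ => hw0 I)
  have hbadc : (bad.card : ℝ) ≤ 12 / 125 * D := by
    have h8 : (bad.card : ℝ) * (1 / (4 * (q : ℝ))) = 1 / (q : ℝ) * (bad.card * (1 / 4)) := by
      field_simp
    rw [h8] at hmk
    have := le_of_mul_le_mul_left hmk (by positivity : (0 : ℝ) < 1 / (q : ℝ))
    linarith
  set good : Finset (Fin D) := univ.filter (fun j : Fin D =>
      ∑ I ∈ univ.filter (fun I => b j ∈ I ∧ ¬ G I j), wt (1 / (q : ℝ)) I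
        ≤ 1 / (4 * (q : ℝ))) with hgood
  have hcov : (univ : Finset (Fin D)) ⊆ good ∪ (bad ∪ univ.filter (fun j => ¬ Ef j)) := by
    intro j _
    simp only [hgood, hbad, mem_union, mem_filter, mem_univ, true_and]
    by_cases h9 : ∑ I ∈ univ.filter (fun I => b j ∈ I ∧ ¬ G I j), wt (1 / (q : ℝ)) I
        ≤ 1 / (4 * (q : ℝ))
    · exact Or.inl h9
    · right
      by_cases h10 : Ef j
      · exact Or.inl ⟨h10, h9⟩
      · exact Or.inr h10
  have hcc : D ≤ good.card + (bad.card + (univ.filter (fun j : Fin D => ¬ Ef j)).card) := by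
    have h11 := (Finset.card_le_card hcov).trans (Finset.card_union_le _ _)
    have h12 := Finset.card_union_le bad (univ.filter (fun j : Fin D => ¬ Ef j))
    rw [card_univ, Fintype.card_fin] at h11
    omega
  have hccR : (D : ℝ) ≤ good.card
      + (bad.card + ((univ.filter (fun j : Fin D => ¬ Ef j)).card : ℝ)) := by
    exact_mod_cast hcc
  have hEfR : 100 * ((univ.filter (fun j : Fin D => ¬ Ef j)).card : ℝ) ≤ D := by
    exact_mod_cast hEf
  have hfin : (7 : ℝ) * D ≤ 8 * good.card := by linarith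
  exact_mod_cast hfin

/-- In a good row. -/
theorem good_w {m n q l : ℕ} (hp : Par2 m n q l) (b : Fin m) (P : Finset (Fin m) → Prop)
    (hPb : ∀ I, P I → b ∈ I)
    (h : ∑ I ∈ univ.filter (fun I => b ∈ I ∧ ¬ P I), wt (1 / (q : ℝ)) I
        ≤ 1 / (4 * (q : ℝ))) :
    1 / (2 * (q : ℝ)) ≤ ∑ I ∈ univ.filter (fun I => P I), wt (1 / (q : ℝ)) I := by
  have hq8 : (8 : ℝ) ≤ q := by exact_mod_cast hp.hq
  have hq0 : (0 : ℝ) < q := by linarith
  have h1 := wt_mem (1 / (q : ℝ)) b
  have h2 : ∑ I ∈ univ.filter (fun I : Finset (Fin m) => b ∈ I), wt (1 / (q : ℝ)) I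
      = ∑ I ∈ univ.filter (fun I => P I), wt (1 / (q : ℝ)) I
        + ∑ I ∈ univ.filter (fun I => b ∈ I ∧ ¬ P I), wt (1 / (q : ℝ)) I := by
    rw [← Finset.sum_filter_add_sum_filter_not (univ.filter (fun I : Finset (Fin m) => b ∈ I))
      (fun I => P I), Finset.filter_filter, Finset.filter_filter]
    congr 1
    apply Finset.sum_congr _ (fun _ _ => rfl)
    ext I
    simp only [mem_filter, mem_univ, true_and]
    exact ⟨fun h => h.2, fun h => ⟨hPb I h, h⟩⟩
  rw [h2] at h1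
  have h3 : 1 / (2 * (q : ℝ)) = 1 / 2 * (1 / (q : ℝ)) := by field_simp
  have h4 : 1 / (4 * (q : ℝ)) = 1 / 4 * (1 / (q : ℝ)) := by field_simp
  rw [h4] at h
  rw [h3]
  have h5 : 0 < 1 / (q : ℝ) := by positivity
  linarith

end Pool.Agent.Rez
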