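import Mathlib
import Pool.Agent.Rey.Fam
import Pool.Agent.Rez.Nl

set_option autoImplicit false

namespace Pool.Agent.Rez

open Finset
open Pool.Agent.Rey
open scoped Classical

/-- Two different members with the same hub: sum over `fam g`; given it, the other one satisfies
`NLp (hub (fam g))`. See the proof of `Pool.Agent.Rey.fam_pair`. -/
theorem fam_pair2 {D m : ℕ} {τ ε : ℝ} (h0 : 0 ≤ τ) (h1 : τ ≤ 1)
    (P : Finset (Fin m) → Prop) (hub : Finset (Fin m) → Fin D)
    (NLp : Fin D → Finset (Fin m) → Prop)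
    (hNL : ∀ k, ∑ I ∈ univ.filter (fun I => NLp k I), wt τ I ≤ ε)
    (h : ∀ I, P I → NLp (hub I) I)
    (g g' : Fin m × Fin m) (hg : g ≠ g') :
    ∑ fam ∈ univ.filter (fun fam : Fin m × Fin m → Finset (Fin m) =>
      P (fam g) ∧ P (fam g') ∧ hub (fam g) = hub (fam g')), ∏ g, wt τ (fam g) ≤ ε := by
  have hw : ∀ I : Finset (Fin m), 0 ≤ wt τ I := fun I => wt_nonneg h0 h1 I
  have hpn : ∀ fam : Fin m × Fin m → Finset (Fin m), 0 ≤ ∏ g, wt τ (fam g) :=
    fun fam => Finset.prod_nonneg fun g _ => hw _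
  set S := univ.filter (fun fam : Fin m × Fin m → Finset (Fin m) =>
      P (fam g) ∧ P (fam g') ∧ hub (fam g) = hub (fam g')) with hS
  by_cases hP0 : ∃ I, P I
  swap
  · have : S = ∅ := by
      rw [hS, Finset.filter_eq_empty_iff]
      intro fam _ hf
      exact hP0 ⟨_, hf.1⟩
    rw [this, Finset.sum_empty]
    -- `ε ≥ 0`: if there is a `k`
    by_cases hk : Nonempty (Fin D)
    · obtain ⟨k⟩ := hk
      exact (Finset.sum_nonneg (fun I _ => hw I)).trans (hNL k)
    · exact absurd ⟨hub ∅⟩ hk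
  have hε : 0 ≤ ε := by
    obtain ⟨I, hI⟩ := hP0
    exact (Finset.sum_nonneg (fun I _ => hw I)).trans (hNL (hub I))
  rw [← Finset.sum_fiberwise S (fun fam => fam g) (fun fam => ∏ g, wt τ (fam g))]
  have key : ∀ I : Finset (Fin m), ∑ fam ∈ S.filter (fun fam => fam g = I), ∏ g, wt τ (fam g) ≤
      wt τ I * ε := by
    intro I
    by_cases hP : P I
    · set A : Fin m × Fin m → Finset (Finset (Fin m)) := fun x =>
        if x = g then {I} else if x = g' then
          univ.filter (fun J : Finset (Fin m) => NLp (hub I) J) else univ with hA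
      have hsub : S.filter (fun fam => fam g = I) ⊆
          univ.filter (fun fam : Fin m × Fin m → Finset (Fin m) => ∀ x, fam x ∈ A x) := by
        intro fam hf
        rw [Finset.mem_filter, hS, Finset.mem_filter] at hf
        obtain ⟨⟨-, f1, f2, f3⟩, f4⟩ := hf
        rw [Finset.mem_filter]
        refine ⟨Finset.mem_univ _, fun x => ?_⟩
        simp only [hA]
        by_cases hx : x = g
        · rw [if_pos hx, hx, f4]
          exact Finset.mem_singleton_self _
        · rw [if_neg hx]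
          by_cases hx' : x = g'
          · rw [if_pos hx', Finset.mem_filter]
            refine ⟨Finset.mem_univ _, ?_⟩
            rw [← f4, f3, hx']
            exact h _ f2
          · rw [if_neg hx']
            exact Finset.mem_univ _
      refine (Finset.sum_le_sum_of_subset_of_nonneg hsub fun fam _ _ => hpn fam).trans ?_
      rw [box (fun I => wt τ I) A, Finset.prod_eq_mul g g' hg]
      · have e1 : ∑ J ∈ A g, wt τ J = wt τ I := by
          simp only [hA, if_pos rfl]
          simp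
        have e2 : ∑ J ∈ A g', wt τ J ≤ ε := by
          simp only [hA, if_neg hg.symm]
          refine le_trans (le_of_eq ?_) (hNL (hub I))
          simp
        rw [e1]
        exact mul_le_mul_of_nonneg_left e2 (hw I)
      · intro c _ hc
        simp only [hA, if_neg hc.1, if_neg hc.2]
        exact wt_sum τ
      · intro hc
        exact absurd (Finset.mem_univ _) hc
      · intro hc
        exact absurd (Finset.mem_univ _) hc
    · have : S.filter (fun fam => fam g = I) = ∅ := by
        rw [Finset.filter_eq_empty_iff]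
        intro fam hf hfI
        rw [hS, Finset.mem_filter] at hf
        rw [hfI] at hf
        exact hP hf.2.1
      rw [this, Finset.sum_empty]
      exact mul_nonneg (hw I) hε
  refine (Finset.sum_le_sum fun I _ => key I).trans ?_
  rw [← Finset.sum_mul, wt_sum, one_mul]

private theorem h2_pow {x : ℝ} (hx : x ≤ 1) (N : ℕ) : (1 - x) ^ N ≤ Real.exp (-(x * N)) := by
  have h1 : 1 - x ≤ Real.exp (-x) := Real.one_sub_le_exp_neg x
  calc (1 - x) ^ N ≤ (Real.exp (-x)) ^ N := pow_le_pow_left₀ (by linarith) h1 N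
    _ = Real.exp (-(x * N)) := by
      rw [← Real.exp_nat_mul]
      ring_nf

private theorem h2_exp {m l : ℕ} (hm : 1 ≤ m) (hl : Real.log m ≤ l) (k : ℕ) {y : ℝ}
    (hy : (k : ℝ) * l ≤ y) : Real.exp (-y) ≤ 1 / (m : ℝ) ^ k := by
  have hm0 : (0 : ℝ) < m := by exact_mod_cast hm
  have h1 : (m : ℝ) ^ k ≤ Real.exp y := by
    calc (m : ℝ) ^ k = (Real.exp (Real.log m)) ^ k := by rw [Real.exp_log hm0]
      _ = Real.exp (k * Real.log m) := by rw [← Real.exp_nat_mul]
      _ ≤ Real.exp y := Real.exp_le_exp.2 (by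
        have h2 : (0 : ℝ) ≤ k := Nat.cast_nonneg k
        nlinarith)
  rw [Real.exp_neg, ← one_div]
  exact one_div_le_one_div_of_le (by positivity) h1

/-- Numbers for the random family. -/
theorem fam_num2 {m n q l : ℕ} (hp : Par2 m n q l) :
    (m : ℝ) * (1 - 1 / (2 * (q : ℝ))) ^ m ≤ 1 / 8 ∧
      (m : ℝ) ^ 4 * (1 / (m : ℝ) ^ 5) ≤ 1 / 8 := by
  obtain ⟨hq, hnm, hqn, hl, hl1, hP⟩ := hp
  have hqr : (8 : ℝ) ≤ q := by exact_mod_cast hq
  have hlr : (1 : ℝ) ≤ l := by exact_mod_cast hl1
  have hPr : (10 : ℝ) ^ 17 * q ^ 3 * l ^ 3 ≤ m := by exact_mod_cast hP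
  have hq3 : (q : ℝ) ≤ (q : ℝ) ^ 3 := by
    calc (q : ℝ) = (q : ℝ) ^ 1 := (pow_one _).symm
      _ ≤ (q : ℝ) ^ 3 := pow_le_pow_right₀ (by linarith) (by norm_num)
  have hl3 : (l : ℝ) ≤ (l : ℝ) ^ 3 := by
    calc (l : ℝ) = (l : ℝ) ^ 1 := (pow_one _).symm
      _ ≤ (l : ℝ) ^ 3 := pow_le_pow_right₀ hlr (by norm_num)
  have hql : (q : ℝ) * l ≤ (q : ℝ) ^ 3 * (l : ℝ) ^ 3 :=
    mul_le_mul hq3 hl3 (by positivity) (by positivity)
  have hql8 : (8 : ℝ) ≤ (q : ℝ) * l := by nlinarith
  have hbig : 4 * ((q : ℝ) * l) ≤ m := by nlinarith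
  have hm8 : (8 : ℝ) ≤ m := by nlinarith
  have hm1 : 1 ≤ m := by
    have : (1 : ℝ) ≤ m := by linarith
    exact_mod_cast this
  have hm0 : (0 : ℝ) < m := by linarith
  constructor
  · have h1 : (1 - 1 / (2 * (q : ℝ))) ^ m ≤ Real.exp (-(1 / (2 * (q : ℝ)) * m)) := by
      refine h2_pow ?_ m
      rw [div_le_one (by positivity)]
      linarith
    have h2 : ((2 : ℕ) : ℝ) * l ≤ 1 / (2 * (q : ℝ)) * m := by
      rw [div_mul_eq_mul_div, one_mul, le_div_iff₀ (by positivity)]
      push_cast
      nlinarith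
    have h3 := h2_exp hm1 hl 2 h2
    calc (m : ℝ) * (1 - 1 / (2 * (q : ℝ))) ^ m
        ≤ (m : ℝ) * (1 / (m : ℝ) ^ 2) :=
          mul_le_mul_of_nonneg_left (h1.trans h3) (by positivity)
      _ = 1 / m := by
        field_simp
      _ ≤ 1 / 8 := one_div_le_one_div_of_le (by norm_num) hm8
  · have h4 : (m : ℝ) ^ 4 * (1 / (m : ℝ) ^ 5) = 1 / m := by
      field_simp
    rw [h4]
    exact one_div_le_one_div_of_le (by norm_num) hm8

private theorem h2_union {ι κ : Type} [DecidableEq κ] (s : Finset ι) (t : ι → Finset κ)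
    (w : κ → ℝ) (hw : ∀ x, 0 ≤ w x) :
    ∑ x ∈ s.biUnion t, w x ≤ ∑ i ∈ s, ∑ x ∈ t i, w x := by
  induction s using Finset.induction_on with
  | empty => simp
  | insert a s ha ih =>
    rw [Finset.biUnion_insert, Finset.sum_insert ha]
    have h1 : ∑ x ∈ t a ∪ s.biUnion t, w x ≤ ∑ x ∈ t a, w x + ∑ x ∈ s.biUnion t, w x := by
      rw [← Finset.sum_union_inter]
      have : 0 ≤ ∑ x ∈ t a ∩ s.biUnion t, w x := Finset.sum_nonneg fun x _ => hw x
      linarith
    linarith

/-- RANDOM FAMILY: some family makes at least three quarters of the rows of `GR` excellent. See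
the proof of `Pool.Agent.Rey.family` (`fam_cover` with `x = 1/(2q)`, `fam_pair2` with
`ε = 1/m^5`). -/
theorem family2 {D m n q l : ℕ} (hp : Par2 m n q l) (GR : Finset (Fin D))
    (G : Finset (Fin m) → Fin D → Prop) (hub : Finset (Fin m) → Fin D → Fin D)
    (NLp : Fin D → Finset (Fin m) → Prop)
    (hNL : ∀ k, ∑ I ∈ univ.filter (fun I => NLp k I), wt (1 / (q : ℝ)) I ≤ 1 / (m : ℝ) ^ 5)
    (h1 : ∀ j ∈ GR, 1 / (2 * (q : ℝ))
      ≤ ∑ I ∈ univ.filter (fun I => G I j), wt (1 / (q : ℝ)) I)
    (h2 : ∀ I j, G I j → NLp (hub I j) I) :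
    ∃ fam : Fin m × Fin m → Finset (Fin m),
      3 * GR.card ≤ 4 * (GR.filter (fun j =>
        (∀ l', ∃ u, G (fam (l', u)) j) ∧
        ∀ g g', g ≠ g' → G (fam g) j → G (fam g') j → hub (fam g) j ≠ hub (fam g') j)).card := by
  have hq := hp.hq
  have hq0 : (0 : ℝ) < q := by exact_mod_cast (show 0 < q by omega)
  have t0 : (0 : ℝ) ≤ 1 / (q : ℝ) := by positivity
  have t1 : 1 / (q : ℝ) ≤ 1 := by
    rw [div_le_one hq0]
    exact_mod_cast (show 1 ≤ q by omega)
  set τ : ℝ := 1 / (q : ℝ) with hτ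
  set w : (Fin m × Fin m → Finset (Fin m)) → ℝ := fun fam => ∏ g, wt τ (fam g) with hw
  have hwn : ∀ fam, 0 ≤ w fam := fun fam => Finset.prod_nonneg fun g _ => wt_nonneg t0 t1 _
  have hw1 : ∑ fam, w fam = 1 := by
    have := box (G := Fin m × Fin m) (fun I => wt τ I) (fun _ => (univ : Finset (Finset (Fin m))))
    rw [hw]
    simp only [Finset.mem_univ, implies_true, Finset.filter_true] at this
    rw [this, Finset.prod_congr rfl (fun _ _ => wt_sum τ), Finset.prod_const_one]
  set Ex : (Fin m × Fin m → Finset (Fin m)) → Fin D → Prop := fun fam j =>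
    (∀ l', ∃ u, G (fam (l', u)) j) ∧
      ∀ g g', g ≠ g' → G (fam g) j → G (fam g') j → hub (fam g) j ≠ hub (fam g') j with hEx
  -- the probability that a row is not excellent
  have hbad : ∀ j ∈ GR, ∑ fam ∈ univ.filter (fun fam => ¬ Ex fam j), w fam ≤ 1 / 4 := by
    intro j hj
    set B1 : Fin m → Finset (Fin m × Fin m → Finset (Fin m)) := fun p =>
      univ.filter (fun fam => ∀ u, ¬ G (fam (p, u)) j) with hB1
    set B2 : (Fin m × Fin m) × (Fin m × Fin m) → Finset (Fin m × Fin m → Finset (Fin m)) :=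
      fun p => univ.filter (fun fam => p.1 ≠ p.2 ∧ G (fam p.1) j ∧ G (fam p.2) j ∧
        hub (fam p.1) j = hub (fam p.2) j) with hB2
    have hsub : univ.filter (fun fam => ¬ Ex fam j) ⊆ univ.biUnion B1 ∪ univ.biUnion B2 := by
      intro fam hf
      rw [Finset.mem_filter] at hf
      rw [Finset.mem_union, Finset.mem_biUnion, Finset.mem_biUnion]
      by_contra hc
      push Not at hc
      apply hf.2
      refine ⟨fun l' => ?_, fun g g' hne hg hg' he => ?_⟩
      · by_contra hn
        push Not at hn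
        apply hc.1 l' (Finset.mem_univ _)
        rw [hB1, Finset.mem_filter]
        exact ⟨Finset.mem_univ _, fun u hu => hn u hu⟩
      · apply hc.2 (g, g') (Finset.mem_univ _)
        rw [hB2, Finset.mem_filter]
        exact ⟨Finset.mem_univ _, hne, hg, hg', he⟩
    obtain ⟨n1, n2⟩ := fam_num2 hp
    have e1 : ∑ fam ∈ univ.biUnion B1, w fam ≤ 1 / 8 := by
      refine (h2_union _ _ _ hwn).trans ?_
      have hle : ∀ p ∈ (univ : Finset (Fin m)), ∑ fam ∈ B1 p, w fam ≤
          (1 - 1 / (2 * (q : ℝ))) ^ m := by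
        intro p _
        refine le_trans (le_of_eq ?_) (fam_cover (x := 1 / (2 * (q : ℝ))) t0 t1
          (by positivity) (fun I => G I j) (by convert h1 j hj) p)
        apply Finset.sum_congr
        · rw [hB1]
        · intros
          rfl
      refine (Finset.sum_le_sum hle).trans ?_
      rw [Finset.sum_const, Finset.card_univ, Fintype.card_fin, nsmul_eq_mul]
      exact n1
    have e2 : ∑ fam ∈ univ.biUnion B2, w fam ≤ 1 / 8 := by
      refine (h2_union _ _ _ hwn).trans ?_
      have hle : ∀ p ∈ (univ : Finset ((Fin m × Fin m) × (Fin m × Fin m))),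
          ∑ fam ∈ B2 p, w fam ≤ 1 / (m : ℝ) ^ 5 := by
        intro p _
        by_cases hne : p.1 = p.2
        · have : B2 p = ∅ := by
            rw [hB2]
            simp only [Finset.filter_eq_empty_iff]
            intro fam _ hf
            exact hf.1 hne
          rw [this, Finset.sum_empty]
          positivity
        · refine le_trans ?_ (fam_pair2 t0 t1 (fun I => G I j) (fun I => hub I j) NLp hNL
            (fun I hI => h2 I j hI) p.1 p.2 hne)
          apply Finset.sum_le_sum_of_subset_of_nonneg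
          · intro fam hf
            rw [hB2, Finset.mem_filter] at hf
            rw [Finset.mem_filter]
            exact ⟨hf.1, hf.2.2⟩
          · intro fam _ _
            exact hwn fam
      refine (Finset.sum_le_sum hle).trans ?_
      rw [Finset.sum_const, Finset.card_univ, Fintype.card_prod, Fintype.card_prod,
        Fintype.card_fin, nsmul_eq_mul]
      refine le_trans (le_of_eq ?_) n2
      push_cast
      ring
    calc ∑ fam ∈ univ.filter (fun fam => ¬ Ex fam j), w fam
        ≤ ∑ fam ∈ univ.biUnion B1 ∪ univ.biUnion B2, w fam :=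
          Finset.sum_le_sum_of_subset_of_nonneg hsub fun fam _ _ => hwn fam
      _ ≤ ∑ fam ∈ univ.biUnion B1, w fam + ∑ fam ∈ univ.biUnion B2, w fam := by
          rw [← Finset.sum_union_inter]
          have : 0 ≤ ∑ fam ∈ univ.biUnion B1 ∩ univ.biUnion B2, w fam :=
            Finset.sum_nonneg fun x _ => hwn x
          linarith
      _ ≤ 1 / 4 := by linarith
  -- averaging
  have havg : ∑ fam, w fam * ((GR.filter (fun j => ¬ Ex fam j)).card : ℝ) ≤ GR.card / 4 := by
    have e1 : ∀ fam, w fam * ((GR.filter (fun j => ¬ Ex fam j)).card : ℝ) =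
        ∑ j ∈ GR, if ¬ Ex fam j then w fam else 0 := by
      intro fam
      rw [← Finset.sum_filter, Finset.sum_const, nsmul_eq_mul, mul_comm]
    simp_rw [e1]
    rw [Finset.sum_comm]
    have e2 : ∀ j ∈ GR, (∑ fam, if ¬ Ex fam j then w fam else 0) ≤ 1 / 4 := by
      intro j hj
      rw [← Finset.sum_filter]
      exact hbad j hj
    refine (Finset.sum_le_sum e2).trans ?_
    rw [Finset.sum_const, nsmul_eq_mul]
    linarith
  have hex : ∃ fam, ((GR.filter (fun j => ¬ Ex fam j)).card : ℝ) ≤ GR.card / 4 := by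
    by_contra hc
    push Not at hc
    have hpos : ∃ fam, 0 < w fam := by
      by_contra hn
      push Not at hn
      have : ∑ fam, w fam ≤ 0 := Finset.sum_nonpos fun fam _ => hn fam
      linarith
    obtain ⟨f0, hf0⟩ := hpos
    have : ∑ fam, w fam * ((GR.card : ℝ) / 4) <
        ∑ fam, w fam * ((GR.filter (fun j => ¬ Ex fam j)).card : ℝ) := by
      apply Finset.sum_lt_sum
      · intro fam _
        exact mul_le_mul_of_nonneg_left (hc fam).le (hwn fam)
      · exact ⟨f0, Finset.mem_univ _, mul_lt_mul_of_pos_left (hc f0) hf0⟩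
    rw [← Finset.sum_mul, hw1, one_mul] at this
    linarith
  obtain ⟨fam, hfam⟩ := hex
  refine ⟨fam, ?_⟩
  have h3 := Finset.card_filter_add_card_filter_not (s := GR) (fun j => Ex fam j)
  have h4 : 4 * (GR.filter (fun j => ¬ Ex fam j)).card ≤ GR.card := by
    have : (4 : ℝ) * ((GR.filter (fun j => ¬ Ex fam j)).card : ℝ) ≤ GR.card := by linarith
    exact_mod_cast this
  have h5 : 3 * GR.card ≤ 4 * (GR.filter (fun j => Ex fam j)).card := by omega
  exact h5

end Pool.Agent.Rez
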