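import Mathlib
import Pool.Agent.Rey.LB
import Pool.Agent.Rez.Cnt
import Pool.Agent.Rez.LA

set_option autoImplicit false

namespace Pool.Agent.Rez

open Finset
open Pool.Agent.Rey
open scoped Classical

/-- One cell: type `0` and a mark in `Q` has probability at least `1/(8 q T)`. -/
theorem one_cellB {T h R M q : ℕ} (hT : 0 < T) (hR : 0 < R) (hM : 0 < M) (hq : 0 < q)
    (Q : Finset (Fin M)) (hQ : M ≤ 8 * q * Q.card) :
    ((univ.filter (fun x : Fin T × (Fin h → Fin R) × Fin M =>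
      ¬ ((x.1 : ℕ) = 0 ∧ x.2.2 ∈ Q))).card : ℝ)
      ≤ (1 - 1 / (8 * (q : ℝ) * T)) * Fintype.card (Fin T × (Fin h → Fin R) × Fin M) := by
  have _ := hR
  have _ := hM
  have hg : (univ.filter (fun x : Fin T × (Fin h → Fin R) × Fin M =>
      (x.1 : ℕ) = 0 ∧ x.2.2 ∈ Q)) =
      ({(⟨0, hT⟩ : Fin T)} : Finset (Fin T)) ×ˢ ((univ : Finset (Fin h → Fin R)) ×ˢ Q) := by
    ext ⟨x, y, z⟩
    simp only [mem_filter, mem_univ, true_and, mem_product, mem_singleton, Fin.ext_iff]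
  have hgc : (univ.filter (fun x : Fin T × (Fin h → Fin R) × Fin M =>
      (x.1 : ℕ) = 0 ∧ x.2.2 ∈ Q)).card = R ^ h * Q.card := by
    rw [hg, card_product, card_product, card_singleton, card_univ, Fintype.card_fun,
      Fintype.card_fin, Fintype.card_fin, one_mul]
  have htot : (Fintype.card (Fin T × (Fin h → Fin R) × Fin M)) = T * (R ^ h * M) := by
    rw [Fintype.card_prod, Fintype.card_prod, Fintype.card_fun]
    simp only [Fintype.card_fin]
  have hsplit := Finset.card_filter_add_card_filter_not (s := (univ : Finset (Fin T × (Fin h → Fin R) × Fin M)))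
    (fun x => (x.1 : ℕ) = 0 ∧ x.2.2 ∈ Q)
  rw [card_univ, hgc] at hsplit
  have hsR : ((R ^ h * Q.card : ℕ) : ℝ) + ((univ.filter (fun x : Fin T × (Fin h → Fin R) × Fin M =>
      ¬ ((x.1 : ℕ) = 0 ∧ x.2.2 ∈ Q))).card : ℝ)
      = (Fintype.card (Fin T × (Fin h → Fin R) × Fin M) : ℝ) := by exact_mod_cast hsplit
  have hTR : (0 : ℝ) < T := by exact_mod_cast hT
  have hqR : (0 : ℝ) < q := by exact_mod_cast hq
  have hQR : (M : ℝ) ≤ 8 * q * Q.card := by exact_mod_cast hQ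
  have e1 : (1 - 1 / (8 * (q : ℝ) * T)) * (Fintype.card (Fin T × (Fin h → Fin R) × Fin M) : ℝ)
      = (Fintype.card (Fin T × (Fin h → Fin R) × Fin M) : ℝ) - (R : ℝ) ^ h * M / (8 * q) := by
    rw [htot]; push_cast; field_simp
  rw [e1]
  have e2 : (R : ℝ) ^ h * M / (8 * q) ≤ (R : ℝ) ^ h * Q.card := by
    rw [div_le_iff₀ (by positivity)]
    have : (0 : ℝ) ≤ (R : ℝ) ^ h := by positivity
    nlinarith
  push_cast at hsR
  linarith

private theorem j2_cells {D : ℕ} {α : Type} [Fintype α] [DecidableEq α]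
    (Z : Finset (Fin D × Fin D)) (A : Fin D × Fin D → Finset α) (η : ℝ) (hη : 0 ≤ η)
    (hA : ∀ z ∈ Z, ((A z).card : ℝ) ≤ η * Fintype.card α) :
    ((univ.filter (fun X : Fin D → Fin D → α => ∀ z ∈ Z, X z.1 z.2 ∈ A z)).card : ℝ)
      ≤ η ^ Z.card * Fintype.card (Fin D → Fin D → α) := by
  have h := card_cells2 Z A (fun _ => η) (fun _ _ => hη) hA
  rw [Finset.prod_const] at h
  have e : Fintype.card (Fin D → Fin D → α) = Fintype.card (Fin D × Fin D → α) :=
    Fintype.card_congr (Equiv.curry _ _ _).symm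
  rw [e, Fintype.card_fun]
  push_cast
  refine le_trans (le_of_eq ?_) h
  norm_cast
  refine card_bij (fun X _ => fun z => X z.1 z.2) ?_ ?_ ?_
  · intro X hX
    simpa using hX
  · intro X _ Y _ hXY
    funext a b
    exact congrFun hXY (a, b)
  · intro X hX
    refine ⟨fun a b => X (a, b), ?_, rfl⟩
    simpa using hX

/-- rows of window `i` -/
private theorem j2_rows (D m : ℕ) (hm : 0 < m) (i : ℕ) :
    (univ.filter (fun j : Fin D => (j : ℕ) / (8 * m ^ 3) = i)).card ≤ 8 * m ^ 3 := by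
  have hm3 : 0 < 8 * m ^ 3 := by positivity
  calc _ ≤ (Finset.range (8 * m ^ 3)).card := by
        refine card_le_card_of_injOn (fun j => (j : ℕ) % (8 * m ^ 3)) ?_ ?_
        · intro j hj
          simp only [coe_range, Set.mem_Iio]
          exact Nat.mod_lt _ hm3
        · intro j hj j' hj' he
          simp only [coe_filter, mem_univ, true_and, Set.mem_ofPred_eq] at hj hj'
          simp only at he
          apply Fin.ext
          rw [← Nat.div_add_mod (j : ℕ) (8 * m ^ 3), ← Nat.div_add_mod (j' : ℕ) (8 * m ^ 3),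
            hj, hj', he]
    _ = 8 * m ^ 3 := card_range _

/-- the subsets Theta -/
private theorem j2_thetas (D m : ℕ) (hm : 0 < m) (i : ℕ) :
    (univ.filter (fun Θ : Finset (Fin D) => Θ.card = m ^ 2 ∧
      ∀ j ∈ Θ, (j : ℕ) / (8 * m ^ 3) = i)).card ≤ (8 * m ^ 3) ^ (m ^ 2) := by
  calc _ ≤ (powersetCard (m ^ 2)
        (univ.filter (fun j : Fin D => (j : ℕ) / (8 * m ^ 3) = i))).card := by
        refine card_le_card ?_
        intro Θ hΘ
        simp only [mem_filter, mem_univ, true_and, mem_powersetCard] at hΘ ⊢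
        refine ⟨fun j hj => ?_, hΘ.1⟩
        simp only [mem_filter, mem_univ, true_and]
        exact hΘ.2 j hj
    _ = Nat.choose _ (m ^ 2) := card_powersetCard _ _
    _ ≤ _ := (Nat.choose_le_pow _ _).trans (Nat.pow_le_pow_left (j2_rows D m hm i) _)

/-- Fixed `K`, `Q`, `Θ`. -/
private theorem j2_fix {D T h R M m q w : ℕ} (hT : 0 < T) (hR : 0 < R) (hq : 0 < q)
    (hM0 : 0 < M) (hm : 0 < m)
    (K : Fin m × Fin m → Fin w → Option (Fin D))
    (hK : ∀ i g g' k, K g i = some k → K g' i = some k → g = g')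
    (hK2 : ∀ i ∈ usd K, (univ.filter (fun g => (K g i).isSome = true)).card = m)
    (Q : Fin m × Fin m → Fin w → Finset (Fin M)) (Θ : Fin w → Finset (Fin D))
    (hQ : ∀ g i, (K g i).isSome = true → M ≤ 8 * q * (Q g i).card)
    (hΘ : ∀ i ∈ usd K, (Θ i).card = m ^ 2 ∧
          ∀ j ∈ Θ i, (j : ℕ) / (8 * m ^ 3) = i) :
    ((univ.filter (fun xx : Om D T h R M =>
        ∀ g i k j, K g i = some k → j ∈ Θ i →
          ¬ (((xx k j).1 : ℕ) = 0 ∧ (xx k j).2.2 ∈ Q g i))).card : ℝ)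
      ≤ ((1 - 1 / (8 * (q : ℝ) * T)) ^ (m ^ 3)) ^ (usd K).card
        * Fintype.card (Om D T h R M) := by
  have hqR : (1 : ℝ) ≤ q := by exact_mod_cast hq
  have hTR : (1 : ℝ) ≤ T := by exact_mod_cast hT
  have hMR : (0 : ℝ) < M := by exact_mod_cast hM0
  obtain ⟨η, hη⟩ : ∃ η : ℝ, η = 1 - 1 / (8 * (q : ℝ) * T) := ⟨_, rfl⟩
  have h0 : 0 ≤ η := by
    have : (1 : ℝ) ≤ q * T := by nlinarith
    rw [hη, sub_nonneg, div_le_one (by positivity)]; nlinarith
  rw [← hη]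
  -- index set
  set TT : Finset (Σ _ : Fin w, (Fin m × Fin m) × Fin D) := (usd K).sigma (fun i =>
    (univ.filter (fun g => (K g i).isSome = true)) ×ˢ (Θ i)) with hTT
  have hTc : TT.card = m ^ 3 * (usd K).card := by
    rw [hTT, card_sigma, sum_congr rfl (fun i hi => by
      rw [card_product, hK2 i hi, (hΘ i hi).1]), sum_const, smul_eq_mul]
    ring
  -- the cells
  have hmem : ∀ x ∈ TT, ∃ k, K x.2.1 x.1 = some k ∧ x.1 ∈ usd K ∧ x.2.2 ∈ Θ x.1 := by
    rintro ⟨i, g, j⟩ hx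
    simp only [hTT, mem_sigma, mem_product, mem_filter, mem_univ, true_and] at hx
    obtain ⟨k, hk⟩ := Option.isSome_iff_exists.1 hx.2.1
    exact ⟨k, hk, hx.1, hx.2.2⟩
  set cell : (Σ _ : Fin w, (Fin m × Fin m) × Fin D) → Fin D × Fin D :=
    fun x => ((K x.2.1 x.1).getD x.2.2, x.2.2) with hcell
  set Z : Finset (Fin D × Fin D) := TT.image cell with hZ
  have hinj : Set.InjOn cell TT := by
    rintro ⟨i, g, j⟩ hx ⟨i', g', j'⟩ hx' he
    obtain ⟨k, hk, hi, hj⟩ := hmem _ hx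
    obtain ⟨k', hk', hi', hj'⟩ := hmem _ hx'
    simp only at hk hk' hi hi' hj hj'
    simp only [hcell, hk, hk', Option.getD_some, Prod.mk.injEq] at he
    obtain ⟨h1, h2⟩ := he
    subst h1; subst h2
    have e1 := (hΘ i hi).2 j hj
    have e2 := (hΘ i' hi').2 j hj'
    have : i = i' := Fin.ext (e1.symm.trans e2)
    subst this
    have := hK i g g' k hk hk'
    subst this
    rfl
  have hZc : Z.card = m ^ 3 * (usd K).card := by
    rw [hZ, card_image_of_injOn hinj, hTc]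
  -- allowed sets
  have hex : ∀ z ∈ Z, ∃ g i k j, K g i = some k ∧ j ∈ Θ i ∧ z = (k, j) := by
    intro z hz
    rw [hZ, mem_image] at hz
    obtain ⟨x, hx, rfl⟩ := hz
    obtain ⟨k, hk, hi, hj⟩ := hmem _ hx
    exact ⟨x.2.1, x.1, k, x.2.2, hk, hj, by simp only [hcell, hk, Option.getD_some]⟩
  obtain ⟨A, hA⟩ : ∃ A : Fin D × Fin D → Finset (Fin T × (Fin h → Fin R) × Fin M), A = fun z =>
    univ.filter (fun x => ∀ g i, K g i = some z.1 → z.2 ∈ Θ i →
      ¬ ((x.1 : ℕ) = 0 ∧ x.2.2 ∈ Q g i)) := ⟨_, rfl⟩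
  have hAc : ∀ z ∈ Z, ((A z).card : ℝ) ≤ η * Fintype.card (Fin T × (Fin h → Fin R) × Fin M) := by
    intro z hz
    obtain ⟨g, i, k, j, hk, hj, rfl⟩ := hex z hz
    have h1 : A (k, j) ⊆ univ.filter (fun x : Fin T × (Fin h → Fin R) × Fin M =>
      ¬ ((x.1 : ℕ) = 0 ∧ x.2.2 ∈ Q g i)) := by
      intro x hx
      simp only [hA, mem_filter, mem_univ, true_and] at hx ⊢
      exact hx g i hk hj
    have h2 : ((A (k, j)).card : ℝ) ≤ ((univ.filter (fun x : Fin T × (Fin h → Fin R) × Fin M =>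
      ¬ ((x.1 : ℕ) = 0 ∧ x.2.2 ∈ Q g i))).card : ℝ) := by exact_mod_cast card_le_card h1
    refine h2.trans ?_
    rw [hη]
    exact one_cellB hT hR hM0 hq (Q g i) (hQ g i (by rw [hk]; rfl))
  have hfin := j2_cells Z A η h0 hAc
  rw [hZc, pow_mul] at hfin
  refine le_trans ?_ hfin
  norm_cast
  refine card_le_card ?_
  intro X hX
  simp only [mem_filter, mem_univ, true_and] at hX ⊢
  rintro ⟨k, j⟩ _
  simp only [hA, mem_filter, mem_univ, true_and]
  intro g i hk hj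
  exact hX g i k j hk hj

/-- Fixed `K`: the number of `(Q, Θ)` is at most `(2^(M m) (8 m^3)^(m^2))^|usd K|`, and for fixed
`(Q, Θ)` there are `m * m^2` distinct cells `(K g i, j)` in each used window. See the proof of
`Pool.Agent.Rey.lb_fixed`. -/
theorem lb_fixed2 {D T h R M m q w : ℕ} (hT : 0 < T) (hR : 0 < R) (hq : 0 < q) (hM : M + 1 = m)
    (hM0 : 0 < M) (K : Fin m × Fin m → Fin w → Option (Fin D))
    (hK : ∀ i g g' k, K g i = some k → K g' i = some k → g = g')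
    (hK2 : ∀ i ∈ usd K, (univ.filter (fun g => (K g i).isSome = true)).card = m) :
    ((univ.filter (fun ω : Om D T h R M =>
      ∃ (Q : Fin m × Fin m → Fin w → Finset (Fin M)) (Θ : Fin w → Finset (Fin D)),
        (∀ g i, (K g i).isSome = true → M ≤ 8 * q * (Q g i).card) ∧
        (∀ i ∈ usd K, (Θ i).card = m ^ 2 ∧ ∀ j ∈ Θ i, (j : ℕ) / (8 * m ^ 3) = i) ∧
        ∀ g i k j, K g i = some k → j ∈ Θ i →
          ¬ (((ω k j).1 : ℕ) = 0 ∧ (ω k j).2.2 ∈ Q g i))).card : ℝ)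
      ≤ (2 ^ (M * m) * (8 * (m : ℝ) ^ 3) ^ (m ^ 2) * (1 - 1 / (8 * (q : ℝ) * T)) ^ (m ^ 3))
          ^ (usd K).card * Fintype.card (Om D T h R M) := by
  have hm : 0 < m := by omega
  -- the index sets
  set QS : Finset (Fin m × Fin m → Fin w → Finset (Fin M)) :=
    Fintype.piFinset (fun g => Fintype.piFinset (fun i =>
      if (K g i).isSome = true then univ else {∅})) with hQS
  set TS : Finset (Fin w → Finset (Fin D)) :=
    Fintype.piFinset (fun i => if i ∈ usd K then univ.filter (fun Θ : Finset (Fin D) =>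
      Θ.card = m ^ 2 ∧ ∀ j ∈ Θ, (j : ℕ) / (8 * m ^ 3) = i) else {∅}) with hTS
  have hQc : QS.card = (2 ^ (M * m)) ^ (usd K).card := by
    rw [hQS, Fintype.card_piFinset]
    simp only [Fintype.card_piFinset]
    rw [prod_comm]
    have : ∀ i : Fin w, ∏ g : Fin m × Fin m,
        (if (K g i).isSome = true then (univ : Finset (Finset (Fin M))) else {∅}).card =
          if i ∈ usd K then 2 ^ (M * m) else 1 := by
      intro i
      have h1 : ∀ g : Fin m × Fin m,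
        (if (K g i).isSome = true then (univ : Finset (Finset (Fin M))) else {∅}).card =
          if (K g i).isSome = true then 2 ^ M else 1 := by
        intro g
        split_ifs
        · rw [card_univ, Fintype.card_finset, Fintype.card_fin]
        · rfl
      rw [prod_congr rfl (fun g _ => h1 g), prod_ite, prod_const, prod_const_one, mul_one,
        ← pow_mul]
      split_ifs with hi
      · rw [hK2 i hi]
      · have : (univ.filter (fun g => (K g i).isSome = true)) = ∅ := by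
          rw [filter_eq_empty_iff]
          intro g _ hg
          apply hi
          simp only [usd, mem_filter, mem_univ, true_and]
          exact ⟨g, hg⟩
        rw [this, card_empty, mul_zero, pow_zero]
    rw [prod_congr rfl (fun i _ => this i), prod_ite, prod_const, prod_const_one, mul_one]
    congr 2
    ext i; simp
  have hTc : TS.card ≤ ((8 * m ^ 3) ^ (m ^ 2)) ^ (usd K).card := by
    rw [hTS, Fintype.card_piFinset]
    calc _ ≤ ∏ i : Fin w, (if i ∈ usd K then (8 * m ^ 3) ^ (m ^ 2) else 1) := by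
          refine prod_le_prod' fun i _ => ?_
          split_ifs with hi
          · exact j2_thetas D m hm i
          · simp
      _ = _ := by
          rw [prod_ite, prod_const, prod_const_one, mul_one]
          congr 2
          ext i; simp
  -- union bound
  set good : (Fin m × Fin m → Fin w → Finset (Fin M)) × (Fin w → Finset (Fin D)) → Prop :=
    fun P => (∀ g i, (K g i).isSome = true → M ≤ 8 * q * (P.1 g i).card) ∧
      (∀ i ∈ usd K, (P.2 i).card = m ^ 2 ∧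
          ∀ j ∈ P.2 i, (j : ℕ) / (8 * m ^ 3) = i) with hgood
  have hsub : (univ.filter (fun ω : Om D T h R M =>
      ∃ (Q : Fin m × Fin m → Fin w → Finset (Fin M)) (Θ : Fin w → Finset (Fin D)),
        (∀ g i, (K g i).isSome = true → M ≤ 8 * q * (Q g i).card) ∧
        (∀ i ∈ usd K, (Θ i).card = m ^ 2 ∧ ∀ j ∈ Θ i, (j : ℕ) / (8 * m ^ 3) = i) ∧
        ∀ g i k j, K g i = some k → j ∈ Θ i →
          ¬ (((ω k j).1 : ℕ) = 0 ∧ (ω k j).2.2 ∈ Q g i))) ⊆
      ((QS ×ˢ TS).filter good).biUnion (fun P => univ.filter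
        (fun xx : Om D T h R M =>
          ∀ g i k j, K g i = some k → j ∈ P.2 i →
            ¬ (((xx k j).1 : ℕ) = 0 ∧ (xx k j).2.2 ∈ P.1 g i))) := by
    intro xx hxx
    simp only [mem_filter, mem_univ, true_and] at hxx
    obtain ⟨Q, Θ, h1, h2, h3⟩ := hxx
    rw [mem_biUnion]
    refine ⟨(fun g i => if (K g i).isSome = true then Q g i else ∅,
      fun i => if i ∈ usd K then Θ i else ∅), ?_, ?_⟩
    · simp only [mem_filter, mem_product, hQS, hTS, Fintype.mem_piFinset, hgood]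
      refine ⟨⟨?_, ?_⟩, ?_, ?_⟩
      · intro g i
        split_ifs
        · exact mem_univ _
        · exact mem_singleton_self _
      · intro i
        split_ifs with hi
        · simp only [mem_filter, mem_univ, true_and]
          exact h2 i hi
        · exact mem_singleton_self _
      · intro g i hg
        rw [if_pos hg]
        exact h1 g i hg
      · intro i hi
        rw [if_pos hi]
        exact h2 i hi
    · simp only [mem_filter, mem_univ, true_and]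
      intro g i k j hk hj
      have hs : (K g i).isSome = true := by rw [hk]; rfl
      have hu : i ∈ usd K := by
        simp only [usd, mem_filter, mem_univ, true_and]
        exact ⟨g, hs⟩
      rw [if_pos hs]
      rw [if_pos hu] at hj
      exact h3 g i k j hk hj
  have hN : (0 : ℝ) ≤ ((1 - 1 / (8 * (q : ℝ) * T)) ^ (m ^ 3)) ^ (usd K).card
        * Fintype.card (Om D T h R M) := by
    have hqR : (1 : ℝ) ≤ q := by exact_mod_cast hq
    have hTR : (1 : ℝ) ≤ T := by exact_mod_cast hT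
    have : (0 : ℝ) ≤ 1 - 1 / (8 * (q : ℝ) * T) := by
      have : (1 : ℝ) ≤ q * T := by nlinarith
      rw [sub_nonneg, div_le_one (by positivity)]; nlinarith
    exact mul_nonneg (pow_nonneg (pow_nonneg this _) _) (Nat.cast_nonneg _)
  calc _ ≤ ((((QS ×ˢ TS).filter good).biUnion (fun P => univ.filter
        (fun xx : Om D T h R M =>
          ∀ g i k j, K g i = some k → j ∈ P.2 i →
            ¬ (((xx k j).1 : ℕ) = 0 ∧ (xx k j).2.2 ∈ P.1 g i)))).card : ℝ) := by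
        exact_mod_cast card_le_card hsub
    _ ≤ ∑ P ∈ (QS ×ˢ TS).filter good, ((univ.filter
        (fun xx : Om D T h R M =>
          ∀ g i k j, K g i = some k → j ∈ P.2 i →
            ¬ (((xx k j).1 : ℕ) = 0 ∧ (xx k j).2.2 ∈ P.1 g i))).card : ℝ) := by
        exact_mod_cast card_biUnion_le
    _ ≤ ∑ P ∈ (QS ×ˢ TS).filter good, ((1 - 1 / (8 * (q : ℝ) * T)) ^ (m ^ 3)) ^ (usd K).card
        * Fintype.card (Om D T h R M) := by
        refine sum_le_sum fun P hP => ?_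
        simp only [mem_filter, hgood] at hP
        exact j2_fix hT hR hq hM0 hm K hK hK2 P.1 P.2 hP.2.1 hP.2.2
    _ = (((QS ×ˢ TS).filter good).card : ℝ) *
        (((1 - 1 / (8 * (q : ℝ) * T)) ^ (m ^ 3)) ^ (usd K).card
        * Fintype.card (Om D T h R M)) := by
        rw [sum_const, nsmul_eq_mul]
    _ ≤ (((2 : ℝ) ^ (M * m)) ^ (usd K).card * ((8 * (m : ℝ) ^ 3) ^ (m ^ 2)) ^ (usd K).card) *
        (((1 - 1 / (8 * (q : ℝ) * T)) ^ (m ^ 3)) ^ (usd K).card
        * Fintype.card (Om D T h R M)) := by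
        refine mul_le_mul_of_nonneg_right ?_ hN
        have h1 : ((QS ×ˢ TS).filter good).card ≤
            (2 ^ (M * m)) ^ (usd K).card * ((8 * m ^ 3) ^ (m ^ 2)) ^ (usd K).card := by
          refine (card_filter_le _ _).trans ?_
          rw [card_product, hQc]
          exact Nat.mul_le_mul_left _ hTc
        exact_mod_cast h1
    _ = _ := by
        rw [mul_pow, mul_pow]; ring

private theorem j3_eight {m l : ℕ} (hm : 1 ≤ m) (hl : Real.log m ≤ l) (hl1 : 1 ≤ l) :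
    8 * (m : ℝ) ^ 3 ≤ Real.exp (6 * l) := by
  have hmR : (0 : ℝ) < m := by exact_mod_cast hm
  have h1 : (m : ℝ) ≤ Real.exp l := by
    calc (m : ℝ) = Real.exp (Real.log m) := (Real.exp_log hmR).symm
      _ ≤ Real.exp l := Real.exp_le_exp.mpr hl
  have hlR : (1 : ℝ) ≤ l := by exact_mod_cast hl1
  have h2 : (2 : ℝ) ≤ Real.exp l := by
    have := Real.add_one_le_exp (l : ℝ)
    linarith
  have h3 : (m : ℝ) ^ 3 ≤ (Real.exp l) ^ 3 := pow_le_pow_left₀ hmR.le h1 3
  have h4 : (8 : ℝ) ≤ (Real.exp l) ^ 3 := by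
    calc (8 : ℝ) = 2 ^ 3 := by norm_num
      _ ≤ (Real.exp l) ^ 3 := pow_le_pow_left₀ (by norm_num) h2 3
  calc 8 * (m : ℝ) ^ 3 ≤ (Real.exp l) ^ 3 * (Real.exp l) ^ 3 :=
        mul_le_mul h4 h3 (by positivity) (by positivity)
    _ = Real.exp (6 * l) := by
        rw [← pow_add, ← Real.exp_nat_mul]; norm_num

/-- Numbers of Lemma B. Logarithms: `M m ln 2 + (m^2 + 2 m) ln(8 m^3) + ln 2 + 11 m^2 ≤
m^3 / (8 q T)`, where `m^3 / (8 q T) ≥ m^2 * 6 * 10^5 * q * l^2`. -/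
theorem lb_num2 {M m n q l : ℕ} (hp : Par2 m n q l) (hM : M + 1 = m) :
    (2 * (2 ^ (M * m) * (8 * (m : ℝ) ^ 3) ^ (m ^ 2) *
      (1 - 1 / (8 * (q : ℝ) * (qT q l : ℕ))) ^ (m ^ 3)))
      * (8 * (m : ℝ) ^ 3) ^ (2 * m) ≤ Real.exp (-(11 * (m : ℝ) ^ 2)) := by
  obtain ⟨hq, hnm, hqn, hl, hl1, hP⟩ := hp
  have hm1 : 1 ≤ m := by omega
  have hq' : (8 : ℝ) ≤ q := by exact_mod_cast hq
  have hl' : (1 : ℝ) ≤ l := by exact_mod_cast hl1
  have hm' : (1 : ℝ) ≤ m := by exact_mod_cast hm1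
  have hP' : (10 : ℝ) ^ 17 * (q : ℝ) ^ 3 * (l : ℝ) ^ 3 ≤ m := by exact_mod_cast hP
  have hqT : ((qT q l : ℕ) : ℝ) = 2 * 10 ^ 10 * q * l := by unfold qT; push_cast; ring
  have h8 := j3_eight hm1 hl hl1
  have h80 : (0 : ℝ) ≤ 8 * (m : ℝ) ^ 3 := by positivity
  obtain ⟨x, hx⟩ : ∃ x : ℝ, x = 1 / (8 * (q : ℝ) * (qT q l : ℕ)) := ⟨_, rfl⟩
  rw [← hx]
  have hx' : x = 1 / (16 * 10 ^ 10 * (q : ℝ) ^ 2 * l) := by
    rw [hx, hqT]; congr 1; ring
  have hden : (0 : ℝ) < 16 * 10 ^ 10 * (q : ℝ) ^ 2 * l := by positivity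
  have hx0 : 0 ≤ x := by rw [hx']; positivity
  have hx1 : x ≤ 1 := by
    rw [hx', div_le_one hden]
    have : (64 : ℝ) ≤ (q : ℝ) ^ 2 := by nlinarith
    nlinarith
  -- the factors
  have f1 : (2 : ℝ) ≤ Real.exp 1 := by
    have := Real.add_one_le_exp (1 : ℝ)
    linarith
  have f2 : (2 : ℝ) ^ (M * m) ≤ Real.exp ((m : ℝ) ^ 2) := by
    calc (2 : ℝ) ^ (M * m) ≤ (Real.exp 1) ^ (M * m) := pow_le_pow_left₀ (by norm_num) f1 _
      _ = Real.exp (((M * m : ℕ) : ℝ) * 1) := by rw [← Real.exp_nat_mul]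
      _ ≤ Real.exp ((m : ℝ) ^ 2) := by
          apply Real.exp_le_exp.mpr
          have h1 : M * m ≤ m ^ 2 := by rw [← hM]; nlinarith
          have : ((M * m : ℕ) : ℝ) ≤ ((m ^ 2 : ℕ) : ℝ) := by exact_mod_cast h1
          push_cast at this ⊢
          linarith
  have f3 : (8 * (m : ℝ) ^ 3) ^ (m ^ 2) ≤ Real.exp (6 * l * (m : ℝ) ^ 2) := by
    calc (8 * (m : ℝ) ^ 3) ^ (m ^ 2) ≤ (Real.exp (6 * l)) ^ (m ^ 2) := pow_le_pow_left₀ h80 h8 _
      _ = Real.exp (((m ^ 2 : ℕ) : ℝ) * (6 * l)) := by rw [← Real.exp_nat_mul]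
      _ = _ := by congr 1; push_cast; ring
  have f4 : (1 - x) ^ (m ^ 3) ≤ Real.exp (-(x * (m : ℝ) ^ 3)) := by
    calc (1 - x) ^ (m ^ 3) ≤ (Real.exp (-x)) ^ (m ^ 3) :=
          pow_le_pow_left₀ (by linarith) (Real.one_sub_le_exp_neg x) _
      _ = Real.exp (((m ^ 3 : ℕ) : ℝ) * (-x)) := by rw [← Real.exp_nat_mul]
      _ = _ := by congr 1; push_cast; ring
  have f5 : (8 * (m : ℝ) ^ 3) ^ (2 * m) ≤ Real.exp (12 * l * m) := by
    calc (8 * (m : ℝ) ^ 3) ^ (2 * m) ≤ (Real.exp (6 * l)) ^ (2 * m) := pow_le_pow_left₀ h80 h8 _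
      _ = Real.exp (((2 * m : ℕ) : ℝ) * (6 * l)) := by rw [← Real.exp_nat_mul]
      _ = _ := by congr 1; push_cast; ring
  have g4 : 0 ≤ (1 - x) ^ (m ^ 3) := pow_nonneg (by linarith) _
  have tot : (2 * (2 ^ (M * m) * (8 * (m : ℝ) ^ 3) ^ (m ^ 2) * (1 - x) ^ (m ^ 3)))
      * (8 * (m : ℝ) ^ 3) ^ (2 * m) ≤
      (Real.exp 1 * (Real.exp ((m : ℝ) ^ 2) * Real.exp (6 * l * (m : ℝ) ^ 2) *
        Real.exp (-(x * (m : ℝ) ^ 3)))) * Real.exp (12 * l * m) := by
    gcongr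
  refine tot.trans ?_
  rw [← Real.exp_add, ← Real.exp_add, ← Real.exp_add, ← Real.exp_add]
  apply Real.exp_le_exp.mpr
  -- the exponent
  have hxm : 5 * 10 ^ 6 * (l : ℝ) ^ 2 * (m : ℝ) ^ 2 ≤ x * (m : ℝ) ^ 3 := by
    have h1 : 5 * 10 ^ 6 * (l : ℝ) ^ 2 ≤ x * m := by
      rw [hx', one_div, ← div_eq_inv_mul, le_div_iff₀ hden]
      have h2 : (8 : ℝ) * (q : ℝ) ^ 2 ≤ (q : ℝ) ^ 3 := by
        have : (0 : ℝ) ≤ (q : ℝ) ^ 2 := by positivity
        nlinarith
      have h3 : 0 ≤ (l : ℝ) ^ 3 := by positivity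
      calc 5 * 10 ^ 6 * (l : ℝ) ^ 2 * (16 * 10 ^ 10 * (q : ℝ) ^ 2 * l)
          = 10 ^ 17 * (8 * (q : ℝ) ^ 2) * (l : ℝ) ^ 3 := by ring
        _ ≤ 10 ^ 17 * (q : ℝ) ^ 3 * (l : ℝ) ^ 3 := by gcongr
        _ ≤ m := hP'
    calc 5 * 10 ^ 6 * (l : ℝ) ^ 2 * (m : ℝ) ^ 2 ≤ (x * m) * (m : ℝ) ^ 2 := by gcongr
      _ = x * (m : ℝ) ^ 3 := by ring
  have hmm : (1 : ℝ) ≤ (m : ℝ) ^ 2 := by nlinarith
  have hll : (1 : ℝ) ≤ (l : ℝ) ^ 2 := by nlinarith
  have hlm : (1 : ℝ) ≤ (l : ℝ) ^ 2 * (m : ℝ) ^ 2 := by nlinarith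
  have a1 : (m : ℝ) ^ 2 ≤ (l : ℝ) ^ 2 * (m : ℝ) ^ 2 := by nlinarith
  have a2 : (l : ℝ) * (m : ℝ) ^ 2 ≤ (l : ℝ) ^ 2 * (m : ℝ) ^ 2 := by
    apply mul_le_mul_of_nonneg_right _ (by positivity)
    nlinarith
  have a3 : (l : ℝ) * m ≤ (l : ℝ) * (m : ℝ) ^ 2 := by
    apply mul_le_mul_of_nonneg_left _ (by positivity)
    nlinarith
  nlinarith

/-- Sum over `K`, from `Pool.Agent.Rey.lb_sum`. -/
theorem lb_half {D m w : ℕ} (hm : 2 ≤ m) (hD : D ≤ (w + 1) * (8 * m ^ 3)) (Z : ℝ) (hZ : 0 ≤ Z)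
    (hZ2 : (2 * Z) * (8 * (m : ℝ) ^ 3) ^ (2 * m) ≤ Real.exp (-(11 * (m : ℝ) ^ 2))) :
    ∑ K ∈ univ.filter (fun K : Fin m × Fin m → Fin w → Option (Fin D) =>
      (∀ g, PM (K g)) ∧
      (∀ i ∈ usd K, (univ.filter (fun g => (K g i).isSome = true)).card = m) ∧
      (usd K).Nonempty ∧ w ≤ 4 * (usd K).card), Z ^ (usd K).card ≤ 1 / 2 := by
  have h := lb_sum (D := D) hm hD (2 * Z) (by linarith) hZ2
  have h2 : ∑ K ∈ univ.filter (fun K : Fin m × Fin m → Fin w → Option (Fin D) =>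
      (∀ g, PM (K g)) ∧
      (∀ i ∈ usd K, (univ.filter (fun g => (K g i).isSome = true)).card = m) ∧
      (usd K).Nonempty ∧ w ≤ 4 * (usd K).card), Z ^ (usd K).card
      ≤ ∑ K ∈ univ.filter (fun K : Fin m × Fin m → Fin w → Option (Fin D) =>
      (∀ g, PM (K g)) ∧
      (∀ i ∈ usd K, (univ.filter (fun g => (K g i).isSome = true)).card = m) ∧
      (usd K).Nonempty ∧ w ≤ 4 * (usd K).card), 1 / 2 * (2 * Z) ^ (usd K).card := by
    apply Finset.sum_le_sum
    intro K hK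
    have hu : 1 ≤ (usd K).card := Finset.card_pos.mpr (mem_filter.mp hK).2.2.2.1
    rw [mul_pow]
    have h3 : (2 : ℝ) ≤ 2 ^ (usd K).card := by
      calc (2 : ℝ) = 2 ^ 1 := (pow_one _).symm
        _ ≤ 2 ^ (usd K).card := pow_le_pow_right₀ (by norm_num) hu
    have h4 : 0 ≤ Z ^ (usd K).card := pow_nonneg hZ _
    nlinarith
  rw [← Finset.mul_sum] at h2
  linarith

/-- LEMMA B: union bound over `K` (`union_card`, `lb_fixed2`, `lb_half`, `lb_num2`). -/
theorem lemB2 {D M m n q l w : ℕ} (hp : Par2 m n q l) (hM : M + 1 = m)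
    (hD : D ≤ (w + 1) * (8 * m ^ 3)) :
    ((univ.filter (fun ω : Om D (qT q l) (qh l) (qR q l) M => ¬ GoodB m q w ω)).card : ℝ)
      ≤ 1 / 2 * Fintype.card (Om D (qT q l) (qh l) (qR q l) M) := by
  have hb := par_basic hp
  have hm0 : 2 ≤ m := le_trans (by norm_num) hb.2.2.2.1
  have hT : 0 < qT q l := hb.1
  have hR : 0 < qR q l := hb.2.1
  have hq : 0 < q := lt_of_lt_of_le (by norm_num) hp.hq
  clear hb
  have hM0 : 0 < M := by omega
  obtain ⟨Z, hZ⟩ : ∃ Z : ℝ, Z = 2 ^ (M * m) * (8 * (m : ℝ) ^ 3) ^ (m ^ 2) *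
      (1 - 1 / (8 * (q : ℝ) * (qT q l : ℕ))) ^ (m ^ 3) := ⟨_, rfl⟩
  have hZ0 : 0 ≤ Z := by
    have h1 : (0 : ℝ) ≤ 1 - 1 / (8 * (q : ℝ) * (qT q l : ℕ)) := by
      have hqR : (1 : ℝ) ≤ q := by exact_mod_cast hq
      have hTR : (1 : ℝ) ≤ (qT q l : ℕ) := by exact_mod_cast hT
      have : (1 : ℝ) ≤ q * (qT q l : ℕ) := by nlinarith
      rw [sub_nonneg, div_le_one (by nlinarith)]; nlinarith
    rw [hZ]
    exact mul_nonneg (by positivity) (pow_nonneg h1 _)
  have hZ2 := lb_num2 (M := M) hp hM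
  rw [← hZ] at hZ2
  have hhalf := lb_half (D := D) (w := w) hm0 hD Z hZ0 hZ2
  -- the events
  obtain ⟨cond, hcond⟩ : ∃ cond : (Fin m × Fin m → Fin w → Option (Fin D)) → Prop, cond = fun K =>
      (∀ g, PM (K g)) ∧
      (∀ i ∈ usd K, (univ.filter (fun g => (K g i).isSome = true)).card = m) ∧
      (usd K).Nonempty ∧ w ≤ 4 * (usd K).card := ⟨_, rfl⟩
  obtain ⟨bad, hbad⟩ : ∃ bad : (Fin m × Fin m → Fin w → Option (Fin D)) →
      Om D (qT q l) (qh l) (qR q l) M → Prop, bad = fun K ω => cond K ∧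
      (∀ i g g' k, K g i = some k → K g' i = some k → g = g') ∧
      ∃ (Q : Fin m × Fin m → Fin w → Finset (Fin M)) (Θ : Fin w → Finset (Fin D)),
        (∀ g i, (K g i).isSome = true → M ≤ 8 * q * (Q g i).card) ∧
        (∀ i ∈ usd K, (Θ i).card = m ^ 2 ∧ ∀ j ∈ Θ i, (j : ℕ) / (8 * m ^ 3) = i) ∧
        ∀ g i k j, K g i = some k → j ∈ Θ i →
          ¬ (((ω k j).1 : ℕ) = 0 ∧ (ω k j).2.2 ∈ Q g i) := ⟨_, rfl⟩
  have hu := union_card bad (fun K => if cond K then Z ^ (usd K).card else 0) (by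
    intro K
    by_cases hK : cond K ∧ (∀ i g g' k, K g i = some k → K g' i = some k → g = g')
    · obtain ⟨hK1, hK3⟩ := hK
      show _ ≤ (if cond K then Z ^ (usd K).card else 0) * _
      rw [if_pos hK1]
      have hK1' := hK1
      rw [hcond] at hK1'
      have hfix := lb_fixed2 (T := qT q l) (h := qh l) (R := qR q l) hT hR hq hM hM0 K hK3 hK1'.2.1
      rw [← hZ] at hfix
      refine le_trans (Nat.cast_le.mpr (card_le_card ?_)) hfix
      intro ω hω
      have h1 := (mem_filter.mp hω).2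
      rw [hbad] at h1
      simp only [mem_filter, mem_univ, true_and]
      exact h1.2.2
    · have he : (univ.filter (fun ω => bad K ω)) = ∅ := by
        rw [filter_eq_empty_iff]
        intro ω _ hω
        rw [hbad] at hω
        exact hK ⟨hω.1, hω.2.1⟩
      rw [he, card_empty, Nat.cast_zero]
      apply mul_nonneg _ (Nat.cast_nonneg _)
      show 0 ≤ (if cond K then Z ^ (usd K).card else 0)
      split_ifs
      · exact pow_nonneg hZ0 _
      · exact le_rfl)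
  have hsum : ∑ K, (if cond K then Z ^ (usd K).card else 0) ≤ 1 / 2 := by
    rw [← sum_filter]
    convert hhalf using 2
    ext K
    simp only [mem_filter, mem_univ, true_and, hcond]
  have hsub : (univ.filter (fun ω : Om D (qT q l) (qh l) (qR q l) M => ¬ GoodB m q w ω)) ⊆
      (univ.filter (fun ω => ∃ K, bad K ω)) := by
    intro ω hω
    rw [mem_filter] at hω ⊢
    refine ⟨mem_univ _, ?_⟩
    have h1 := hω.2
    unfold GoodB at h1
    push Not at h1
    obtain ⟨K, Q, Θ, c1, c2, c3, c4, c5, c6, c7, c8⟩ := h1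
    refine ⟨K, ?_⟩
    rw [hbad, hcond]
    refine ⟨⟨c1, c3, c4, c5⟩, c2, Q, Θ, c6, c7, ?_⟩
    intro g i k j hk hj hh
    exact c8 g i k j hk hj hh.1 hh.2
  calc ((univ.filter (fun ω : Om D (qT q l) (qh l) (qR q l) M => ¬ GoodB m q w ω)).card : ℝ)
      ≤ ((univ.filter (fun ω => ∃ K, bad K ω)).card : ℝ) := by exact_mod_cast card_le_card hsub
    _ ≤ (∑ K, (if cond K then Z ^ (usd K).card else 0)) *
        Fintype.card (Om D (qT q l) (qh l) (qR q l) M) := hu
    _ ≤ 1 / 2 * Fintype.card (Om D (qT q l) (qh l) (qR q l) M) :=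
        mul_le_mul_of_nonneg_right hsum (Nat.cast_nonneg _)

/-- Both lemmas for the same design. -/
theorem both {D M m n q l w : ℕ} (hp : Par2 m n q l) (hM : M + 1 = m) (hD2 : 2 ≤ D)
    (hD : D ≤ (w + 1) * (8 * m ^ 3)) :
    ∃ ω : Om D (qT q l) (qh l) (qR q l) M,
      GoodA m q (qE0 q l) (n / 2) ω ∧ GoodB m q w ω := by
  by_contra hcon
  push Not at hcon
  have hA := lemA2 hp hM hD2
  have hB := lemB2 hp hM hD
  have hb := par_basic hp
  have hm0 : 2 ≤ m := le_trans (by norm_num) hb.2.2.2.1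
  have hT : 0 < qT q l := hb.1
  have hR : 0 < qR q l := hb.2.1
  clear hb
  have hne : Nonempty (Om D (qT q l) (qh l) (qR q l) M) :=
    ⟨fun _ _ => (⟨0, hT⟩, fun _ => ⟨0, hR⟩, ⟨0, by omega⟩)⟩
  have hpos : (0 : ℝ) < Fintype.card (Om D (qT q l) (qh l) (qR q l) M) := by
    exact_mod_cast Fintype.card_pos
  have hcov : (univ : Finset (Om D (qT q l) (qh l) (qR q l) M)) ⊆
      (univ.filter (fun ω => ¬ GoodA m q (qE0 q l) (n / 2) ω)) ∪
      (univ.filter (fun ω => ¬ GoodB m q w ω)) := by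
    intro ω _
    simp only [mem_union, mem_filter, mem_univ, true_and]
    by_cases h : GoodA m q (qE0 q l) (n / 2) ω
    · exact Or.inr (hcon ω h)
    · exact Or.inl h
  have h1 := (Finset.card_le_card hcov).trans (Finset.card_union_le _ _)
  rw [Finset.card_univ] at h1
  have h2 : (Fintype.card (Om D (qT q l) (qh l) (qR q l) M) : ℝ)
      ≤ ((univ.filter (fun ω : Om D (qT q l) (qh l) (qR q l) M =>
          ¬ GoodA m q (qE0 q l) (n / 2) ω)).card : ℝ)
        + ((univ.filter (fun ω : Om D (qT q l) (qh l) (qR q l) M =>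
          ¬ GoodB m q w ω)).card : ℝ) := by
    exact_mod_cast h1
  linarith

end Pool.Agent.Rez
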