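import Mathlib
import Pool.Agent.Rez.Nl

set_option autoImplicit false

namespace Pool.Agent.Rez

open Finset
open Pool.Agent.Rey
open scoped Classical

/-- Many missing colours: `E prod_{A in I} cnt A ≤ exp(-e/(2 q^2)) ≤ exp(-5 l)` (`exp_prod`). -/
theorem prod_big {D M m n q l : ℕ} (hp : Par2 m n q l) (hM : M + 1 = m)
    (c : Fin D → Fin M → Fin m) (k : Fin D) (he : qE1 q l < (mis (c k)).card) :
    ∑ I : Finset (Fin m), wt (1 / (q : ℝ)) I * ((∏ A ∈ I, cnt (c k) A : ℕ) : ℝ)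
      ≤ 1 / (m : ℝ) ^ 5 := by
  have hq8 : (8 : ℝ) ≤ q := by exact_mod_cast hp.hq
  have hq0 : (0 : ℝ) < q := by linarith
  have hm0 : (0 : ℝ) < m := by
    have h1 : 0 < m := by omega
    exact_mod_cast h1
  have ht1 : 1 / (q : ℝ) < 1 := by
    rw [div_lt_one hq0]
    linarith
  refine (exp_prod (c k) hM (by positivity) ht1).trans ?_
  have h5 : (10 : ℝ) * q ^ 2 * l ≤ ((mis (c k)).card : ℝ) := by
    have h6 : 10 * q ^ 2 * l ≤ (mis (c k)).card := he.le
    exact_mod_cast h6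
  calc Real.exp (-((1 / (q : ℝ)) ^ 2 * (mis (c k)).card / 2))
      ≤ Real.exp (-(((5 : ℕ) : ℝ) * Real.log m)) := by
        refine Real.exp_le_exp.2 ?_
        have h7 : 5 * (l : ℝ) ≤ (1 / (q : ℝ)) ^ 2 * (mis (c k)).card / 2 := by
          have h8 : (1 / (q : ℝ)) ^ 2 * (mis (c k)).card / 2 =
              (mis (c k)).card / (2 * (q : ℝ) ^ 2) := by
            field_simp
          rw [h8, le_div_iff₀ (by positivity)]
          linarith
        have h9 := hp.hl
        have h10 : (((5 : ℕ) : ℝ)) * Real.log m ≤ 5 * (l : ℝ) := by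
          push_cast
          linarith
        linarith
    _ = 1 / (m : ℝ) ^ 5 := by
        rw [Real.exp_neg, Real.exp_nat_mul, Real.exp_log hm0, one_div]

/-- The average of `vs2`: every `k` contributes to one of the two sums only (`nl_prob`,
`prod_big`). -/
theorem vs2_avg {D M m n q l : ℕ} (hp : Par2 m n q l) (hM : M + 1 = m)
    (c : Fin D → Fin M → Fin m) :
    ∑ I : Finset (Fin m), wt (1 / (q : ℝ)) I * (vs2 (qR q l) (qE0 q l) (qE1 q l) c I : ℝ)
      ≤ D / (m : ℝ) ^ 5 := by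
  have h1 := nl_prob (D := D) hp hM c
  have h2 := prod_big (D := D) hp hM c
  generalize qR q l = R at h1 h2 ⊢
  generalize qE0 q l = E0 at h1 h2 ⊢
  generalize qE1 q l = E1 at h1 h2 ⊢
  set A : Fin D → ℝ := fun k => if (mis (c k)).card ≤ E1 then
    ∑ I ∈ univ.filter (fun I : Finset (Fin m) => NL R E0 c k I), wt (1 / (q : ℝ)) I else
    ∑ I : Finset (Fin m), wt (1 / (q : ℝ)) I * ((∏ A ∈ I, cnt (c k) A : ℕ) : ℝ) with hA
  have hAle : ∀ k ∈ (univ : Finset (Fin D)), A k ≤ 1 / (m : ℝ) ^ 5 := by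
    intro k _
    simp only [hA]
    split_ifs with h
    · exact h1 k
    · exact h2 k (not_le.1 h)
  have heq : ∑ I : Finset (Fin m), wt (1 / (q : ℝ)) I * (vs2 R E0 E1 c I : ℝ) = ∑ k, A k := by
    have h3 : ∀ I : Finset (Fin m), wt (1 / (q : ℝ)) I * (vs2 R E0 E1 c I : ℝ) =
        ∑ k : Fin D, (if (mis (c k)).card ≤ E1 then
          (if NL R E0 c k I then wt (1 / (q : ℝ)) I else 0) else
          wt (1 / (q : ℝ)) I * ((∏ A ∈ I, cnt (c k) A : ℕ) : ℝ)) := by
      intro I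
      have h4 : (vs2 R E0 E1 c I : ℝ) = ∑ k : Fin D, (if (mis (c k)).card ≤ E1 then
          (if NL R E0 c k I then (1 : ℝ) else 0) else
          ((∏ A ∈ I, cnt (c k) A : ℕ) : ℝ)) := by
        unfold vs2
        rw [Finset.card_filter, Finset.sum_filter, ← Finset.sum_add_distrib, Nat.cast_sum]
        refine Finset.sum_congr rfl (fun k _ => ?_)
        by_cases hk : (mis (c k)).card ≤ E1
        · have hk' : ¬ E1 < (mis (c k)).card := not_lt.2 hk
          by_cases hn : NL R E0 c k I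
          · simp [hk, hk', hn]
          · simp [hk, hk', hn]
        · have hk' : E1 < (mis (c k)).card := not_le.1 hk
          simp [hk, hk']
      rw [h4, Finset.mul_sum]
      refine Finset.sum_congr rfl (fun k _ => ?_)
      by_cases hk : (mis (c k)).card ≤ E1
      · by_cases hn : NL R E0 c k I
        · simp [hk, hn]
        · simp [hk, hn]
      · simp [hk]
    rw [Finset.sum_congr rfl (fun I _ => h3 I), Finset.sum_comm]
    refine Finset.sum_congr rfl (fun k _ => ?_)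
    simp only [hA]
    by_cases hk : (mis (c k)).card ≤ E1
    · simp only [if_pos hk]
      rw [Finset.sum_filter]
    · simp only [if_neg hk]
  rw [heq]
  refine (Finset.sum_le_card_nsmul _ _ _ hAle).trans (le_of_eq ?_)
  rw [Finset.card_univ, Fintype.card_fin, nsmul_eq_mul]
  ring

/-- Markov: `vs2 > qV` (a floor) implies `vs2 ≥ 2000 q D / m^5`. -/
theorem unsuit_vs2 {D M m n q l : ℕ} (hp : Par2 m n q l) (hM : M + 1 = m) (hD : 1 ≤ D)
    (c : Fin D → Fin M → Fin m) :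
    ∑ I ∈ univ.filter (fun I : Finset (Fin m) =>
      ¬ vs2 (qR q l) (qE0 q l) (qE1 q l) c I ≤ qV m q D),
      wt (1 / (q : ℝ)) I ≤ 1 / (2000 * (q : ℝ)) := by
  have hq8 : (8 : ℝ) ≤ q := by exact_mod_cast hp.hq
  have hq0 : (0 : ℝ) < q := by linarith
  have hm0 : (0 : ℝ) < m := by
    have h1 : 0 < m := by omega
    exact_mod_cast h1
  have hm1 : 0 < m ^ 5 := pow_pos (by omega) 5
  have hDr : (1 : ℝ) ≤ D := by exact_mod_cast hD
  have hD0 : (0 : ℝ) < D := by linarith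
  have hE := vs2_avg hp hM c
  generalize qR q l = R at hE ⊢
  generalize qE0 q l = E0 at hE ⊢
  generalize qE1 q l = E1 at hE ⊢
  have hw : ∀ I : Finset (Fin m), 0 ≤ wt (1 / (q : ℝ)) I := fun I => wq_nonneg hp I
  have hbig : ∀ I : Finset (Fin m), ¬ vs2 R E0 E1 c I ≤ qV m q D →
      2000 * (q : ℝ) * D / (m : ℝ) ^ 5 ≤ (vs2 R E0 E1 c I : ℝ) := by
    intro I hI
    unfold qV at hI
    have h1 : 2000 * q * D / m ^ 5 < vs2 R E0 E1 c I := not_le.1 hI
    have h2 : 2000 * q * D < vs2 R E0 E1 c I * m ^ 5 := (Nat.div_lt_iff_lt_mul hm1).1 h1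
    rw [div_le_iff₀ (by positivity)]
    exact_mod_cast h2.le
  have hB : (0 : ℝ) < 2000 * (q : ℝ) * D / (m : ℝ) ^ 5 := by positivity
  have h3 : (∑ I ∈ univ.filter (fun I : Finset (Fin m) => ¬ vs2 R E0 E1 c I ≤ qV m q D),
      wt (1 / (q : ℝ)) I) * (2000 * (q : ℝ) * D / (m : ℝ) ^ 5) ≤ D / (m : ℝ) ^ 5 := by
    rw [Finset.sum_mul]
    calc ∑ I ∈ univ.filter (fun I : Finset (Fin m) => ¬ vs2 R E0 E1 c I ≤ qV m q D),
          wt (1 / (q : ℝ)) I * (2000 * (q : ℝ) * D / (m : ℝ) ^ 5)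
        ≤ ∑ I ∈ univ.filter (fun I : Finset (Fin m) => ¬ vs2 R E0 E1 c I ≤ qV m q D),
          wt (1 / (q : ℝ)) I * (vs2 R E0 E1 c I : ℝ) := by
          refine Finset.sum_le_sum (fun I hI => ?_)
          exact mul_le_mul_of_nonneg_left (hbig I (mem_filter.1 hI).2) (hw I)
      _ ≤ ∑ I : Finset (Fin m), wt (1 / (q : ℝ)) I * (vs2 R E0 E1 c I : ℝ) :=
          Finset.sum_le_sum_of_subset_of_nonneg (Finset.filter_subset _ _)
            (fun I _ _ => mul_nonneg (hw I) (Nat.cast_nonneg _))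
      _ ≤ D / (m : ℝ) ^ 5 := hE
  have h4 : D / (m : ℝ) ^ 5 = 1 / (2000 * (q : ℝ)) * (2000 * (q : ℝ) * D / (m : ℝ) ^ 5) := by
    field_simp
  rw [h4] at h3
  exact le_of_mul_le_mul_right h3 hB

/-- The weight of the unsuitable sets. -/
theorem unsuit2 {D M m n q l : ℕ} (hp : Par2 m n q l) (hM : M + 1 = m) (hD : 1 ≤ D)
    (c : Fin D → Fin M → Fin m) :
    ∑ I ∈ univ.filter (fun I : Finset (Fin m) =>
      ¬ Suit2 q n (qR q l) (qE0 q l) (qE1 q l) (qV m q D) c I),
      wt (1 / (q : ℝ)) I ≤ 1 / (500 * (q : ℝ)) := by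
  have hq8 : (8 : ℝ) ≤ q := by exact_mod_cast hp.hq
  have hw0 : ∀ I : Finset (Fin m), 0 ≤ wt (1 / (q : ℝ)) I := fun I => wq_nonneg hp I
  have h1 := low2 hp
  have h2 := high2 hp
  have h4 := unsuit_vs2 hp hM hD c
  have hsub : (univ.filter (fun I : Finset (Fin m) =>
      ¬ Suit2 q n (qR q l) (qE0 q l) (qE1 q l) (qV m q D) c I)) ⊆
      ((univ.filter (fun I : Finset (Fin m) => ¬ m ≤ 4 * q * I.card)) ∪
        (univ.filter (fun I : Finset (Fin m) => ¬ 2 * I.card ≤ n))) ∪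
        (univ.filter (fun I : Finset (Fin m) =>
          ¬ vs2 (qR q l) (qE0 q l) (qE1 q l) c I ≤ qV m q D)) := by
    intro I hI
    simp only [mem_filter, mem_univ, true_and] at hI
    simp only [mem_union, mem_filter, mem_univ, true_and]
    by_contra hcon
    push Not at hcon
    exact hI ⟨hcon.1.1, hcon.1.2, hcon.2⟩
  have hun : ∀ A B : Finset (Finset (Fin m)), ∑ I ∈ A ∪ B, wt (1 / (q : ℝ)) I
      ≤ ∑ I ∈ A, wt (1 / (q : ℝ)) I + ∑ I ∈ B, wt (1 / (q : ℝ)) I := by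
    intro A B
    rw [← Finset.sum_union_inter]
    have : 0 ≤ ∑ I ∈ A ∩ B, wt (1 / (q : ℝ)) I := Finset.sum_nonneg (fun I _ => hw0 I)
    linarith
  refine (Finset.sum_le_sum_of_subset_of_nonneg hsub (fun I _ _ => hw0 I)).trans ?_
  refine (hun _ _).trans ?_
  refine (add_le_add (hun _ _) (le_refl _)).trans ?_
  have e1 : (1 : ℝ) / (2000 * (q : ℝ)) = (1 / 2000) * (1 / (q : ℝ)) := by
    rw [one_div_mul_one_div]
  have e2 : (1 : ℝ) / (500 * (q : ℝ)) = (1 / 500) * (1 / (q : ℝ)) := by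
    rw [one_div_mul_one_div]
  rw [e1] at h1 h2 h4
  rw [e2]
  have hpos : 0 < 1 / (q : ℝ) := by positivity
  linarith

end Pool.Agent.Rez
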