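import Mathlib
import Pool.Agent.Rez.Cel
import Pool.Agent.Rez.Nl

set_option autoImplicit false

namespace Pool.Agent.Rez

open Finset
open Pool.Agent.Rey
open scoped Classical

/-- Rows whose colour is rare in their window: at most `m * m^2` per window. -/
theorem rare_rows {D m : ℕ} (b : Fin D → Fin m) :
    (univ.filter (fun j : Fin D => (j : ℕ) / (8 * m ^ 3) < D / (8 * m ^ 3) ∧
      (univ.filter (fun j' : Fin D => (j' : ℕ) / (8 * m ^ 3) = (j : ℕ) / (8 * m ^ 3) ∧
        b j' = b j)).card < m ^ 2)).card ≤ D / (8 * m ^ 3) * m ^ 3 := by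
  set W := 8 * m ^ 3 with hW
  set S := univ.filter (fun j : Fin D => (j : ℕ) / W < D / W ∧
      (univ.filter (fun j' : Fin D => (j' : ℕ) / W = (j : ℕ) / W ∧
        b j' = b j)).card < m ^ 2) with hS
  have h1 : S.card ≤ m ^ 2 * (S.image (fun j : Fin D => ((j : ℕ) / W, b j))).card := by
    apply Finset.card_le_mul_card_image
    intro x hx
    obtain ⟨j, hj, rfl⟩ := mem_image.1 hx
    have h2 := (mem_filter.1 hj).2.2
    refine le_trans (Finset.card_le_card ?_) h2.le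
    intro j' hj'
    have h3 := (mem_filter.1 hj').2
    simp only [Prod.mk.injEq] at h3
    exact mem_filter.2 ⟨mem_univ _, h3⟩
  have h2 : (S.image (fun j : Fin D => ((j : ℕ) / W, b j))).card ≤ D / W * m := by
    have h3 : S.image (fun j : Fin D => ((j : ℕ) / W, b j)) ⊆
        range (D / W) ×ˢ (univ : Finset (Fin m)) := by
      intro x hx
      obtain ⟨j, hj, rfl⟩ := mem_image.1 hx
      exact mem_product.2 ⟨mem_range.2 (mem_filter.1 hj).2.1, mem_univ _⟩
    have h4 := Finset.card_le_card h3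
    rwa [Finset.card_product, Finset.card_range, Finset.card_univ, Fintype.card_fin] at h4
  calc S.card ≤ m ^ 2 * (S.image (fun j : Fin D => ((j : ℕ) / W, b j))).card := h1
    _ ≤ m ^ 2 * (D / W * m) := Nat.mul_le_mul_left _ h2
    _ = D / W * m ^ 3 := by ring

/-- Windows containing a row of `E` whose colour is not rare: `21 D/32 - 8 m^3 - D/8 ≥ D/2` such
rows, at most `8 m^3` per window. -/
theorem windows2 {D m : ℕ} (hm : 1 ≤ m) (hD : 256 * m ^ 3 ≤ D) (b : Fin D → Fin m)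
    (E : Finset (Fin D)) (hE : 21 * D ≤ 32 * E.card) :
    ∃ (U : Finset (Fin (D / (8 * m ^ 3)))) (r : Fin (D / (8 * m ^ 3)) → Fin D), U.Nonempty ∧
      D / (8 * m ^ 3) ≤ 4 * U.card ∧
      ∀ i ∈ U, r i ∈ E ∧ (r i : ℕ) / (8 * m ^ 3) = (i : ℕ) ∧
        m ^ 2 ≤ (univ.filter (fun j : Fin D => (j : ℕ) / (8 * m ^ 3) = (i : ℕ) ∧
          b j = b (r i))).card := by
  have hrare := rare_rows b
  have hm3 : 0 < m ^ 3 := by positivity
  have hWm : 8 * m ^ 3 = 8 * m ^ 3 := rfl
  revert hrare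
  generalize hW : 8 * m ^ 3 = W
  intro hrare
  have hW0 : 0 < W := by omega
  set w := D / W with hw
  have hD0 : 0 < D := by omega
  have hdm : W * w + D % W = D := Nat.div_add_mod D W
  have hml := Nat.mod_lt D hW0
  have hwW : W * w ≤ D := Nat.mul_div_le D W
  have hw0 : 0 < w := Nat.div_pos (by omega) hW0
  set N : Fin D → ℕ := fun j => (univ.filter (fun j' : Fin D => (j' : ℕ) / W = (j : ℕ) / W ∧
        b j' = b j)).card with hN
  -- the rows of `E` in windows, of a colour which is not rare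
  set E' := E.filter (fun j : Fin D => (j : ℕ) < W * w ∧ m ^ 2 ≤ N j) with hE'
  have hdivlt : ∀ j : Fin D, (j : ℕ) < W * w → (j : ℕ) / W < w := by
    intro j hj
    exact (Nat.div_lt_iff_lt_mul hW0).2 (by rw [mul_comm]; exact hj)
  have hcE : E.card ≤ E'.card + W + w * m ^ 3 := by
    have h1 : (E.filter (fun j : Fin D => ¬ (j : ℕ) < W * w)).card ≤ W := by
      have h2 : ((E.filter (fun j : Fin D => ¬ (j : ℕ) < W * w)).image (fun j : Fin D => (j : ℕ))).card ≤
          (Finset.Ico (W * w) D).card := by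
        apply Finset.card_le_card
        intro x hx
        obtain ⟨j, hj, rfl⟩ := Finset.mem_image.1 hx
        rw [Finset.mem_filter] at hj
        rw [Finset.mem_Ico]
        exact ⟨not_lt.1 hj.2, j.2⟩
      rw [Finset.card_image_of_injective _ Fin.val_injective, Nat.card_Ico] at h2
      omega
    have h2 : E ⊆ (E' ∪ E.filter (fun j : Fin D => ¬ (j : ℕ) < W * w)) ∪
        univ.filter (fun j : Fin D => (j : ℕ) / W < w ∧
          (univ.filter (fun j' : Fin D => (j' : ℕ) / W = (j : ℕ) / W ∧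
            b j' = b j)).card < m ^ 2) := by
      intro j hj
      by_cases h3 : (j : ℕ) < W * w
      · by_cases h4 : m ^ 2 ≤ N j
        · exact mem_union_left _ (mem_union_left _ (mem_filter.2 ⟨hj, h3, h4⟩))
        · exact mem_union_right _ (mem_filter.2 ⟨mem_univ _, hdivlt j h3, not_le.1 h4⟩)
      · exact mem_union_left _ (mem_union_right _ (mem_filter.2 ⟨hj, h3⟩))
    have h3 := (Finset.card_le_card h2).trans ((Finset.card_union_le _ _).trans
      (Nat.add_le_add_right (Finset.card_union_le _ _) _))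
    omega
  have hlt : ∀ j ∈ E', (j : ℕ) / W < w := fun j hj => hdivlt j (mem_filter.1 hj).2.1
  set U : Finset (Fin w) := univ.filter (fun i => ∃ j ∈ E', (j : ℕ) / W = (i : ℕ)) with hU
  have hch : ∀ i : Fin w, ∃ j : Fin D, i ∈ U → j ∈ E' ∧ (j : ℕ) / W = (i : ℕ) := by
    intro i
    by_cases hi : i ∈ U
    · rw [hU, Finset.mem_filter] at hi
      obtain ⟨-, j, hj, hji⟩ := hi
      exact ⟨j, fun _ => ⟨hj, hji⟩⟩
    · exact ⟨⟨0, hD0⟩, fun h => absurd h hi⟩
  choose r hr using hch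
  have hcard : E'.card ≤ W * U.card := by
    have h1 : E'.card ≤ W * (E'.image (fun j : Fin D => (j : ℕ) / W)).card := by
      apply Finset.card_le_mul_card_image
      intro x hx
      have h2 : ((E'.filter (fun j : Fin D => (j : ℕ) / W = x)).image (fun j : Fin D => (j : ℕ))).card
          ≤ (Finset.Ico (W * x) (W * x + W)).card := by
        apply Finset.card_le_card
        intro y hy
        obtain ⟨j, hj, rfl⟩ := Finset.mem_image.1 hy
        rw [Finset.mem_filter] at hj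
        rw [Finset.mem_Ico, ← hj.2]
        have h3 := Nat.div_add_mod (j : ℕ) W
        have h4 := Nat.mod_lt (j : ℕ) hW0
        omega
      rw [Finset.card_image_of_injective _ Fin.val_injective, Nat.card_Ico] at h2
      omega
    have h2 : (E'.image (fun j : Fin D => (j : ℕ) / W)).card ≤ U.card := by
      rw [← Finset.card_image_of_injective U Fin.val_injective]
      apply Finset.card_le_card
      intro x hx
      obtain ⟨j, hj, rfl⟩ := Finset.mem_image.1 hx
      rw [Finset.mem_image]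
      refine ⟨⟨(j : ℕ) / W, hlt j hj⟩, ?_, rfl⟩
      rw [hU, Finset.mem_filter]
      exact ⟨Finset.mem_univ _, j, hj, rfl⟩
    exact h1.trans (Nat.mul_le_mul_left _ h2)
  have h8 : 8 * (w * m ^ 3) = W * w := by
    rw [← hW]
    ring
  have h16 : D ≤ 2 * (W * U.card) := by omega
  have h4 : w ≤ 4 * U.card := by
    have h5 : W * w ≤ W * (2 * U.card) := by
      have : W * (2 * U.card) = 2 * (W * U.card) := by ring
      omega
    have h6 := Nat.le_of_mul_le_mul_left h5 hW0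
    omega
  refine ⟨U, r, ?_, h4, ?_⟩
  · rw [← Finset.card_pos]
    omega
  · intro i hi
    obtain ⟨h5, h6⟩ := hr i hi
    rw [hE', Finset.mem_filter] at h5
    refine ⟨h5.1, h6, ?_⟩
    have h7 := h5.2.2
    simp only [hN] at h7
    rw [h6] at h7
    exact h7

/-- The size of `Qs`: `|I| - 1 - E1 ≥ m/(8q)` (`once_ge` for `I.erase β`), or `|I| - 1`. -/
theorem qs_card {D M m n q l : ℕ} (hp : Par2 m n q l) (hM : M + 1 = m)
    (c : Fin D → Fin M → Fin m) (I : Finset (Fin m)) (β : Fin m) (v : Fin D × (Fin m → Fin M))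
    (hI : m ≤ 4 * q * I.card) (hv1 : ∀ A ∈ I, ∃ a, c v.1 a = A)
    (hv2 : qE1 q l < (mis (c v.1)).card → ∀ A ∈ I, c v.1 (v.2 A) = A) :
    M ≤ 8 * q * (Qs (qE1 q l) c I β v).card := by
  have hq := hp.hq
  have hl := hp.hl1
  have hq3 : 1 ≤ q ^ 3 := Nat.one_le_pow _ _ (by omega)
  have hl2 : 1 ≤ l ^ 2 := Nat.one_le_pow _ _ hl
  -- `8 q (1 + E1) ≤ m`
  have hbig : 8 * q * (1 + 10 * q ^ 2 * l) ≤ m := by
    refine le_trans ?_ hp.hP
    have h1 : 10 ^ 17 * q ^ 3 * l * 1 ≤ 10 ^ 17 * q ^ 3 * l * l ^ 2 := Nat.mul_le_mul_left _ hl2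
    have h2 : 10 ^ 17 * q ^ 3 * l * l ^ 2 = 10 ^ 17 * q ^ 3 * l ^ 3 := by ring
    have h3 : 8 * q ≤ q ^ 3 * l := by
      calc 8 * q ≤ q * q := Nat.mul_le_mul_right _ hq
        _ ≤ q * q * (q * l) := Nat.le_mul_of_pos_right _ (by positivity)
        _ = q ^ 3 * l := by ring
    have h4 : 8 * q * (1 + 10 * q ^ 2 * l) = 8 * q + 80 * (q ^ 3 * l) := by ring
    have h5 : 10 ^ 17 * q ^ 3 * l * 1 = 10 ^ 17 * (q ^ 3 * l) := by ring
    rw [h4, ← h2]
    refine le_trans ?_ h1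
    rw [h5]
    generalize q ^ 3 * l = X at *
    omega
  have hers : I.card ≤ (I.erase β).card + 1 := by
    have := Finset.pred_card_le_card_erase (s := I) (a := β)
    omega
  have hmain : I.card ≤ (Qs (qE1 q l) c I β v).card + (1 + 10 * q ^ 2 * l) := by
    unfold Qs
    split_ifs with he
    · have h1 := once_ge (c v.1) hM (I.erase β) (fun A hA => hv1 A (mem_of_mem_erase hA))
      unfold qE1 at he
      omega
    · have hinj : Set.InjOn v.2 ((I.erase β : Finset (Fin m)) : Set (Fin m)) := by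
        intro A hA A' hA' h
        have hA1 := hv2 (not_le.mp he) A (Finset.mem_of_mem_erase hA)
        have hA2 := hv2 (not_le.mp he) A' (Finset.mem_of_mem_erase hA')
        rw [← hA1, ← hA2, h]
      rw [Finset.card_image_of_injOn hinj]
      omega
  have h1 : 4 * q * I.card
      ≤ 4 * q * ((Qs (qE1 q l) c I β v).card + (1 + 10 * q ^ 2 * l)) :=
    Nat.mul_le_mul_left _ hmain
  have h2 : 4 * q * ((Qs (qE1 q l) c I β v).card + (1 + 10 * q ^ 2 * l))
      = 4 * q * (Qs (qE1 q l) c I β v).card + 4 * q * (1 + 10 * q ^ 2 * l) := by ring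
  have h3 : 8 * q * (Qs (qE1 q l) c I β v).card = 2 * (4 * q * (Qs (qE1 q l) c I β v).card) := by
    ring
  have h4 : 8 * q * (1 + 10 * q ^ 2 * l) = 2 * (4 * q * (1 + 10 * q ^ 2 * l)) := by ring
  rw [h3]
  rw [h4] at hbig
  generalize 4 * q * (Qs (qE1 q l) c I β v).card = X at *
  generalize 4 * q * (1 + 10 * q ^ 2 * l) = Z at *
  omega

/-- Section 6, end. Windows from `windows2`; for `i ∈ U` and `l'` take `u` with
`G (fam (l', u)) (r i)`; `K g i := some (hub)` if `g = (l', u)` is such a pair;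
`Q g i := Qs (fam g) (b (r i)) (f (fam g) (r i))` (`qs_card`); `Θ i` := `m^2` rows of the window
with `b j = b (r i)`; there `f (fam g) j = f (fam g) (r i)`, and `act_cell2` contradicts the
conclusion of `GoodB`. See the proof of `Pool.Agent.Rey.win_contra`. -/
theorem win_contra2 {D M m n q l : ℕ} (hp : Par2 m n q l) (hM : M + 1 = m)
    (hD : 256 * m ^ 3 ≤ D) (ω : Om D (qT q l) (qh l) (qR q l) M)
    (hx : GoodB m q (D / (8 * m ^ 3)) ω)
    (c : Fin D → Fin M → Fin m) (b : Fin D → Fin m) (a0 : Fin M)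
    (f : Finset (Fin m) → Fin D → Fin D × (Fin m → Fin M)) (S : Finset (Fin m) → Prop)
    (hS : ∀ I, S I → m ≤ 4 * q * I.card)
    (hf1 : ∀ I, S I → ∀ j j', b j ∈ I → b j' ∈ I → j ≤ j' → (f I j).1 ≤ (f I j').1)
    (hf3 : ∀ I, S I → ∀ j, b j ∈ I → VAL2 (qE1 q l) (lv2 ω) c b a0 I (f I j) j)
    (G : Finset (Fin m) → Fin D → Prop)
    (hG : ∀ I j, G I j → S I ∧ b j ∈ I ∧ ∀ j', b j' ∈ I → (j : ℕ) ≤ j' + 8 * m ^ 3 →
      (j' : ℕ) ≤ j + 8 * m ^ 3 → f I j' = f I j)
    (fam : Fin m × Fin m → Finset (Fin m)) (E : Finset (Fin D)) (hE : 21 * D ≤ 32 * E.card)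
    (hE1 : ∀ j ∈ E, ∀ l', ∃ u, G (fam (l', u)) j)
    (hE2 : ∀ j ∈ E, ∀ g g', g ≠ g' → G (fam g) j → G (fam g') j →
      (f (fam g) j).1 ≠ (f (fam g') j).1) : False := by
  have hm1 : 1 ≤ m := by
    have := hp.hqn
    have h1 := hp.hP
    have hq := hp.hq
    have h2 : 1 ≤ q ^ 3 := Nat.one_le_pow _ _ (by omega)
    have h3 : 1 ≤ l ^ 3 := Nat.one_le_pow _ _ hp.hl1
    have h4 : 10 ^ 17 * 1 * 1 ≤ 10 ^ 17 * q ^ 3 * l ^ 3 := by gcongr
    omega
  obtain ⟨U, r, hU, hwU, hr⟩ := windows2 hm1 hD b E hE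
  have hΘ : ∀ i : Fin (D / (8 * m ^ 3)), ∃ Θ : Finset (Fin D), i ∈ U → Θ.card = m ^ 2 ∧
      ∀ j ∈ Θ, (j : ℕ) / (8 * m ^ 3) = (i : ℕ) ∧ b j = b (r i) := by
    intro i
    by_cases hi : i ∈ U
    · obtain ⟨Θ, h1, h2⟩ := Finset.exists_subset_card_eq (hr i hi).2.2
      exact ⟨Θ, fun _ => ⟨h2, fun j hj => (mem_filter.1 (h1 hj)).2⟩⟩
    · exact ⟨∅, fun h => absurd h hi⟩
  choose Θ hΘ using hΘ
  have hu : ∀ i : Fin (D / (8 * m ^ 3)), ∃ u : Fin m → Fin m, i ∈ U → ∀ l',
      G (fam (l', u l')) (r i) := by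
    intro i
    by_cases hi : i ∈ U
    · choose u hu using fun l' => hE1 (r i) (hr i hi).1 l'
      exact ⟨u, fun _ => hu⟩
    · exact ⟨fun l' => l', fun h => absurd h hi⟩
  choose u hu using hu
  let K : Fin m × Fin m → Fin (D / (8 * m ^ 3)) → Option (Fin D) := fun g i =>
    if i ∈ U ∧ g.2 = u i g.1 then some (f (fam g) (r i)).1 else none
  have hK : ∀ g i k, K g i = some k → i ∈ U ∧ g.2 = u i g.1 ∧ (f (fam g) (r i)).1 = k := by
    intro g i k h
    by_cases hc : i ∈ U ∧ g.2 = u i g.1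
    · simp only [K, if_pos hc, Option.some.injEq] at h
      exact ⟨hc.1, hc.2, h⟩
    · simp [K, if_neg hc] at h
  have hKs : ∀ g i, (K g i).isSome = true ↔ i ∈ U ∧ g.2 = u i g.1 := by
    intro g i
    by_cases hc : i ∈ U ∧ g.2 = u i g.1
    · simp only [K, if_pos hc, Option.isSome_some, true_iff]
      exact hc
    · simp only [K, if_neg hc, Option.isSome_none, Bool.false_eq_true, false_iff]
      exact hc
  have hGK : ∀ g i, i ∈ U → g.2 = u i g.1 → G (fam g) (r i) := by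
    rintro ⟨g1, g2⟩ i hi h
    simp only at h
    subst h
    exact hu i hi g1
  have husd : ∀ i, i ∈ usd K ↔ i ∈ U := by
    intro i
    unfold usd
    rw [Finset.mem_filter]
    constructor
    · rintro ⟨-, g, hg⟩
      exact ((hKs g i).1 hg).1
    · intro hi
      refine ⟨Finset.mem_univ _, (⟨0, hm1⟩, u i ⟨0, hm1⟩), (hKs _ _).2 ⟨hi, rfl⟩⟩
  have husd' : usd K = U := Finset.ext husd
  have hwin : ∀ i ∈ U, ∀ j ∈ Θ i, ((r i : ℕ) ≤ j + 8 * m ^ 3) ∧ ((j : ℕ) ≤ r i + 8 * m ^ 3) := by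
    intro i hi j hj
    have h1 := (hr i hi).2.1
    have h2 := ((hΘ i hi).2 j hj).1
    have h0 : 0 < 8 * m ^ 3 := by positivity
    have h3 : (8 * m ^ 3) * ((r i : ℕ) / (8 * m ^ 3)) ≤ r i := Nat.mul_div_le _ _
    have h4 : (r i : ℕ) < (8 * m ^ 3) * ((r i : ℕ) / (8 * m ^ 3)) + 8 * m ^ 3 := by
      have := Nat.lt_mul_div_succ (r i : ℕ) h0
      rw [Nat.mul_add, Nat.mul_one] at this
      exact this
    have h5 : (8 * m ^ 3) * ((j : ℕ) / (8 * m ^ 3)) ≤ j := Nat.mul_div_le _ _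
    have h6 : (j : ℕ) < (8 * m ^ 3) * ((j : ℕ) / (8 * m ^ 3)) + 8 * m ^ 3 := by
      have := Nat.lt_mul_div_succ (j : ℕ) h0
      rw [Nat.mul_add, Nat.mul_one] at this
      exact this
    rw [h1] at h3 h4
    rw [h2] at h5 h6
    constructor <;> omega
  let Q : Fin m × Fin m → Fin (D / (8 * m ^ 3)) → Finset (Fin M) := fun g i =>
    Qs (qE1 q l) c (fam g) (b (r i)) (f (fam g) (r i))
  have key : ¬ ∃ g i k j, K g i = some k ∧ j ∈ Θ i ∧ ((ω k j).1 : ℕ) = 0 ∧
      (ω k j).2.2 ∈ Q g i := by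
    rintro ⟨g, i, k, j, hgk, hj, hty, hxx⟩
    obtain ⟨hi, hg, rfl⟩ := hK g i k hgk
    have hG1 := hGK g i hi hg
    obtain ⟨hSg, hbr, hGf⟩ := hG _ _ hG1
    obtain ⟨hjw, hbj⟩ := (hΘ i hi).2 j hj
    have hbj' : b j ∈ fam g := by
      rw [hbj]
      exact hbr
    have hfj : f (fam g) j = f (fam g) (r i) :=
      hGf j hbj' (hwin i hi j hj).1 (hwin i hi j hj).2
    have hv := hf3 _ hSg j hbj'
    rw [hfj] at hv
    have h1 := act_cell2 (qE1 q l) ω c b a0 (fam g) (f (fam g) (r i)) j hty hv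
    rw [hbj] at h1
    exact h1 hxx
  refine key (hx K Q Θ ?_ ?_ ?_ ?_ ?_ ?_ ?_)
  · intro g i i' k k' hii h1 h2
    obtain ⟨hi, hg, rfl⟩ := hK g i k h1
    obtain ⟨hi', hg', rfl⟩ := hK g i' k' h2
    have hG1 := hGK g i hi hg
    have hG1' := hGK g i' hi' hg'
    obtain ⟨hSg, hbr, -⟩ := hG _ _ hG1
    obtain ⟨-, hbr', -⟩ := hG _ _ hG1'
    refine hf1 _ hSg _ _ hbr hbr' ?_
    rcases eq_or_lt_of_le hii with h | h
    · rw [h]
    · have h3 := (hr i hi).2.1
      have h4 := (hr i' hi').2.1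
      have h5 : (i : ℕ) < i' := h
      rw [Fin.le_def]
      by_contra hcon
      push Not at hcon
      have h6 := Nat.div_le_div_right (c := 8 * m ^ 3) hcon.le
      omega
  · intro i g g' k h1 h2
    obtain ⟨hi, hg, h3⟩ := hK g i k h1
    obtain ⟨-, hg', h4⟩ := hK g' i k h2
    by_contra hne
    exact hE2 (r i) (hr i hi).1 g g' hne (hGK g i hi hg) (hGK g' i hi hg') (h3.trans h4.symm)
  · intro i hi
    rw [husd] at hi
    have h1 : (univ.filter (fun g : Fin m × Fin m => (K g i).isSome = true)) =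
        (univ : Finset (Fin m)).image (fun l' => (l', u i l')) := by
      ext g
      simp only [Finset.mem_filter, Finset.mem_univ, true_and, Finset.mem_image]
      rw [hKs]
      constructor
      · rintro ⟨-, h⟩
        exact ⟨g.1, by rw [← h]⟩
      · rintro ⟨l', rfl⟩
        exact ⟨hi, rfl⟩
    rw [h1, Finset.card_image_of_injective _ (fun x y h => (Prod.ext_iff.1 h).1),
      Finset.card_univ, Fintype.card_fin]
  · rw [husd']
    exact hU
  · rw [husd']
    exact hwU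
  · intro g i h
    obtain ⟨hi, hg⟩ := (hKs g i).1 h
    have hG1 := hGK g i hi hg
    obtain ⟨hSg, hbr, -⟩ := hG _ _ hG1
    have hv := hf3 _ hSg (r i) hbr
    exact qs_card hp hM c (fam g) (b (r i)) (f (fam g) (r i)) (hS _ hSg) hv.1
      (fun h => (hv.2.2 h).1)
  · intro i hi
    rw [husd] at hi
    exact ⟨(hΘ i hi).1, fun j hj => ((hΘ i hi).2 j hj).1⟩

end Pool.Agent.Rez
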