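import Mathlib
import Pool.Agent.Rey.Geo
import Pool.Agent.Rez.App
import Pool.Agent.Rez.Ave
import Pool.Agent.Rez.Fam
import Pool.Agent.Rez.LA
import Pool.Agent.Rez.LB
import Pool.Agent.Rez.Nl
import Pool.Agent.Rez.Suit
import Pool.Agent.Rez.Wnd

set_option autoImplicit false

namespace Pool.Agent.Rez

open Finset
open Pool.Agent.Rey
open scoped Classical

private theorem k1_basic {m n q l : ℕ} (hp : Par2 m n q l) :
    8 ≤ q ∧ 1 ≤ l ∧ 10 ^ 17 * q ≤ m ∧ 1 ≤ m := by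
  have hq := hp.hq
  have hl := hp.hl1
  have h1 := hp.hP
  have h2 : q ≤ q ^ 3 := by
    calc q = q ^ 1 := (pow_one _).symm
      _ ≤ q ^ 3 := Nat.pow_le_pow_right (by omega) (by norm_num)
  have h3 : 1 ≤ l ^ 3 := Nat.one_le_pow _ _ hl
  have h4 : 10 ^ 17 * q * 1 ≤ 10 ^ 17 * q ^ 3 * l ^ 3 := by gcongr
  refine ⟨hq, hl, ?_, ?_⟩
  · omega
  · omega

/-- `qV ≥ 1` forces `D` to be large. -/
theorem big_D2 {D m n q l : ℕ} (hp : Par2 m n q l) (hV : 1 ≤ qV m q D) : 256 * m ^ 3 ≤ D := by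
  obtain ⟨hq, hl, hm, hm1⟩ := k1_basic hp
  unfold qV at hV
  have hm5 : 0 < m ^ 5 := by positivity
  rw [Nat.one_le_div_iff hm5] at hV
  by_contra hcon
  push Not at hcon
  have h1 : m ^ 5 ≤ 2000 * q * (256 * m ^ 3) := hV.trans (Nat.mul_le_mul_left _ hcon.le)
  have h2 : m ^ 5 = m ^ 2 * m ^ 3 := by ring
  have hm3 : 0 < m ^ 3 := by positivity
  have h3 : m ^ 2 ≤ 512000 * q := by
    apply Nat.le_of_mul_le_mul_right _ hm3
    nlinarith
  have h4 : 10 ^ 17 * q * 1 ≤ m * m := Nat.mul_le_mul hm hm1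
  have h5 : 0 < q := by omega
  nlinarith

/-- `8000 q (2 L V) ≤ 8 D` for `L = 8 m^3`. -/
theorem LV2 {D m n q l : ℕ} (hp : Par2 m n q l) :
    8000 * q * (2 * (8 * m ^ 3) * qV m q D) ≤ 8 * D := by
  obtain ⟨hq, hl, hm, hm1⟩ := k1_basic hp
  unfold qV
  set V := 2000 * q * D / m ^ 5 with hV
  have h1 : V * m ^ 5 ≤ 2000 * q * D := Nat.div_mul_le_self _ _
  have hm2 : 0 < m ^ 2 := by positivity
  apply Nat.le_of_mul_le_mul_right _ hm2
  have h2 : (10 ^ 17 * q) * (10 ^ 17 * q) ≤ m * m := Nat.mul_le_mul hm hm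
  have h3 : 32000000 * (q * q) ≤ m * m := by nlinarith
  calc 8000 * q * (2 * (8 * m ^ 3) * V) * m ^ 2 = 128000 * q * (V * m ^ 5) := by ring
    _ ≤ 128000 * q * (2000 * q * D) := Nat.mul_le_mul_left _ h1
    _ = 8 * D * (32000000 * (q * q)) := by ring
    _ ≤ 8 * D * (m * m) := Nat.mul_le_mul_left _ h3
    _ = 8 * D * m ^ 2 := by ring

/-- From the exponent condition to the parameters: `q = ⌈8 m / n⌉ ≤ 9 m / n`,
`l = ⌈ln m⌉ ≤ 2 ln m`. -/
theorem par_of2 {m n : ℕ} (hn : 2 ≤ n) (hnm : n ≤ m)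
    (h : 10 ^ 21 * (m : ℝ) ^ 2 * (Real.log m) ^ 3 ≤ (n : ℝ) ^ 3) : ∃ q l, Par2 m n q l := by
  have hn2 : (2 : ℝ) ≤ n := by exact_mod_cast hn
  have hnm' : (n : ℝ) ≤ m := by exact_mod_cast hnm
  have hm2 : (2 : ℝ) ≤ m := hn2.trans hnm'
  have hn0 : (0 : ℝ) < n := by linarith
  have hm0 : (0 : ℝ) < m := by linarith
  have hlog2 : (1 : ℝ) / 2 ≤ Real.log m := by
    have h1 : Real.log 2 ≤ Real.log m := Real.log_le_log (by norm_num) hm2
    have h2 := Real.log_two_gt_d9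
    linarith
  have hlog0 : 0 < Real.log m := by linarith
  -- `m` is large
  have hmbig : (8 : ℝ) ≤ m := by
    have h1 : (n : ℝ) ^ 3 ≤ (m : ℝ) ^ 3 := pow_le_pow_left₀ hn0.le hnm' 3
    have h2 : 10 ^ 21 * (m : ℝ) ^ 2 * (1 / 2) ^ 3 ≤ 10 ^ 21 * (m : ℝ) ^ 2 * (Real.log m) ^ 3 :=
      mul_le_mul_of_nonneg_left (pow_le_pow_left₀ (by norm_num) hlog2 3) (by positivity)
    have h3 : 10 ^ 21 * (m : ℝ) ^ 2 * (1 / 2) ^ 3 ≤ (m : ℝ) ^ 3 := h2.trans (h.trans h1)
    have h4 : 0 < (m : ℝ) ^ 2 := by positivity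
    have h5 : (m : ℝ) ^ 3 = (m : ℝ) ^ 2 * m := by ring
    rw [h5] at h3
    nlinarith
  have hlog1 : 1 ≤ Real.log m := by
    rw [Real.le_log_iff_exp_le hm0]
    have := Real.exp_one_lt_d9
    linarith
  set q : ℕ := (8 * m + n - 1) / n with hq
  set l : ℕ := ⌈Real.log m⌉₊ with hl
  have hnpos : 0 < n := by omega
  have hq1 : 8 * m ≤ n * q := by
    have h1 := Nat.lt_div_mul_add (a := 8 * m + n - 1) hnpos
    rw [← hq] at h1
    have h2 : q * n = n * q := Nat.mul_comm _ _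
    omega
  have hq2 : n * q ≤ 8 * m + n := by
    have h1 := Nat.div_mul_le_self (8 * m + n - 1) n
    rw [← hq, Nat.mul_comm] at h1
    omega
  have hq3 : n * q ≤ 9 * m := by omega
  have hq8 : 8 ≤ q := by
    by_contra hcon
    push Not at hcon
    have h1 : n * q ≤ n * 7 := Nat.mul_le_mul_left _ (by omega)
    omega
  have hl1 : Real.log m ≤ l := Nat.le_ceil _
  have hl2 : (l : ℝ) ≤ 2 * Real.log m := by
    have h1 := (Nat.ceil_lt_add_one hlog0.le).le
    rw [← hl] at h1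
    linarith
  have hl3 : 1 ≤ l := by
    have h1 : (1 : ℝ) ≤ l := hlog1.trans hl1
    exact_mod_cast h1
  refine ⟨q, l, hq8, hnm, hq1, hl1, hl3, ?_⟩
  have hq3' : (n : ℝ) * q ≤ 9 * m := by exact_mod_cast hq3
  have hfin : (10 : ℝ) ^ 17 * (q : ℝ) ^ 3 * (l : ℝ) ^ 3 ≤ m := by
    have hn3 : 0 < (n : ℝ) ^ 3 := by positivity
    have hq0 : (0 : ℝ) ≤ q := Nat.cast_nonneg _
    have hl0 : (0 : ℝ) ≤ l := Nat.cast_nonneg _
    have h1 : ((n : ℝ) * q) ^ 3 ≤ (9 * m) ^ 3 := pow_le_pow_left₀ (by positivity) hq3' 3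
    have h2 : (l : ℝ) ^ 3 ≤ (2 * Real.log m) ^ 3 := pow_le_pow_left₀ hl0 hl2 3
    have h3 : ((n : ℝ) * q) ^ 3 * (l : ℝ) ^ 3 ≤ (9 * m) ^ 3 * (2 * Real.log m) ^ 3 :=
      mul_le_mul h1 h2 (by positivity) (by positivity)
    refine le_of_mul_le_mul_right ?_ hn3
    calc (10 : ℝ) ^ 17 * (q : ℝ) ^ 3 * (l : ℝ) ^ 3 * (n : ℝ) ^ 3
        = 10 ^ 17 * (((n : ℝ) * q) ^ 3 * (l : ℝ) ^ 3) := by ring
      _ ≤ 10 ^ 17 * ((9 * m) ^ 3 * (2 * Real.log m) ^ 3) :=
          mul_le_mul_of_nonneg_left h3 (by positivity)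
      _ = (5832 * 10 ^ 17 * (m : ℝ) ^ 2 * (Real.log m) ^ 3) * m := by ring
      _ ≤ (10 ^ 21 * (m : ℝ) ^ 2 * (Real.log m) ^ 3) * m := by
          refine mul_le_mul_of_nonneg_right ?_ hm0.le
          have : 0 ≤ (m : ℝ) ^ 2 * (Real.log m) ^ 3 := by positivity
          nlinarith
      _ ≤ (n : ℝ) ^ 3 * m := mul_le_mul_of_nonneg_right h hm0.le
      _ = m * (n : ℝ) ^ 3 := by ring
  exact_mod_cast hfin

/-- No colouring wins. -/
theorem no_win2 {D M m n q l : ℕ} (hp : Par2 m n q l) (hM : M + 1 = m) (hD : 2 ≤ D)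
    (ω : Om D (qT q l) (qh l) (qR q l) M) (hs : GoodA m q (qE0 q l) (n / 2) ω)
    (hx : GoodB m q (D / (8 * m ^ 3)) ω) (c : Fin D → Fin M → Fin m)
    (hwin : ∀ I : Finset (Fin m), I.card ≤ n → Win (lv2 ω) c I) : False := by
  have hm0 : 2 ≤ m := le_trans (by norm_num) (par_basic hp).2.2.2.1
  have hM0 : 0 < M := by omega
  set a0 : Fin M := ⟨0, hM0⟩ with ha0
  have hmis : ∀ k, ∃ B, B ∈ mis (c k) := fun k => mis_pos (c k) (by omega)
  choose b hb' using hmis
  have hb : ∀ k a, c k a ≠ b k := by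
    intro k a
    have := hb' k
    simp only [mis, mem_filter, mem_univ, true_and] at this
    exact this a
  set S : Finset (Fin m) → Prop :=
    fun I => Suit2 q n (qR q l) (qE0 q l) (qE1 q l) (qV m q D) c I with hSdef
  have hSw : ∑ I ∈ univ.filter (fun I => ¬ S I), wt (1 / (q : ℝ)) I ≤ 1 / (500 * (q : ℝ)) :=
    unsuit2 hp hM (by omega) c
  set Ef : Fin D → Prop := fun j => eff (qT q l) (qE0 q l) c b (b j) with hEfdef
  have hEf : 100 * (univ.filter (fun j : Fin D => ¬ Ef j)).card ≤ D := ineff_rows hp hM c b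
  set J : Finset (Fin m) → Finset (Fin D) := fun I => JJ (qT q l) (qE0 q l) c b I with hJdef
  have hJeq : ∀ I, univ.filter (fun j : Fin D => Ef j ∧ b j ∈ I) = J I := fun I => rfl
  have hA : ∀ I, ∃ f : Fin D → Fin D × (Fin m → Fin M), (S I ∧ D ≤ 200 * q * (J I).card) →
      (∀ j j', b j ∈ I → b j' ∈ I → j ≤ j' → (f j).1 ≤ (f j').1) ∧
      (∀ j j' j'', b j ∈ I → b j' ∈ I → b j'' ∈ I → j ≤ j' → j' ≤ j'' →
        f j = f j'' → f j' = f j) ∧
      (∀ j, b j ∈ I → VAL2 (qE1 q l) (lv2 ω) c b a0 I (f j) j) ∧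
      64 * ((J I).filter (fun j => (mis (c (f j).1)).card ≤ qE0 q l ∧
          qR q l ≤ 2 * (gb (qR q l) (c (f j).1) I).card)).card < (J I).card := by
    intro I
    by_cases h : S I ∧ D ≤ 200 * q * (J I).card
    · obtain ⟨f, hf⟩ := caseA2 hp hM hD ω hs c b hb a0 hwin I h.1.2.1 h.2
      exact ⟨f, fun _ => hf⟩
    · exact ⟨fun j => (j, fun _ => a0), fun h' => absurd h' h⟩
  choose f hf using hA
  set Sp : Finset (Fin m) → Finset (Fin D × (Fin m → Fin M)) := fun I => univ.filter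
    (fun v : Fin D × (Fin m → Fin M) =>
      (∀ A ∈ I, ∃ a, c v.1 a = A) ∧
      ((mis (c v.1)).card ≤ qE1 q l → v.2 = fun _ => a0) ∧
      (qE1 q l < (mis (c v.1)).card →
        (∀ A ∈ I, c v.1 (v.2 A) = A) ∧ ∀ A, A ∉ I → v.2 A = a0) ∧
      ¬ ((mis (c v.1)).card ≤ qE0 q l ∧
        qR q l ≤ 2 * (gb (qR q l) (c v.1) I).card)) with hSp
  have hSpc : ∀ I, S I → (Sp I).card ≤ qV m q D := fun I hI =>
    (sp_card2 (qR q l) (qE0 q l) (qE1 q l) c a0 I).trans hI.2.2
  have hmemSp : ∀ I, S I → D ≤ 200 * q * (J I).card → ∀ j, b j ∈ I →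
      ¬ ((mis (c (f I j).1)).card ≤ qE0 q l ∧
        qR q l ≤ 2 * (gb (qR q l) (c (f I j).1) I).card) → f I j ∈ Sp I := by
    intro I hI hJI j hj hnl
    have hv := (hf I ⟨hI, hJI⟩).2.2.1 j hj
    simp only [hSp, mem_filter, mem_univ, true_and]
    exact ⟨hv.1, fun h => (hv.2.1 h).1, fun h => ⟨(hv.2.2 h).1, (hv.2.2 h).2.1⟩, hnl⟩
  rcases Nat.eq_zero_or_pos (qV m q D) with hV | hV
  · -- no nonlight columns
    refine case02 hp (by omega) b Ef hEf S hSw (fun I hI => ?_)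
    rw [hJeq I]
    by_contra hcon
    push Not at hcon
    have h1 := (hf I ⟨hI, hcon⟩).2.2.2
    have h2 : (J I).filter (fun j => (mis (c (f I j).1)).card ≤ qE0 q l ∧
          qR q l ≤ 2 * (gb (qR q l) (c (f I j).1) I).card) = J I := by
      apply Finset.filter_true_of_mem
      intro j hj
      by_contra hnl
      have h3 := hmemSp I hI hcon j (mem_filter.mp hj).2.2 hnl
      have h4 := hSpc I hI
      rw [hV] at h4
      have h5 : 0 < (Sp I).card := Finset.card_pos.mpr ⟨_, h3⟩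
      omega
    rw [h2] at h1
    omega
  · have hDb := big_D2 hp hV
    obtain ⟨G, hG⟩ : ∃ G : Finset (Fin m) → Fin D → Prop, ∀ I j, G I j ↔
        (S I ∧ D ≤ 200 * q * (J I).card) ∧
        b j ∈ I ∧ ¬ ((mis (c (f I j).1)).card ≤ qE0 q l ∧
          qR q l ≤ 2 * (gb (qR q l) (c (f I j).1) I).card) ∧
        ∀ j', b j' ∈ I → (j : ℕ) ≤ j' + 8 * m ^ 3 →
          (j' : ℕ) ≤ j + 8 * m ^ 3 → f I j' = f I j := ⟨_, fun _ _ => Iff.rfl⟩
    have hgr := good_rows2 hp (by omega) b Ef hEf S G hSw (fun I hI => by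
      rw [hJeq I]
      by_cases hJI : D ≤ 200 * q * (J I).card
      · set B : Finset (Fin D) := univ.filter (fun j => b j ∈ I) with hB
        have hdeep := deep (L := 8 * m ^ 3) B (f I) (by
          intro j hj j' hj' j'' hj'' h1 h2 h3
          simp only [hB, mem_filter, mem_univ, true_and] at hj hj' hj''
          exact (hf I ⟨hI, hJI⟩).2.1 j j' j'' hj hj' hj'' h1 h2 h3) (Sp I)
        have hord := (hf I ⟨hI, hJI⟩).2.2.2
        have hsub : (univ.filter (fun j : Fin D => Ef j ∧ b j ∈ I ∧ ¬ G I j)) ⊆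
            ((J I).filter (fun j => (mis (c (f I j).1)).card ≤ qE0 q l ∧
              qR q l ≤ 2 * (gb (qR q l) (c (f I j).1) I).card)) ∪
            (B.filter (fun j => f I j ∈ Sp I ∧ ∃ j' ∈ B, (j : ℕ) ≤ j' + 8 * m ^ 3 ∧
              (j' : ℕ) ≤ j + 8 * m ^ 3 ∧ f I j' ≠ f I j)) := by
          intro j hj
          simp only [mem_filter, mem_univ, true_and] at hj
          obtain ⟨h1, h2, h3⟩ := hj
          rw [mem_union]
          by_cases hli : (mis (c (f I j).1)).card ≤ qE0 q l ∧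
              qR q l ≤ 2 * (gb (qR q l) (c (f I j).1) I).card
          · left
            rw [mem_filter]
            refine ⟨?_, hli⟩
            rw [← hJeq I, mem_filter]
            exact ⟨mem_univ _, h1, h2⟩
          · right
            rw [mem_filter]
            refine ⟨by simpa [hB] using h2, hmemSp I hI hJI j h2 hli, ?_⟩
            by_contra hcon
            apply h3
            rw [hG]
            refine ⟨⟨hI, hJI⟩, h2, hli, ?_⟩
            intro j' hj' h4 h5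
            by_contra h6
            exact hcon ⟨j', by simpa [hB] using hj', h4, h5, h6⟩
        have hcard := (Finset.card_le_card hsub).trans (Finset.card_union_le _ _)
        have hLV := LV2 (D := D) hp
        set x := (univ.filter (fun j : Fin D => Ef j ∧ b j ∈ I ∧ ¬ G I j)).card
        set y := ((J I).filter (fun j => (mis (c (f I j).1)).card ≤ qE0 q l ∧
              qR q l ≤ 2 * (gb (qR q l) (c (f I j).1) I).card)).card
        set z := (B.filter (fun j => f I j ∈ Sp I ∧ ∃ j' ∈ B, (j : ℕ) ≤ j' + 8 * m ^ 3 ∧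
              (j' : ℕ) ≤ j + 8 * m ^ 3 ∧ f I j' ≠ f I j)).card
        have hz : z ≤ 2 * (8 * m ^ 3) * qV m q D :=
          hdeep.trans (Nat.mul_le_mul_left _ (hSpc I hI))
        have hz2 : 8000 * q * z ≤ 8 * D := (Nat.mul_le_mul_left _ hz).trans hLV
        have hy2 : q * (64 * y) ≤ q * (J I).card := Nat.mul_le_mul_left _ hord.le
        nlinarith [Nat.mul_le_mul_left (8000 * q) hcard]
      · push Not at hJI
        have h1 : (univ.filter (fun j : Fin D => Ef j ∧ b j ∈ I ∧ ¬ G I j)).card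
            ≤ (J I).card := by
          apply Finset.card_le_card
          intro j hj
          simp only [mem_filter, mem_univ, true_and] at hj
          rw [← hJeq I, mem_filter]
          exact ⟨mem_univ _, hj.1, hj.2.1⟩
        nlinarith [Nat.mul_le_mul_left (8000 * q) h1])
    set GR : Finset (Fin D) := univ.filter (fun j : Fin D =>
      ∑ I ∈ univ.filter (fun I => b j ∈ I ∧ ¬ G I j), wt (1 / (q : ℝ)) I
        ≤ 1 / (4 * (q : ℝ))) with hGR
    obtain ⟨fam, hfam⟩ := family2 hp GR G (fun I j => (f I j).1)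
      (fun k I => NL (qR q l) (qE0 q l) c k I) (fun k => nl_prob hp hM c k)
      (by
        intro j hj
        simp only [hGR, mem_filter, mem_univ, true_and] at hj
        exact good_w hp (b j) (fun I => G I j) (fun I h => ((hG I j).mp h).2.1) hj)
      (by
        intro I j hIj
        rw [hG] at hIj
        have hv := (hf I hIj.1).2.2.1 j hIj.2.1
        refine ⟨?_, ?_⟩
        · intro A hA hAI
          obtain ⟨a, ha⟩ := hv.1 A hAI
          simp only [mis, mem_filter, mem_univ, true_and] at hA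
          exact hA a ha
        · by_contra hcon
          push Not at hcon
          exact hIj.2.2.1 hcon)
    set E : Finset (Fin D) := GR.filter (fun j =>
        (∀ l', ∃ u, G (fam (l', u)) j) ∧
        ∀ g g', g ≠ g' → G (fam g) j → G (fam g') j → (f (fam g) j).1 ≠ (f (fam g') j).1) with hE
    refine win_contra2 hp hM hDb ω hx c b a0 f (fun I => S I ∧ D ≤ 200 * q * (J I).card)
      (fun I hI => hI.1.1) (fun I hI => (hf I hI).1) (fun I hI => (hf I hI).2.2.1) G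
      (fun I j h => ⟨((hG I j).mp h).1, ((hG I j).mp h).2.1, ((hG I j).mp h).2.2.2⟩) fam E ?_ ?_ ?_
    · have h1 : 7 * D ≤ 8 * GR.card := by convert hgr
      have h2 : 3 * GR.card ≤ 4 * E.card := by convert hfam
      omega
    · intro j hj
      exact (Finset.mem_filter.mp hj).2.1
    · intro j hj
      exact (Finset.mem_filter.mp hj).2.2

theorem main2 {d m n q l : ℕ} (hp : Par2 m n q l) (hd : 1 ≤ d) :
    ∃ X : Finset (EuclideanSpace ℝ (Fin d)), X.card = (m - 1) * (d + 1) ∧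
      ∀ f : EuclideanSpace ℝ (Fin d) → Fin m, ∃ I : Finset (Fin m), I.card = n ∧
        (⋂ i ∈ I, convexHull ℝ {x : EuclideanSpace ℝ (Fin d) | x ∈ X ∧ f x = i}) = ∅ := by
  have hm0 : 2 ≤ m := le_trans (by norm_num) (par_basic hp).2.2.2.1
  obtain ⟨ω, hs, hx⟩ := both (D := d + 1) (M := m - 1) (w := (d + 1) / (8 * m ^ 3)) hp (by omega)
    (by omega)
    (by
      have hpos : 0 < 8 * m ^ 3 := by positivity
      have := Nat.lt_div_mul_add (a := d + 1) hpos
      rw [add_mul, one_mul]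
      omega)
  exact geo d (m - 1) m n hd (by omega) hp.hnm (lv2 ω) (fun c hwin =>
    no_win2 hp (by omega) (by omega) ω hs hx c hwin)

end Pool.Agent.Rez
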